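import Pool.Agent.TBK.Act

/-!
# TBK/ChainL: general facts about the chain
-/

set_option autoImplicit false

namespace Pool.Agent.TBK

open Pool.Agent.DFJ Matrix

variable {R : Type*} [CommRing R]

theorem W_zero (b : ℕ → ℤ) (w : R) : Wc b w 0 = 0 := rfl

theorem W_one (b : ℕ → ℤ) (w : R) : Wc b w 1 = w := rfl

theorem Q_zero (b : ℕ → ℤ) (w : R) : Qc b w 0 = w := rfl

theorem W_step (b : ℕ → ℤ) (w : R) (i : ℕ) :
    Wc b w (i + 2) = (act (Wc b w (i + 1)) (b (i + 1)) (Wc b w i, Qc b w i)).1 := rfl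

theorem Q_step (b : ℕ → ℤ) (w : R) (i : ℕ) :
    Qc b w (i + 1) = (act (Wc b w (i + 1)) (b (i + 1)) (Wc b w i, Qc b w i)).2 := rfl

/-- Induction along the chain, for a property of `W_i, W_{i+1}, Q_{i+1}`. -/
theorem chain_map {S : Type*} [CommRing S] (f : R →+* S) (b : ℕ → ℤ) (w : R) (i : ℕ) :
    Wc b (f w) i = f (Wc b w i) ∧ Wc b (f w) (i + 1) = f (Wc b w (i + 1)) ∧
      Qc b (f w) i = f (Qc b w i) := by
  induction i with
  | zero => simp [W_zero, W_one, Q_zero]
  | succ i ih =>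
    obtain ⟨h1, h2, h3⟩ := ih
    refine ⟨h2, ?_, ?_⟩
    · rw [W_step, W_step, h1, h2, h3]
      exact congrArg Prod.fst (act_map f (Wc b w (i + 1)) (b (i + 1)) (Wc b w i, Qc b w i))
    · rw [Q_step, Q_step, h1, h2, h3]
      exact congrArg Prod.snd (act_map f (Wc b w (i + 1)) (b (i + 1)) (Wc b w i, Qc b w i))

theorem W_map {S : Type*} [CommRing S] (f : R →+* S) (b : ℕ → ℤ) (w : R) (i : ℕ) :
    Wc b (f w) i = f (Wc b w i) := (chain_map f b w i).1

theorem Q_map {S : Type*} [CommRing S] (f : R →+* S) (b : ℕ → ℤ) (w : R) (i : ℕ) :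
    Qc b (f w) i = f (Qc b w i) := (chain_map f b w i).2.2

theorem LL_map {S : Type*} [CommRing S] (f : R →+* S) (b : ℕ → ℤ) (n : ℕ) (w : R) :
    LL b n (f w) = f (LL b n w) := by
  unfold LL
  rw [map_prod]
  apply Finset.prod_congr rfl
  intro j _
  rw [map_PP, W_map, map_add, map_pow, map_ofNat]

theorem chain_congr {b b' : ℕ → ℤ} (w : R) {i : ℕ} (h : ∀ j, 1 ≤ j → j ≤ i → b j = b' j) :
    Wc b w i = Wc b' w i ∧ Wc b w (i + 1) = Wc b' w (i + 1) ∧ Qc b w i = Qc b' w i := by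
  induction i with
  | zero => exact ⟨rfl, rfl, rfl⟩
  | succ i ih =>
    obtain ⟨h1, h2, h3⟩ := ih fun j hj hj' => h j hj (by omega)
    refine ⟨h2, ?_, ?_⟩
    · rw [W_step, W_step, h1, h2, h3, h (i + 1) (by omega) le_rfl]
    · rw [Q_step, Q_step, h1, h2, h3, h (i + 1) (by omega) le_rfl]

/-- `W_i` depends on `b_1, …, b_{i-1}` only. -/
theorem W_congr {b b' : ℕ → ℤ} (w : R) {i : ℕ} (h : ∀ j, 1 ≤ j → j < i → b j = b' j) :
    Wc b w i = Wc b' w i := by
  cases i with
  | zero => rfl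
  | succ i => exact (chain_congr w fun j hj hj' => h j hj (by omega)).2.1

theorem Q_congr {b b' : ℕ → ℤ} (w : R) {i : ℕ} (h : ∀ j, 1 ≤ j → j ≤ i → b j = b' j) :
    Qc b w i = Qc b' w i := (chain_congr w h).2.2

theorem chain_neg (b : ℕ → ℤ) (w : R) (i : ℕ) :
    Wc b (-w) i = (-1) ^ i * Wc b w i ∧ Wc b (-w) (i + 1) = (-1) ^ (i + 1) * Wc b w (i + 1) ∧
      Qc b (-w) i = -Qc b w i := by
  induction i with
  | zero => simp [W_zero, W_one, Q_zero]
  | succ i ih =>
    obtain ⟨h1, h2, h3⟩ := ih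
    have hε : ((-1 : R) ^ (i + 1)) ^ 2 = 1 := by
      rw [← pow_mul, mul_comm, pow_mul]; simp
    have e1 : ((-1 : R) ^ i * Wc b w i, -Qc b w i) =
        (-((-1 : R) ^ (i + 1)) * Wc b w i,
          -((-1 : R) ^ (i + 1)) * ((-1 : R) ^ (i + 1) * Qc b w i)) := by
      ext
      · simp only []; ring
      · simp only []; linear_combination (Qc b w i) * hε
    have key : act ((-1) ^ (i + 1) * Wc b w (i + 1)) (b (i + 1))
        ((-1 : R) ^ i * Wc b w i, -Qc b w i) =
        ((-1) ^ (i + 2) * Wc b w (i + 2), -Qc b w (i + 1)) := by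
      rw [e1, act_smul (-((-1 : R) ^ (i + 1))) _ _ (Wc b w i, (-1 : R) ^ (i + 1) * Qc b w i),
        act_sign hε, act_succ]
      ext
      · simp only []; ring
      · simp only []; linear_combination (-Qc b w (i + 1)) * hε
    refine ⟨h2, ?_, ?_⟩
    · rw [W_step, h1, h2, h3, key]
    · rw [Q_step, h1, h2, h3, key]

theorem W_neg (b : ℕ → ℤ) (w : R) (i : ℕ) : Wc b (-w) i = (-1) ^ i * Wc b w i :=
  (chain_neg b w i).1

theorem chain_w0 (b : ℕ → ℤ) (i : ℕ) : Wc b (0 : R) i = 0 ∧ Wc b (0 : R) (i + 1) = 0 ∧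
    Qc b (0 : R) i = 0 := by
  induction i with
  | zero => exact ⟨rfl, rfl, rfl⟩
  | succ i ih =>
    obtain ⟨h1, h2, h3⟩ := ih
    refine ⟨h2, ?_, ?_⟩
    · rw [W_step, h1, h2, h3, act_w0]
    · rw [Q_step, h1, h2, h3, act_w0]

/-- The quadratic relation. -/
theorem chain_form (b : ℕ → ℤ) (w : R) (i : ℕ) :
    Qc b w i ^ 2 + Wc b w (i + 1) * Wc b w i * Qc b w i =
      Wc b w i ^ 2 + Wc b w (i + 1) ^ 2 := by
  induction i with
  | zero => simp [W_zero, W_one, Q_zero]
  | succ i ih =>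
    have h := act_form (Wc b w (i + 1)) (b (i + 1)) (Wc b w i, Qc b w i)
    rw [act_succ] at h
    simp only [] at h
    linear_combination h + ih

theorem chain_rev {n : ℕ} {b : ℕ → ℤ} {w ε : R} (h : Wc b w (n + 1) = 0) (hε : ε ^ 2 = 1)
    (hq : Qc b w n = ε * Wc b w n) (j : ℕ) (hj : j ≤ n) :
    Wc b w (n + 1 - j) = (if Even j then ε else 1) * Wc (rv n b) (Wc b w n) j ∧
      Wc b w (n - j) = (if Even j then 1 else ε) * Wc (rv n b) (Wc b w n) (j + 1) ∧
      Qc b w (n - j) = ε * Qc (rv n b) (Wc b w n) j := by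
  induction j with
  | zero =>
    refine ⟨?_, ?_, ?_⟩
    · rw [Nat.sub_zero, h, W_zero, mul_zero]
    · rw [Nat.sub_zero, if_pos Even.zero, W_one, one_mul]
    · rw [Nat.sub_zero, Q_zero, hq]
  | succ j ih =>
    obtain ⟨h1, h2, h3⟩ := ih (by omega)
    obtain ⟨k, hk⟩ : ∃ k, n = j + 1 + k := ⟨n - (j + 1), by omega⟩
    have e1 : n + 1 - j = k + 2 := by omega
    have e2 : n - j = k + 1 := by omega
    have e3 : n - (j + 1) = k := by omega
    have e4 : n + 1 - (j + 1) = k + 1 := by omega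
    have e5 : rv n b (j + 1) = -b (k + 1) := by
      unfold rv
      rw [e4]
    rw [e1] at h1
    rw [e2] at h2 h3
    rw [e3, e4]
    set v := Wc b w n with hv
    -- going back
    have hback : act (Wc b w (k + 1)) (rv n b (j + 1)) (Wc b w (k + 2), Qc b w (k + 1)) =
        (Wc b w k, Qc b w k) := by
      rw [e5, ← act_succ, ← act_add, neg_add_cancel, act_zero]
    have hrev : act (Wc (rv n b) v (j + 1)) (rv n b (j + 1)) (Wc (rv n b) v j, Qc (rv n b) v j) =
        (Wc (rv n b) v (j + 2), Qc (rv n b) v (j + 1)) := act_succ _ _ _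
    rw [h1, h2, h3] at hback
    rcases Nat.even_or_odd j with hj2 | hj2
    · have hj3 : ¬ Even (j + 1) := by
        rw [Nat.even_add_one]; exact fun h => h hj2
      rw [if_pos hj2] at hback h2
      rw [if_pos hj2, one_mul] at hback
      rw [if_neg hj3, if_neg hj3, act_smul ε _ _ (Wc (rv n b) v j, Qc (rv n b) v j), hrev] at *
      have g1 := congrArg Prod.fst hback
      have g2 := congrArg Prod.snd hback
      simp only [] at g1 g2
      refine ⟨?_, g1.symm, g2.symm⟩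
      rw [h2]
    · have hj1 : ¬ Even j := Nat.not_even_iff_odd.2 hj2
      have hj3 : Even (j + 1) := by
        rw [Nat.even_add_one]; exact hj1
      rw [if_neg hj1, if_neg hj1, one_mul, act_sign hε, hrev] at hback
      rw [if_neg hj1] at h2
      rw [if_pos hj3, if_pos hj3]
      have g1 := congrArg Prod.fst hback
      have g2 := congrArg Prod.snd hback
      simp only [] at g1 g2
      exact ⟨h2, by rw [one_mul]; exact g1.symm, g2.symm⟩

/-- In a domain a closed chain has `Q_{n+1} = ± W_n`. -/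
theorem exists_sign [IsDomain R] {n : ℕ} {b : ℕ → ℤ} {w : R} (h : Wc b w (n + 1) = 0) :
    ∃ ε : ℤ, (ε = 1 ∨ ε = -1) ∧ Qc b w n = (ε : R) * Wc b w n := by
  have h1 := chain_form b w n
  rw [h] at h1
  have h2 : (Qc b w n - Wc b w n) * (Qc b w n + Wc b w n) = 0 := by
    linear_combination h1
  rcases mul_eq_zero.1 h2 with h3 | h3
  · exact ⟨1, Or.inl rfl, by push_cast; linear_combination h3⟩
  · exact ⟨-1, Or.inr rfl, by push_cast; linear_combination h3⟩

end Pool.Agent.TBK
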