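import Pool.Agent.TBK.Chain

/-!
# TBK/KK: the integers `k_i`

* `kk_congr`: induction (two-step).
* `kk_parity`: `kk b (i+2) ≡ kk b i` modulo 2.
* `kk_grow`: `|k_{j+2}| ≥ 2 |b_{j+1}| |k_{j+1}| - |k_j| ≥ 2 |k_{j+1}| - |k_j| > |k_{j+1}|` when
  `|k_j| < |k_{j+1}|`, `b_{j+1} ≠ 0`. Base `|k_0| = 0 < 1 = |k_1|`.
* `BB b i m` is the sequence with `B_0 = 1`, `B_1 = 0` and the recursion of `kk` shifted by `i`;
  `A_m = kk (fun l => b (i + l)) m`. `kk_split`: induction (two-step), both sides satisfy the same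
  recursion.
* `wronsk`: `A_m B_{m+1} - A_{m+1} B_m = ± 1`: it changes sign when `m` increases, and it is
  `0 * 0 - 1 * 1 = -1` for `m = 0`.
* `wronsk_ne`: fix `M` and put `D_m = A_m B_M - A_M B_m`, so `D_M = 0`, `D_{M-1} = ± 1` and
  `D_m = D_{m+2} - 2 b (i+m+1) D_{m+1}`. By induction on `k`, `|D_{M-k}| < |D_{M-k-1}|` as long as
  `k + 1 ≤ M` (for `k = 0`: `0 < 1`): so `D_m ≠ 0` for `m < M`.
-/

set_option autoImplicit false

namespace Pool.Agent.TBK

/-- the second solution of the recursion -/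
def BB (b : ℕ → ℤ) (i : ℕ) : ℕ → ℤ
  | 0 => 1
  | 1 => 0
  | m + 2 => BB b i m + 2 * b (i + m + 1) * BB b i (m + 1)

private theorem kk_two (b : ℕ → ℤ) (i : ℕ) :
    kk b (i + 2) = kk b i + 2 * b (i + 1) * kk b (i + 1) := rfl

private theorem BB_two (b : ℕ → ℤ) (i m : ℕ) :
    BB b i (m + 2) = BB b i m + 2 * b (i + m + 1) * BB b i (m + 1) := rfl

private theorem kk_congr_aux {b b' : ℕ → ℤ} : ∀ i : ℕ, (∀ j, 1 ≤ j → j < i → b j = b' j) →
    kk b i = kk b' i
  | 0, _ => rfl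
  | 1, _ => rfl
  | i + 2, h => by
    rw [kk_two, kk_two, kk_congr_aux i fun j h1 h2 => h j h1 (by omega),
      kk_congr_aux (i + 1) fun j h1 h2 => h j h1 (by omega), h (i + 1) (by omega) (by omega)]

theorem kk_congr {b b' : ℕ → ℤ} {i : ℕ} (h : ∀ j, 1 ≤ j → j < i → b j = b' j) :
    kk b i = kk b' i := kk_congr_aux i h

private theorem BB_congr_aux {b b' : ℕ → ℤ} (i : ℕ) : ∀ m : ℕ,
    (∀ j, i < j → j < i + m → b j = b' j) → BB b i m = BB b' i m
  | 0, _ => rfl
  | 1, _ => rfl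
  | m + 2, h => by
    rw [BB_two, BB_two, BB_congr_aux i m fun j h1 h2 => h j h1 (by omega),
      BB_congr_aux i (m + 1) fun j h1 h2 => h j h1 (by omega),
      h (i + m + 1) (by omega) (by omega)]

theorem BB_congr {b b' : ℕ → ℤ} {i m : ℕ} (h : ∀ j, i < j → j < i + m → b j = b' j) :
    BB b i m = BB b' i m := BB_congr_aux i m h

private theorem kk_parity_aux (b : ℕ → ℤ) : ∀ i : ℕ, Even (kk b i) ↔ Even i
  | 0 => by simp [kk]
  | 1 => by simp [kk]
  | i + 2 => by
    rw [kk_two, mul_assoc, Int.even_add, kk_parity_aux b i, Nat.even_add]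
    simp

theorem kk_parity (b : ℕ → ℤ) (i : ℕ) : Even (kk b i) ↔ Even i := kk_parity_aux b i

private theorem grow_step {x y c : ℤ} (hc : c ≠ 0) (h : |x| < |y|) : |y| < |x + 2 * c * y| := by
  have h1 : 1 ≤ |c| := Int.one_le_abs hc
  have h2 : |2 * c * y| ≤ |x + 2 * c * y| + |x| := by
    have := abs_sub (x + 2 * c * y) x
    have e : x + 2 * c * y - x = 2 * c * y := by ring
    rwa [e] at this
  have h3 : |2 * c * y| = 2 * |c| * |y| := by
    rw [abs_mul, abs_mul]
    norm_num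
  have h4 : 0 ≤ |y| := abs_nonneg y
  nlinarith [mul_le_mul_of_nonneg_right h1 h4]

theorem kk_grow {n : ℕ} {b : ℕ → ℤ} (hb : ∀ j, 1 ≤ j → j ≤ n → b j ≠ 0) (i : ℕ) (hi : i ≤ n) :
    |kk b i| < |kk b (i + 1)| := by
  induction i with
  | zero => simp [kk]
  | succ i ih =>
    rw [kk_two]
    exact grow_step (hb (i + 1) (by omega) hi) (ih (by omega))

theorem kk_ne {n : ℕ} {b : ℕ → ℤ} (hb : ∀ j, 1 ≤ j → j ≤ n → b j ≠ 0) {i : ℕ} (h1 : 1 ≤ i)
    (hi : i ≤ n + 1) : kk b i ≠ 0 := by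
  obtain ⟨j, rfl⟩ : ∃ j, i = j + 1 := ⟨i - 1, by omega⟩
  have h := kk_grow hb j (by omega)
  intro h0
  rw [h0, abs_zero] at h
  exact absurd h (not_lt.2 (abs_nonneg _))

private theorem kk_split_aux (b : ℕ → ℤ) (i : ℕ) : ∀ m : ℕ,
    kk b (i + m) = kk (fun l => b (i + l)) m * kk b (i + 1) + BB b i m * kk b i
  | 0 => by simp [kk, BB]
  | 1 => by simp [kk, BB]
  | m + 2 => by
    have h1 := kk_split_aux b i m
    have h2 := kk_split_aux b i (m + 1)
    have h3 : kk b (i + (m + 2)) = kk b (i + m) + 2 * b (i + m + 1) * kk b (i + (m + 1)) := rfl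
    have h4 : kk (fun l => b (i + l)) (m + 2) = kk (fun l => b (i + l)) m +
      2 * b (i + m + 1) * kk (fun l => b (i + l)) (m + 1) := rfl
    rw [h3, h4, BB_two, h1, h2]
    ring

theorem kk_split (b : ℕ → ℤ) (i m : ℕ) :
    kk b (i + m) = kk (fun l => b (i + l)) m * kk b (i + 1) + BB b i m * kk b i :=
  kk_split_aux b i m

theorem wronsk (b : ℕ → ℤ) (i m : ℕ) :
    |kk (fun l => b (i + l)) m * BB b i (m + 1) - kk (fun l => b (i + l)) (m + 1) * BB b i m| =
      1 := by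
  induction m with
  | zero => simp [kk, BB]
  | succ m ih =>
    have h4 : kk (fun l => b (i + l)) (m + 2) = kk (fun l => b (i + l)) m +
      2 * b (i + m + 1) * kk (fun l => b (i + l)) (m + 1) := rfl
    have e : kk (fun l => b (i + l)) (m + 1) * BB b i (m + 1 + 1) -
        kk (fun l => b (i + l)) (m + 1 + 1) * BB b i (m + 1) =
        -(kk (fun l => b (i + l)) m * BB b i (m + 1) -
          kk (fun l => b (i + l)) (m + 1) * BB b i m) := by
      rw [BB_two, h4]
      ring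
    rw [e, abs_neg, ih]

private theorem wronsk_grow {b : ℕ → ℤ} {i M : ℕ} (hb : ∀ l, 1 ≤ l → l < M → b (i + l) ≠ 0) :
    ∀ k m : ℕ, m + k + 1 = M →
      |kk (fun l => b (i + l)) (m + 1) * BB b i M - kk (fun l => b (i + l)) M * BB b i (m + 1)| <
      |kk (fun l => b (i + l)) m * BB b i M - kk (fun l => b (i + l)) M * BB b i m| := by
  intro k
  induction k with
  | zero =>
    intro m hm
    have hM : M = m + 1 := by omega
    subst hM
    rw [wronsk]
    have : kk (fun l => b (i + l)) (m + 1) * BB b i (m + 1) -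
      kk (fun l => b (i + l)) (m + 1) * BB b i (m + 1) = 0 := by ring
    rw [this]
    norm_num
  | succ k ih =>
    intro m hm
    have h1 := ih (m + 1) (by omega)
    have hc : b (i + m + 1) ≠ 0 := by
      have := hb (m + 1) (by omega) (by omega)
      rwa [← add_assoc] at this
    have h4 : kk (fun l => b (i + l)) (m + 1 + 1) = kk (fun l => b (i + l)) m +
      2 * b (i + m + 1) * kk (fun l => b (i + l)) (m + 1) := rfl
    have h5 : BB b i (m + 1 + 1) = BB b i m + 2 * b (i + m + 1) * BB b i (m + 1) := rfl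
    have h6 := grow_step (c := -b (i + m + 1)) (neg_ne_zero.2 hc) h1
    refine lt_of_lt_of_eq h6 ?_
    congr 1
    rw [h4, h5]
    ring

theorem wronsk_ne {b : ℕ → ℤ} {i M : ℕ} (hb : ∀ l, 1 ≤ l → l < M → b (i + l) ≠ 0) {m : ℕ}
    (hm : m < M) :
    kk (fun l => b (i + l)) m * BB b i M - kk (fun l => b (i + l)) M * BB b i m ≠ 0 := by
  have h := wronsk_grow hb (M - m - 1) m (by omega)
  intro h0
  rw [h0, abs_zero] at h
  exact absurd h (not_lt.2 (abs_nonneg _))

end Pool.Agent.TBK
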