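import Pool.Agent.TBK.Chain

/-!
# TBK/Act: the action of the powers of `M(w)` on pairs

`M(w)` has determinant one, so its integer powers make sense; `act w b v` is `M(w)^b v`.
All proofs: `act_add` from `zpow_add` and the entries of a product of 2 x 2 matrices
(`Matrix.SpecialLinearGroup.coe_mul`, `Matrix.mul_apply`, `Fin.sum_univ_two`), then everything
else by induction on `b` (`Int.induction_on`) using `act_add`, `act_one`, `act_neg_one`.
`act_map`: `SpecialLinearGroup.map f` is a group homomorphism sending `MM w` to `MM (f w)`, or by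
induction. `act_form`: the form `q^2 + w u q - u^2` is preserved by `act w 1` and `act w (-1)`.
-/

set_option autoImplicit false

namespace Pool.Agent.TBK

open Pool.Agent.DFJ Matrix

variable {R : Type*} [CommRing R]

theorem act_zero (w : R) (v : R × R) : act w 0 v = v := by
  simp [act]

theorem act_add (w : R) (b c : ℤ) (v : R × R) : act w (b + c) v = act w b (act w c v) := by
  have h : ∀ i j, (MM w ^ (b + c)).val i j =
      (MM w ^ b).val i 0 * (MM w ^ c).val 0 j + (MM w ^ b).val i 1 * (MM w ^ c).val 1 j := by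
    intro i j
    have e : (MM w ^ (b + c)).val = (MM w ^ b).val * (MM w ^ c).val := by
      rw [_root_.zpow_add]; rfl
    rw [e, mul_apply, Fin.sum_univ_two]
  unfold act
  rw [h, h, h, h]
  ext <;> simp <;> ring

theorem act_one (w u q : R) : act w 1 (u, q) = (u - w * q, -w * u + (1 + w ^ 2) * q) := by
  unfold act
  rw [_root_.zpow_one]
  ext <;> simp [MM] <;> ring

theorem act_neg_one (w u q : R) : act w (-1) (u, q) = ((1 + w ^ 2) * u + w * q, w * u + q) := by
  have h1 := act_add w (-1) 1 ((1 + w ^ 2) * u + w * q, w * u + q)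
  have h2 := act_add w 1 (-1) (u, q)
  have h3 : act w 1 ((1 + w ^ 2) * u + w * q, w * u + q) = (u, q) := by
    rw [act_one]
    ext <;> simp <;> ring
  rw [h3] at h1
  rw [← h1]
  have : (-1 + 1 : ℤ) = 0 := by norm_num
  rw [this, act_zero]

/-- Induction for the action. -/
theorem act_induction {w : R} {v : R × R} {P : R × R → Prop} (h0 : P v)
    (h1 : ∀ v, P v → P (act w 1 v)) (h2 : ∀ v, P v → P (act w (-1) v)) (b : ℤ) :
    P (act w b v) := by
  induction b using Int.induction_on with
  | zero => rwa [act_zero]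
  | succ k ih =>
    rw [add_comm, act_add]
    exact h1 _ ih
  | pred k ih =>
    have e : (-(k : ℤ) - 1) = -1 + -(k : ℤ) := by ring
    rw [e, act_add]
    exact h2 _ ih

theorem act_map {S : Type*} [CommRing S] (f : R →+* S) (w : R) (b : ℤ) (v : R × R) :
    act (f w) b (f v.1, f v.2) = (f (act w b v).1, f (act w b v).2) := by
  have h1 : ∀ v : R × R, act (f w) 1 (f v.1, f v.2) = (f (act w 1 v).1, f (act w 1 v).2) := by
    intro v
    rw [act_one, act_one w v.1 v.2]
    ext <;> simp
  have h2 : ∀ v : R × R, act (f w) (-1) (f v.1, f v.2) =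
      (f (act w (-1) v).1, f (act w (-1) v).2) := by
    intro v
    rw [act_neg_one, act_neg_one w v.1 v.2]
    ext <;> simp
  induction b using Int.induction_on with
  | zero => rw [act_zero, act_zero]
  | succ k ih =>
    rw [add_comm, act_add, act_add, ih, h1]
  | pred k ih =>
    have e : (-(k : ℤ) - 1) = -1 + -(k : ℤ) := by ring
    rw [e, act_add, act_add, ih, h2]

theorem act_sign {ε : R} (hε : ε ^ 2 = 1) (w : R) (b : ℤ) (u q : R) :
    act (ε * w) b (u, ε * q) = ((act w b (u, q)).1, ε * (act w b (u, q)).2) := by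
  have h1 : ∀ v : R × R, act (ε * w) 1 (v.1, ε * v.2) = ((act w 1 v).1, ε * (act w 1 v).2) := by
    intro v
    rw [act_one, act_one w v.1 v.2]
    ext
    · simp only []; linear_combination (-w * v.2) * hε
    · simp; linear_combination (ε * w ^ 2 * v.2) * hε
  have h2 : ∀ v : R × R, act (ε * w) (-1) (v.1, ε * v.2) =
      ((act w (-1) v).1, ε * (act w (-1) v).2) := by
    intro v
    rw [act_neg_one, act_neg_one w v.1 v.2]
    ext
    · simp; linear_combination (w * v.2 + w ^ 2 * v.1) * hε
    · simp; ring
  induction b using Int.induction_on with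
  | zero => rw [act_zero, act_zero]
  | succ k ih =>
    rw [add_comm, act_add, act_add, ih, h1]
  | pred k ih =>
    have e : (-(k : ℤ) - 1) = -1 + -(k : ℤ) := by ring
    rw [e, act_add, act_add, ih, h2]

theorem act_smul (c w : R) (b : ℤ) (v : R × R) :
    act w b (c * v.1, c * v.2) = (c * (act w b v).1, c * (act w b v).2) := by
  unfold act
  ext <;> simp <;> ring

theorem act_form (w : R) (b : ℤ) (v : R × R) :
    (act w b v).2 ^ 2 + w * (act w b v).1 * (act w b v).2 - (act w b v).1 ^ 2 =
      v.2 ^ 2 + w * v.1 * v.2 - v.1 ^ 2 := by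
  apply act_induction (P := fun x => x.2 ^ 2 + w * x.1 * x.2 - x.1 ^ 2 =
      v.2 ^ 2 + w * v.1 * v.2 - v.1 ^ 2) rfl
  · intro x hx
    rw [← hx, act_one w x.1 x.2]
    ring
  · intro x hx
    rw [← hx, act_neg_one w x.1 x.2]
    ring

theorem act_w0 (b : ℤ) (v : R × R) : act (0 : R) b v = v := by
  apply act_induction (P := fun x => x = v) rfl
  · rintro x rfl
    rw [act_one (0 : R) x.1 x.2]
    ext <;> simp
  · rintro x rfl
    rw [act_neg_one (0 : R) x.1 x.2]
    ext <;> simp

theorem act_inj {w : R} {b : ℤ} {v v' : R × R} (h : act w b v = act w b v') : v = v' := by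
  have h1 := congrArg (act w (-b)) h
  rwa [← act_add, ← act_add, neg_add_cancel, act_zero, act_zero] at h1

end Pool.Agent.TBK
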