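import Pool.Agent.DFJ.MatSys
import Pool.Agent.TBK.Act

/-!
# TBK/MatA: one region, matrix form

`T : SLC` is parabolic, `tr T = 2 κ`, `κ² = 1`, `E = nl κ T` is nilpotent (`nl_nil`, DFJ/MatSys),
`mx T = κ (1 + E)` (`mx_eq_nl`), `mx T⁻¹ = κ (1 - E)` (`mx_inv_nl`), `E * E = 0` (`nl_sq`),
`E * M * E = trace (M * E) • E` (`Nil2.sandwich`), and `cc A = trace (mx A * E)`, with
`cc A⁻¹ = - cc A` (`c_inv`), `cc 1 = 0`.

`c_even`: `X = T h T⁻¹ h⁻¹`, `mx X = (1 + E) h (1 - E) h⁻¹` (write `h` for `mx h`), so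
`mx (X h') = (1 + E) (h' - h E h⁻¹ h')`. Multiply by `E` on the right and take traces, cyclically:
`E (1 + E) = E`, so `cc (X h') = trace (E h') - trace (E h E h⁻¹ h') = cc h' - cc h * cc (h⁻¹ h')`,
because `E h E = trace (h E) • E`. Similarly
`mx (h⁻¹ X h') = h⁻¹ (1 + E) h (1 - E) h⁻¹ h' = (1 - E) h⁻¹ h' + h⁻¹ E h (1 - E) h⁻¹ h'`, the
trace against `E` is `cc (h⁻¹ h') + cc h⁻¹ * trace (E h (1 - E) h⁻¹ h')
= cc (h⁻¹ h') - cc h * (cc h' - cc h * cc (h⁻¹ h'))`.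
`c_odd`: `X = h T⁻¹ h⁻¹ T`, `mx X = h (1 - E) h⁻¹ (1 + E)`:
`cc (X h') = trace (E (1+E) h') - trace (E h E h⁻¹ (1 + E) h') =
cc h' - cc h * (cc (h⁻¹ h') + cc h⁻¹ * cc h')`;
`cc (h⁻¹ X h') = trace (E (1 - E) h⁻¹ (1 + E) h') = cc (h⁻¹ h') + cc h⁻¹ * cc h'`.
(Alternatively a brute force computation with the four entries of `E, h, h'`.)

`act_even`, `act_odd`: induction on `m` (`Int.induction_on`), using `act_one`/`act_neg_one` and
`c_even`/`c_odd` for `h' ↦ X^m h'`; for the downward step use `X (X^{m-1} h') = X^m h'` and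
`act_add`.
-/

set_option autoImplicit false

namespace Pool.Agent.TBK

open Pool.Agent.DFJ Matrix

/-- `trace (A E)` -/
def cc (κ : ℂ) (T A : SLC) : ℂ := (mx A * nl κ T).trace

variable {κ : ℂ} {T : SLC}

theorem cc_inv (hκ : κ ^ 2 = 1) (hT : tr T = 2 * κ) (A : SLC) : cc κ T A⁻¹ = -cc κ T A :=
  c_inv (nl_nil hκ hT) A

theorem cc_one (hκ : κ ^ 2 = 1) (hT : tr T = 2 * κ) : cc κ T 1 = 0 := by
  unfold cc
  rw [mx_one, one_mul, (nl_nil hκ hT).tr0]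

private theorem tr_EBE {E : Matrix (Fin 2) (Fin 2) ℂ} (hE : Nil2 E)
    (B : Matrix (Fin 2) (Fin 2) ℂ) : (E * B * E).trace = 0 := by
  rw [hE.sandwich, trace_smul, hE.tr0, smul_zero]

private theorem tr_AEBE {E : Matrix (Fin 2) (Fin 2) ℂ} (hE : Nil2 E)
    (A B : Matrix (Fin 2) (Fin 2) ℂ) : (A * E * B * E).trace = (A * E).trace * (B * E).trace := by
  have h1 : A * E * B * E = A * (E * B * E) := by noncomm_ring
  rw [h1, hE.sandwich, mul_smul_comm, trace_smul, smul_eq_mul, mul_comm]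

private theorem tr_AEBECE {E : Matrix (Fin 2) (Fin 2) ℂ} (hE : Nil2 E)
    (A B C : Matrix (Fin 2) (Fin 2) ℂ) :
    (A * E * B * E * C * E).trace = (A * E).trace * (B * E).trace * (C * E).trace := by
  rw [show A * E * B * E * C * E = (A * E * B) * E * C * E by noncomm_ring, tr_AEBE hE,
    tr_AEBE hE]

private theorem tr_EBECE {E : Matrix (Fin 2) (Fin 2) ℂ} (hE : Nil2 E)
    (B C : Matrix (Fin 2) (Fin 2) ℂ) : (E * B * E * C * E).trace = 0 := by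
  rw [show E * B * E * C * E = E * (B * E * C) * E by noncomm_ring, tr_EBE hE]

private theorem mx_hhi (h : SLC) : mx h * mx h⁻¹ = 1 := by
  rw [← mx_mul, mul_inv_cancel, mx_one]

private theorem mx_hih (h : SLC) : mx h⁻¹ * mx h = 1 := by
  rw [← mx_mul, inv_mul_cancel, mx_one]

private theorem mx_Xe (hκ : κ ^ 2 = 1) (hT : tr T = 2 * κ) (h : SLC) :
    mx (T * h * T⁻¹ * h⁻¹) = (1 + nl κ T) * (1 - mx h * nl κ T * mx h⁻¹) := by
  rw [mx_mul, mx_mul, mx_mul, mx_inv_nl hκ hT]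
  conv_lhs => rw [mx_eq_nl hκ T]
  simp only [mul_smul_comm, smul_mul_assoc, smul_smul, ← pow_two, hκ, one_smul]
  have e := mx_hhi h
  calc (1 + nl κ T) * mx h * (1 - nl κ T) * mx h⁻¹ =
      (1 + nl κ T) * (mx h * mx h⁻¹ - mx h * nl κ T * mx h⁻¹) := by noncomm_ring
    _ = _ := by rw [e]

private theorem mx_Xo (hκ : κ ^ 2 = 1) (hT : tr T = 2 * κ) (h : SLC) :
    mx (h * T⁻¹ * h⁻¹ * T) = (1 - mx h * nl κ T * mx h⁻¹) * (1 + nl κ T) := by
  rw [mx_mul, mx_mul, mx_mul, mx_inv_nl hκ hT]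
  conv_lhs => rw [mx_eq_nl hκ T]
  simp only [mul_smul_comm, smul_mul_assoc, smul_smul, ← pow_two, hκ, one_smul]
  have e := mx_hhi h
  calc mx h * (1 - nl κ T) * mx h⁻¹ * (1 + nl κ T) =
      (mx h * mx h⁻¹ - mx h * nl κ T * mx h⁻¹) * (1 + nl κ T) := by noncomm_ring
    _ = _ := by rw [e]

theorem c_even (hκ : κ ^ 2 = 1) (hT : tr T = 2 * κ) (h h' : SLC) :
    cc κ T (T * h * T⁻¹ * h⁻¹ * h') = cc κ T h' - cc κ T h * cc κ T (h⁻¹ * h') ∧
      cc κ T (h⁻¹ * (T * h * T⁻¹ * h⁻¹ * h')) =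
        -cc κ T h * cc κ T h' + (1 + cc κ T h ^ 2) * cc κ T (h⁻¹ * h') := by
  have hE := nl_nil hκ hT
  have hi : (mx h⁻¹ * nl κ T).trace = -(mx h * nl κ T).trace := c_inv hE h
  have e2 := mx_hih h
  unfold cc
  rw [mx_mul (T * h * T⁻¹ * h⁻¹) h', mx_mul h⁻¹ (T * h * T⁻¹ * h⁻¹ * h'),
    mx_mul (T * h * T⁻¹ * h⁻¹) h', mx_Xe hκ hT, mx_mul h⁻¹ h']
  generalize mx h = H at *
  generalize mx h⁻¹ = Hi at *
  generalize mx h' = H' at *
  generalize nl κ T = E at *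
  constructor
  · have h1 : (1 + E) * (1 - H * E * Hi) * H' * E = H' * E - H * E * (Hi * H') * E +
        E * H' * E - E * H * E * (Hi * H') * E := by noncomm_ring
    rw [h1, trace_sub, trace_add, trace_sub, tr_AEBE hE, tr_EBE hE, tr_EBECE hE]
    ring
  · have h1 : Hi * ((1 + E) * (1 - H * E * Hi) * H') * E =
        Hi * H' * E + Hi * E * H' * E - (Hi * H) * E * (Hi * H') * E -
          Hi * E * H * E * (Hi * H') * E := by noncomm_ring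
    rw [h1, e2, one_mul, trace_sub, trace_sub, trace_add, tr_AEBE hE, tr_EBE hE,
      tr_AEBECE hE, hi]
    ring

theorem c_odd (hκ : κ ^ 2 = 1) (hT : tr T = 2 * κ) (h h' : SLC) :
    cc κ T (h * T⁻¹ * h⁻¹ * T * h') =
        (1 + cc κ T h ^ 2) * cc κ T h' - cc κ T h * cc κ T (h⁻¹ * h') ∧
      cc κ T (h⁻¹ * (h * T⁻¹ * h⁻¹ * T * h')) = cc κ T (h⁻¹ * h') - cc κ T h * cc κ T h' := by
  have hE := nl_nil hκ hT
  have hi : (mx h⁻¹ * nl κ T).trace = -(mx h * nl κ T).trace := c_inv hE h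
  have e2 := mx_hih h
  unfold cc
  rw [mx_mul (h * T⁻¹ * h⁻¹ * T) h', mx_mul h⁻¹ (h * T⁻¹ * h⁻¹ * T * h'),
    mx_mul (h * T⁻¹ * h⁻¹ * T) h', mx_Xo hκ hT, mx_mul h⁻¹ h']
  generalize mx h = H at *
  generalize mx h⁻¹ = Hi at *
  generalize mx h' = H' at *
  generalize nl κ T = E at *
  constructor
  · have h1 : (1 - H * E * Hi) * (1 + E) * H' * E = H' * E - H * E * (Hi * H') * E +
        E * H' * E - H * E * Hi * E * H' * E := by noncomm_ring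
    rw [h1, trace_sub, trace_add, trace_sub, tr_AEBE hE, tr_EBE hE, tr_AEBECE hE, hi]
    ring
  · have h1 : Hi * ((1 - H * E * Hi) * (1 + E) * H') * E =
        Hi * H' * E + Hi * E * H' * E - (Hi * H) * E * (Hi * H') * E -
          (Hi * H) * E * Hi * E * H' * E := by noncomm_ring
    rw [h1, e2, one_mul, trace_sub, trace_sub, trace_add, tr_AEBE hE, tr_EBE hE,
      tr_EBECE hE, hi]
    ring

private theorem even_step (hκ : κ ^ 2 = 1) (hT : tr T = 2 * κ) (h h' : SLC) :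
    act (cc κ T h) 1 (cc κ T h', cc κ T (h⁻¹ * h')) =
      (cc κ T (T * h * T⁻¹ * h⁻¹ * h'), cc κ T (h⁻¹ * (T * h * T⁻¹ * h⁻¹ * h'))) := by
  obtain ⟨h1, h2⟩ := c_even hκ hT h h'
  rw [act_one, h1, h2]

private theorem odd_step (hκ : κ ^ 2 = 1) (hT : tr T = 2 * κ) (h h' : SLC) :
    act (cc κ T h) (-1) (cc κ T h', -cc κ T (h⁻¹ * h')) =
      (cc κ T (h * T⁻¹ * h⁻¹ * T * h'), -cc κ T (h⁻¹ * (h * T⁻¹ * h⁻¹ * T * h'))) := by
  obtain ⟨h1, h2⟩ := c_odd hκ hT h h'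
  rw [act_neg_one, h1, h2]
  ext <;> simp <;> ring

theorem act_even (hκ : κ ^ 2 = 1) (hT : tr T = 2 * κ) (h h' : SLC) (m : ℤ) :
    act (cc κ T h) m (cc κ T h', cc κ T (h⁻¹ * h')) =
      (cc κ T ((T * h * T⁻¹ * h⁻¹) ^ m * h'),
        cc κ T (h⁻¹ * ((T * h * T⁻¹ * h⁻¹) ^ m * h'))) := by
  induction m using Int.induction_on with
  | zero => rw [act_zero, _root_.zpow_zero, one_mul]
  | succ k ih =>
    rw [add_comm, act_add, ih, even_step hκ hT, _root_.zpow_add, _root_.zpow_one,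
      mul_assoc (T * h * T⁻¹ * h⁻¹) _ h']
  | pred k ih =>
    have e : (-(k : ℤ) - 1) = -1 + -(k : ℤ) := by ring
    have e2 : (T * h * T⁻¹ * h⁻¹) ^ (-(k : ℤ)) * h' =
        T * h * T⁻¹ * h⁻¹ * ((T * h * T⁻¹ * h⁻¹) ^ (-(k : ℤ) - 1) * h') := by
      rw [← mul_assoc, ← _root_.zpow_one_add]
      congr 2
      ring
    have h3 := even_step hκ hT h ((T * h * T⁻¹ * h⁻¹) ^ (-(k : ℤ) - 1) * h')
    rw [← e2] at h3
    conv_lhs => rw [e]
    rw [act_add, ih, ← h3, ← act_add]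
    rw [show (-1 + 1 : ℤ) = 0 by norm_num, act_zero]

theorem act_odd (hκ : κ ^ 2 = 1) (hT : tr T = 2 * κ) (h h' : SLC) (m : ℤ) :
    act (cc κ T h) (-m) (cc κ T h', -cc κ T (h⁻¹ * h')) =
      (cc κ T ((h * T⁻¹ * h⁻¹ * T) ^ m * h'),
        -cc κ T (h⁻¹ * ((h * T⁻¹ * h⁻¹ * T) ^ m * h'))) := by
  induction m using Int.induction_on with
  | zero => rw [neg_zero, act_zero, _root_.zpow_zero, one_mul]
  | succ k ih =>
    rw [neg_add, add_comm (-(k : ℤ)) (-1), act_add, ih, odd_step hκ hT, add_comm (k : ℤ) 1,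
      _root_.zpow_add, _root_.zpow_one, mul_assoc (h * T⁻¹ * h⁻¹ * T) _ h']
  | pred k ih =>
    have e : -(-(k : ℤ) - 1) = 1 + -(-(k : ℤ)) := by ring
    have e2 : (h * T⁻¹ * h⁻¹ * T) ^ (-(k : ℤ)) * h' =
        h * T⁻¹ * h⁻¹ * T * ((h * T⁻¹ * h⁻¹ * T) ^ (-(k : ℤ) - 1) * h') := by
      rw [← mul_assoc, ← _root_.zpow_one_add]
      congr 2
      ring
    have h3 := odd_step hκ hT h ((h * T⁻¹ * h⁻¹ * T) ^ (-(k : ℤ) - 1) * h')
    rw [← e2] at h3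
    rw [e, act_add, ih, ← h3, ← act_add]
    rw [show (1 + -1 : ℤ) = 0 by norm_num, act_zero]

end Pool.Agent.TBK
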