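import Pool.Agent.TBK.Defs
import Pool.Agent.TBK.MatA
import Pool.Agent.TBK.ChainL

/-!
# TBK/Mats: a parabolic representation gives a closed chain

`hs x t a H`: `h_0 = 1`, `h_1 = H`, `h_{j+2} = X_{j+1}^{a_{j+1}} h_j`.
* `hs_even`: `X_j = t h_j t⁻¹ h_j⁻¹` for even `j`: induction; for `j + 2` (`j` even, so
  `Xw (j+2) = t Y t⁻¹ X_j Y⁻¹`, `Y = X_{j+1}^a`): insert `X_j = t h_j t⁻¹ h_j⁻¹`, `group`.
* `hs_mul`: `hs x t a H j = hs x t a 1 j * H` for odd `j`. So with `H = (hs x t a 1 (n+1))⁻¹`,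
  `n` even, `h_{n+1} = 1`.
* `hs_odd`: if `h_{n+1} = 1` and `X_{n+1} = 1`, `n` even, then `X_j = h_j t⁻¹ h_j⁻¹ t` for odd
  `j ≤ n + 1`: downward induction; if it holds for `j + 2` (`j` odd, so
  `Xw (j+2) = Y X_j t⁻¹ Y⁻¹ t`), then `X_j = Y⁻¹ X_{j+2} t⁻¹ Y t` and `h_{j+2} = Y h_j`, `group`.
* `mats`: `κ = tr t / 2`, `κ² = 1`; `w = cc κ t H`. By induction on `i ≤ n`:
  `Wc (sg a) w i = cc h_i`, `Wc (sg a) w (i+1) = cc h_{i+1}` and
  `Qc (sg a) w i = cc (h_i⁻¹ h_{i+1})` for even `i`, `= cc (h_{i+1}⁻¹ h_i)` for odd `i`.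
  Step (`act_succ`), center `h = h_{i+1}`, `h' = h_i`: if `i + 1` is even, `hs_even` and
  `act_even` with `m = a_{i+1} = sg a (i+1)`; if `i + 1` is odd, `hs_odd` and `act_odd` with
  `m = a_{i+1}`, `-m = sg a (i+1)`, using `cc (h_i⁻¹ h_{i+1}) = - cc (h_{i+1}⁻¹ h_i)` (`cc_inv`).
  In both cases `X_{i+1}^{a_{i+1}} h_i = h_{i+2}`.
  So `W_{n+1} = cc h_{n+1} = cc 1 = 0`. Traces: `tr X_j = cc h_j ^ 2 + 2` by `tr_comm1`
  (`tr (g * A⁻¹ * g⁻¹ * A)`; for even `j` first use that the trace is invariant under conjugation).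
  `w ≠ 0`: if `w = cc H = 0`, then `x = X_1 = H t⁻¹ H⁻¹ t` (`hs_odd`, `j = 1`); the nilpotent
  matrices `E = nl κ t` and `F = mx H * E * mx H⁻¹` satisfy `trace (F E) = - cc H ^ 2 = 0`
  (`tr_gEgE`), so they commute (`comm_of_tr`; `F` is `Nil2`), and `mx x = (1 - F)(1 + E)`
  (`mx_comm1`) commutes with `mx t = κ (1 + E)`: contradiction to `x t ≠ t x`.
-/

set_option autoImplicit false

namespace Pool.Agent.TBK

open Pool.Agent.DFJ Matrix

/-- `(-1)^j a_j` -/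
def sg (a : ℕ → ℤ) (j : ℕ) : ℤ := (-1) ^ j * a j

/-- the conjugators -/
def hs {G : Type*} [Group G] (x t : G) (a : ℕ → ℤ) (H : G) : ℕ → G
  | 0 => 1
  | 1 => H
  | j + 2 => Xw x t a (j + 1) ^ a (j + 1) * hs x t a H j

theorem sg_natAbs (a : ℕ → ℤ) (j : ℕ) : (sg a j).natAbs = (a j).natAbs := by
  unfold sg
  rw [Int.natAbs_mul, Int.natAbs_pow, Int.natAbs_neg, Int.natAbs_one, one_pow, one_mul]

theorem hs_succ2 {G : Type*} [Group G] (x t : G) (a : ℕ → ℤ) (H : G) (j : ℕ) :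
    hs x t a H (j + 2) = Xw x t a (j + 1) ^ a (j + 1) * hs x t a H j := rfl

theorem mXw_even {G : Type*} [Group G] (x t : G) (a : ℕ → ℤ) {j : ℕ} (hj : Even j) :
    Xw x t a (j + 2) = t * Xw x t a (j + 1) ^ a (j + 1) * t⁻¹ * Xw x t a j *
      (Xw x t a (j + 1) ^ a (j + 1))⁻¹ := by
  conv_lhs => rw [Xw]
  rw [if_pos hj]

theorem mXw_odd {G : Type*} [Group G] (x t : G) (a : ℕ → ℤ) {j : ℕ} (hj : Odd j) :
    Xw x t a (j + 2) = Xw x t a (j + 1) ^ a (j + 1) * Xw x t a j * t⁻¹ *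
      (Xw x t a (j + 1) ^ a (j + 1))⁻¹ * t := by
  conv_lhs => rw [Xw]
  rw [if_neg (Nat.not_even_iff_odd.2 hj)]

theorem hs_even {G : Type*} [Group G] (x t : G) (a : ℕ → ℤ) (H : G) {j : ℕ} (hj : Even j) :
    Xw x t a j = t * hs x t a H j * t⁻¹ * (hs x t a H j)⁻¹ := by
  obtain ⟨k, rfl⟩ := hj
  induction k with
  | zero => simp [Xw, hs]
  | succ k ih =>
    have e : k + 1 + (k + 1) = (k + k) + 2 := by ring
    rw [e, mXw_even x t a ⟨k, rfl⟩, hs_succ2]
    generalize Xw x t a (k + k + 1) ^ a (k + k + 1) = Y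
    rw [ih]
    group

theorem hs_mul {G : Type*} [Group G] (x t : G) (a : ℕ → ℤ) (H : G) {j : ℕ} (hj : Odd j) :
    hs x t a H j = hs x t a 1 j * H := by
  obtain ⟨k, rfl⟩ := hj
  induction k with
  | zero => simp [hs]
  | succ k ih =>
    have e : 2 * (k + 1) + 1 = (2 * k + 1) + 2 := by ring
    rw [e, hs_succ2, hs_succ2, ih, mul_assoc]

theorem hs_odd {G : Type*} [Group G] {x t : G} {a : ℕ → ℤ} {H : G} {n : ℕ} (hn : Even n)
    (hX : Xw x t a (n + 1) = 1) (hH : hs x t a H (n + 1) = 1) {j : ℕ} (hj : Odd j)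
    (hjn : j ≤ n + 1) :
    Xw x t a j = hs x t a H j * t⁻¹ * (hs x t a H j)⁻¹ * t := by
  obtain ⟨k, hk⟩ : ∃ k, n + 1 = j + 2 * k := by
    obtain ⟨u, hu⟩ := hn
    obtain ⟨v, hv⟩ := hj
    exact ⟨u - v, by omega⟩
  clear hjn
  induction k generalizing j with
  | zero =>
    rw [mul_zero, add_zero] at hk
    rw [← hk, hX, hH]
    simp
  | succ k ih =>
    have h1 := ih (j := j + 2) (by obtain ⟨v, hv⟩ := hj; exact ⟨v + 1, by omega⟩) (by omega)
    rw [mXw_odd x t a hj, hs_succ2] at h1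
    generalize Xw x t a (j + 1) ^ a (j + 1) = Y at h1
    generalize Xw x t a j = X at h1 ⊢
    generalize hs x t a H j = h at h1 ⊢
    have h2 : X = Y⁻¹ * (Y * X * t⁻¹ * Y⁻¹ * t) * t⁻¹ * Y * t := by group
    rw [h2, h1]
    group

theorem w_ne {κ : ℂ} {t x H : SLC} (hκ : κ ^ 2 = 1) (hT : tr t = 2 * κ)
    (hne : x * t ≠ t * x) (hx : x = H * t⁻¹ * H⁻¹ * t) : cc κ t H ≠ 0 := by
  intro h0
  apply hne
  have hE := nl_nil hκ hT
  have hdet : (mx H).det * (mx H⁻¹).det = 1 := by rw [mx_det, mx_det, one_mul]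
  have hF : Nil2 (mx H * nl κ t * mx H⁻¹) :=
    ⟨tr_conj0 hκ hT H, by rw [det_mul, det_mul, hE.det0, mul_zero, zero_mul]⟩
  have h1 : (mx H * nl κ t * mx H⁻¹ * nl κ t).trace = 0 := by
    rw [tr_gEgE hE]
    change (mx H * nl κ t).trace = 0 at h0
    rw [h0]
    simp
  have h2 := comm_of_tr hE hF h1
  have h3 := mx_comm1 hκ hT H
  rw [← hx] at h3
  have h4 := mx_eq_nl hκ t
  apply Subtype.ext
  change mx (x * t) = mx (t * x)
  rw [mx_mul, mx_mul, h4, h3]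
  generalize mx H * nl κ t * mx H⁻¹ = F at h2
  generalize nl κ t = E at h2
  rw [mul_smul_comm, smul_mul_assoc]
  congr 1
  rw [← h2]
  have h5 : (1 + E - F - E * F) * (1 + E) - (1 + E) * (1 + E - F - E * F) =
      (E * F - F * E) + E * (E * F - F * E) := by
    noncomm_ring
  have h6 : (1 + E - F - E * F) * (1 + E) - (1 + E) * (1 + E - F - E * F) = 0 := by
    rw [h5, h2]
    simp
  exact sub_eq_zero.1 h6

theorem chain_cc {κ : ℂ} {x t : SLC} {a : ℕ → ℤ} {n : ℕ} {H : SLC} (hn : Even n)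
    (hX : Xw x t a (n + 1) = 1) (hH : hs x t a H (n + 1) = 1)
    (hκ : κ ^ 2 = 1) (hT : tr t = 2 * κ) (i : ℕ) (hi : i ≤ n) :
    Wc (sg a) (cc κ t H) i = cc κ t (hs x t a H i) ∧
      Wc (sg a) (cc κ t H) (i + 1) = cc κ t (hs x t a H (i + 1)) ∧
      Qc (sg a) (cc κ t H) i = if Even i then cc κ t ((hs x t a H i)⁻¹ * hs x t a H (i + 1))
        else cc κ t ((hs x t a H (i + 1))⁻¹ * hs x t a H i) := by
  induction i with
  | zero =>
    refine ⟨?_, ?_, ?_⟩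
    · rw [W_zero, hs, cc_one hκ hT]
    · rw [zero_add, W_one, hs]
    · rw [Q_zero, if_pos Even.zero, zero_add, hs, hs, inv_one, one_mul]
  | succ i ih =>
    obtain ⟨h1, h2, h3⟩ := ih (by omega)
    have hact := act_succ (sg a) (cc κ t H) i
    rcases Nat.even_or_odd i with hi2 | hi2
    · -- `i + 1` odd
      have hodd : Odd (i + 1) := hi2.add_one
      have hX1 := hs_odd hn hX hH hodd (by omega)
      have hb : sg a (i + 1) = -a (i + 1) := by
        unfold sg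
        rw [hodd.neg_one_pow, neg_one_mul]
      rw [if_pos hi2] at h3
      have h4 : cc κ t ((hs x t a H i)⁻¹ * hs x t a H (i + 1)) =
          -cc κ t ((hs x t a H (i + 1))⁻¹ * hs x t a H i) := by
        rw [← cc_inv hκ hT]
        congr 1
        group
      rw [h4] at h3
      rw [h2, hb, h1, h3, act_odd hκ hT, ← hX1, ← hs_succ2] at hact
      have g1 := congrArg Prod.fst hact
      have g2 := congrArg Prod.snd hact
      simp only [] at g1 g2
      refine ⟨h2, g1.symm, ?_⟩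
      rw [if_neg (Nat.not_even_iff_odd.2 hodd), ← g2, ← cc_inv hκ hT]
      congr 1
      group
    · -- `i + 1` even
      have heven : Even (i + 1) := hi2.add_one
      have hX1 := hs_even x t a H heven
      have hb : sg a (i + 1) = a (i + 1) := by
        unfold sg
        rw [heven.neg_one_pow, one_mul]
      rw [if_neg (Nat.not_even_iff_odd.2 hi2)] at h3
      rw [h2, hb, h1, h3, act_even hκ hT, ← hX1, ← hs_succ2] at hact
      have g1 := congrArg Prod.fst hact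
      have g2 := congrArg Prod.snd hact
      simp only [] at g1 g2
      refine ⟨h2, g1.symm, ?_⟩
      rw [if_pos heven, ← g2]

theorem mats {x t : SLC} {a : ℕ → ℤ} {n : ℕ} (hn : Even n) (hX : Xw x t a (n + 1) = 1)
    (ht : tr t ^ 2 = 4) (hne : x * t ≠ t * x) :
    ∃ w : ℂ, w ≠ 0 ∧ Wc (sg a) w (n + 1) = 0 ∧
      ∀ j, 1 ≤ j → j ≤ n → tr (Xw x t a j) = Wc (sg a) w j ^ 2 + 2 := by
  set κ : ℂ := tr t / 2 with hκd
  have hκ : κ ^ 2 = 1 := by
    rw [hκd, div_pow, ht]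
    norm_num
  have hT : tr t = 2 * κ := by
    rw [hκd]
    ring
  set H : SLC := (hs x t a 1 (n + 1))⁻¹ with hHd
  have hH : hs x t a H (n + 1) = 1 := by
    rw [hs_mul x t a H hn.add_one, hHd, mul_inv_cancel]
  refine ⟨cc κ t H, ?_, ?_, ?_⟩
  · apply w_ne hκ hT hne
    have h1 := hs_odd hn hX hH (j := 1) odd_one (by omega)
    exact h1
  · rw [(chain_cc hn hX hH hκ hT n le_rfl).2.1, hH, cc_one hκ hT]
  · intro j hj1 hj2
    rw [(chain_cc hn hX hH hκ hT j hj2).1]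
    rcases Nat.even_or_odd j with hj | hj
    · rw [hs_even x t a H hj]
      have h1 := tr_comm1 hκ hT (hs x t a H j)
      unfold cc
      rw [← h1]
      unfold tr
      have e1 : t * hs x t a H j * t⁻¹ * (hs x t a H j)⁻¹ =
          t * (hs x t a H j * t⁻¹ * (hs x t a H j)⁻¹) := by group
      rw [e1, mx_mul, trace_mul_comm, ← mx_mul]
    · rw [hs_odd hn hX hH hj (by omega)]
      exact tr_comm1 hκ hT (hs x t a H j)

end Pool.Agent.TBK
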