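import Pool.Agent.TBK.OkW

/-!
# TBK/DegB: the degree of `w` is bounded by the number of possible reductions

Let `K = AlgebraicClosure (ZMod 2)`, `f = minpoly ℤ w` (monic), `rd f` its reduction, separable
(`h.sep`) of the same degree. `rd f` has exactly `natDegree f` distinct roots in `K`
(`Polynomial.card_rootSet_eq_natDegree` with `IsAlgClosed.splits`, or
`nodup_roots` and `splits_iff_card_roots`). Every root `z` lies in `S`: for `G ∈ ℤ[X]` with
`aeval w G = 0` we have `f ∣ G` (`minpoly.isIntegrallyClosed_dvd`), hence `aeval z G = 0`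
(`K` is a ℤ-algebra; `aeval z G = aeval z (rd G)`). Apply this to
`G = Wc b X (n+1)` (`aeval_W`), to `G = LL b n X - 1` or `LL b n X + 1` (then `LL b n z = ± 1 = 1`
in characteristic 2; `LL_map`), and to `G = X * U - 1` where `U ∈ ℤ[X]` with `w U(w) = 1`
(`h.inv` and `exists_poly`), which gives `z ≠ 0`. So `natDegree f ≤ S.ncard`
(`Set.ncard_le_ncard`).
-/

set_option autoImplicit false

namespace Pool.Agent.TBK

open Pool.Agent.DFJ Polynomial

theorem deg_bound {n : ℕ} {b : ℕ → ℤ} {w : ℂ} (h : Cl n b w)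
    (hL : LL b n w = 1 ∨ LL b n w = -1) {S : Set (AlgebraicClosure (ZMod 2))} (hS : S.Finite)
    (hsub : ∀ z : AlgebraicClosure (ZMod 2), z ≠ 0 → Wc b z (n + 1) = 0 → LL b n z = 1 → z ∈ S) :
    (minpoly ℤ w).natDegree ≤ S.ncard := by
  have hint := h.integral
  have hmon := minpoly.monic hint
  have hsep := h.sep
  obtain ⟨w', hw'⟩ := h.inv
  obtain ⟨U, hU⟩ := exists_poly w'
  have hwU : w * aeval w U = 1 := by
    have h1 := congrArg (fun x : Zw w => (x : ℂ)) hw'
    have h2 : ((wR w * w' : Zw w) : ℂ) = w * (w' : ℂ) := rfl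
    have h3 : (w' : ℂ) = aeval w U := by rw [← hU, coe_aeval]
    rw [← h3, ← h2]
    exact h1
  have hdvd : ∀ G : ℤ[X], aeval w G = 0 → minpoly ℤ w ∣ G := fun G hG =>
    minpoly.isIntegrallyClosed_dvd hint hG
  generalize minpoly ℤ w = f at *
  have hdeg : (rd f).natDegree = f.natDegree := hmon.natDegree_map _
  have hroots : Fintype.card ((rd f).rootSet (AlgebraicClosure (ZMod 2))) = (rd f).natDegree :=
    card_rootSet_eq_natDegree hsep (IsAlgClosed.splits _)
  have hncard : ((rd f).rootSet (AlgebraicClosure (ZMod 2))).ncard = f.natDegree := by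
    rw [← hdeg, ← hroots, ← Nat.card_coe_set_eq, Nat.card_eq_fintype_card]
  rw [← hncard]
  refine Set.ncard_le_ncard ?_ hS
  intro z hz
  have hz0 : aeval z (rd f) = 0 := (mem_rootSet'.1 hz).2
  have hz1 : aeval z f = 0 := by
    rw [← hz0, aeval_def, aeval_def, eval₂_map]
    congr 1
  have key : ∀ G : ℤ[X], aeval w G = 0 → aeval z G = 0 := by
    intro G hG
    obtain ⟨H, rfl⟩ := hdvd G hG
    rw [map_mul, hz1, zero_mul]
  have h2 : (2 : AlgebraicClosure (ZMod 2)) = 0 := by
    have h3 : algebraMap (ZMod 2) (AlgebraicClosure (ZMod 2)) 2 = 2 := map_ofNat _ 2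
    rw [← h3]
    have h4 : (2 : ZMod 2) = 0 := by decide
    rw [h4, map_zero]
  have hLX : ∀ (A : Type) [CommRing A] [Algebra ℤ A] (y : A),
      aeval y (LL b n (X : ℤ[X])) = LL b n y := by
    intro A _ _ y
    have h3 := LL_map (aeval y : ℤ[X] →ₐ[ℤ] A).toRingHom b n X
    have e : (aeval y : ℤ[X] →ₐ[ℤ] A).toRingHom X = y := aeval_X y
    rw [e] at h3
    exact h3.symm
  refine hsub z ?_ ?_ ?_
  · intro h0
    have h3 := key (X * U - 1) (by rw [map_sub, map_mul, aeval_X, hwU, map_one, sub_self])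
    rw [map_sub, map_mul, aeval_X, h0, zero_mul, map_one, zero_sub, neg_eq_zero] at h3
    exact one_ne_zero h3
  · have h3 := key (Wc b X (n + 1)) (by rw [aeval_W]; exact h.close)
    rw [aeval_W] at h3
    exact h3
  · rcases hL with hL | hL
    · have h3 := key (LL b n X - 1) (by rw [map_sub, hLX, hL, map_one, sub_self])
      rw [map_sub, hLX, map_one] at h3
      exact sub_eq_zero.1 h3
    · have h3 := key (LL b n X + 1) (by rw [map_add, hLX, hL, map_one, neg_add_cancel])
      rw [map_add, hLX, map_one] at h3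
      linear_combination h3 - h2

end Pool.Agent.TBK
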