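import Pool.Agent.TBK.Two

/-!
# TBK/FinT: finiteness on one-dimensional subgroups of a two-dimensional torus

`finite_line` (one variable). For `θ ≠ 0`, `c ≠ 0`, `m ∈ ℤ`:
`gg (c θ^m) θ^|m| = eval θ (bp c m)` where
`bp c m = C c * X^(m + |m|).toNat + C c⁻¹ * X^(|m| - m).toNat ∈ F[X]`, which for `m ≠ 0` has
degree `2|m|` and is not zero. Put `P = ∏_{j ∈ s} bp (c j) (m j)`, `Q = ∏_{j ∈ t} bp (d j) (l j)`,
`B = bp e r`, `N = ∑_{j ∈ s} |m j|`, `N' = ∑_{j ∈ t} |l j|`. Multiplying the equation by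
`θ^(2N + 2N' + |r|)`: `θ^(2N' + |r|) P(θ)² = θ^(2N) Q(θ)² B(θ)`. The polynomial
`X^(2N' + |r|) P² - X^(2N) Q² B` is not zero: `P ≠ 0` and the first term has degree
`2N' + |r| + 2 deg P`, odd; the second is zero or has degree `2N + 2 deg Q + 2|r|`, even. So the
set of its roots is finite (`Polynomial.finite_setOf_isRoot` or `rootSet_finite`).

`finite_torus` (two variables). Put `e = gcd(A, B)` (as integers, `e ≠ 0` since
`A r₂ - B r₁` is odd), `A = e A'`, `B = e B'`, `u A' + v B' = 1` (Bezout). For `(η, χ)` in the set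
put `ω = χ^{A'} η^{B'}`, so `ω^e = 1`, and `θ = η^u χ^{-v}`. Then
`η = ω^v θ^{A'}`, `χ = ω^u θ^{-B'}`:
`η = η^{uA' + vB'} = η^{uA'} (ω χ^{-A'})^v`, `χ = χ^{uA'+vB'} = (ω η^{-B'})^u χ^{vB'}`.
So `χ^p η^q = ω^{up + vq} θ^{A'q - B'p}` and `e (A'q - B'p) = A q - B p`. For fixed `ω` this is
the situation of `finite_line` with `m_j = A' q_j - B' p_j ≠ 0` and `r = A' r₂ - B' r₁` odd
(`e r` is odd). There are finitely many `ω` (`ω^e = 1`, `e ≠ 0`; roots of `X^|e| - 1`), for each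
finitely many `θ`, and `(η, χ)` is determined by `(ω, θ)`: the set is contained in a finite union
of images (`Set.Finite.biUnion`, `Set.Finite.image`, `Set.Finite.subset`).
-/

set_option autoImplicit false

namespace Pool.Agent.TBK

open Polynomial

section Aux

variable {F : Type*} [Field F]

private noncomputable def bpF (c : F) (m : ℤ) : F[X] :=
  C c * X ^ (m + (m.natAbs : ℤ)).toNat + C c⁻¹ * X ^ ((m.natAbs : ℤ) - m).toNat

private theorem bpF_eval (c : F) (m : ℤ) {θ : F} (hθ : θ ≠ 0) :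
    eval θ (bpF c m) = gg (c * θ ^ m) * θ ^ m.natAbs := by
  have h1 : (0 : ℤ) ≤ m + (m.natAbs : ℤ) := by omega
  have h2 : (0 : ℤ) ≤ (m.natAbs : ℤ) - m := by omega
  have e1 : θ ^ (m + (m.natAbs : ℤ)).toNat = θ ^ m * θ ^ m.natAbs := by
    rw [← zpow_natCast θ (m + (m.natAbs : ℤ)).toNat, Int.toNat_of_nonneg h1, zpow_add₀ hθ,
      zpow_natCast]
  have e2 : θ ^ ((m.natAbs : ℤ) - m).toNat = (θ ^ m)⁻¹ * θ ^ m.natAbs := by
    rw [← zpow_natCast θ ((m.natAbs : ℤ) - m).toNat, Int.toNat_of_nonneg h2, sub_eq_neg_add,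
      zpow_add₀ hθ, zpow_natCast, zpow_neg]
  simp only [bpF, gg, eval_add, eval_mul, eval_C, eval_pow, eval_X, e1, e2, mul_inv]
  ring

private theorem bpF_deg {c : F} (hc : c ≠ 0) {m : ℤ} (hm : m ≠ 0) :
    (bpF c m).natDegree = 2 * m.natAbs := by
  have hc' : c⁻¹ ≠ 0 := inv_ne_zero hc
  rcases lt_or_gt_of_ne hm with h | h
  · have a1 : (m + (m.natAbs : ℤ)).toNat = 0 := by omega
    have a2 : ((m.natAbs : ℤ) - m).toNat = 2 * m.natAbs := by omega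
    have hpos : 0 < m.natAbs := by omega
    rw [bpF, a1, a2]
    rw [natDegree_add_eq_right_of_natDegree_lt]
    · exact natDegree_C_mul_X_pow _ _ hc'
    · rw [natDegree_C_mul_X_pow _ _ hc, natDegree_C_mul_X_pow _ _ hc']
      omega
  · have a1 : (m + (m.natAbs : ℤ)).toNat = 2 * m.natAbs := by omega
    have a2 : ((m.natAbs : ℤ) - m).toNat = 0 := by omega
    have hpos : 0 < m.natAbs := by omega
    rw [bpF, a1, a2]
    rw [natDegree_add_eq_left_of_natDegree_lt]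
    · exact natDegree_C_mul_X_pow _ _ hc
    · rw [natDegree_C_mul_X_pow _ _ hc, natDegree_C_mul_X_pow _ _ hc']
      omega

private theorem bpF_ne {c : F} (hc : c ≠ 0) {m : ℤ} (hm : m ≠ 0) : bpF c m ≠ 0 := by
  intro h
  have := bpF_deg hc hm
  rw [h, natDegree_zero] at this
  omega

private theorem prod_bpF_eval {ι : Type*} (s : Finset ι) (c : ι → F) (m : ι → ℤ) {θ : F}
    (hθ : θ ≠ 0) :
    eval θ (∏ j ∈ s, bpF (c j) (m j)) =
      (∏ j ∈ s, gg (c j * θ ^ m j)) * θ ^ (∑ j ∈ s, (m j).natAbs) := by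
  rw [eval_prod, ← Finset.prod_pow_eq_pow_sum, ← Finset.prod_mul_distrib]
  exact Finset.prod_congr rfl fun j _ => bpF_eval _ _ hθ

private theorem finite_lineF {ι : Type*} (s t : Finset ι) (c d : ι → F) (m l : ι → ℤ)
    (hc : ∀ j ∈ s, c j ≠ 0) (hm : ∀ j ∈ s, m j ≠ 0) {e : F}
    (he : e ≠ 0) {r : ℤ} (hr : Odd r) :
    {θ : F | θ ≠ 0 ∧ (∏ j ∈ s, gg (c j * θ ^ m j)) ^ 2 =
      (∏ j ∈ t, gg (d j * θ ^ l j)) ^ 2 * gg (e * θ ^ r)}.Finite := by
  classical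
  set N := ∑ j ∈ s, (m j).natAbs with hN
  set N' := ∑ j ∈ t, (l j).natAbs with hN'
  set P : F[X] := ∏ j ∈ s, bpF (c j) (m j) with hP
  set Q : F[X] := ∏ j ∈ t, bpF (d j) (l j) with hQ
  have hr0 : r ≠ 0 := by
    rintro rfl
    exact absurd hr (by decide)
  have hra : Odd r.natAbs := Int.natAbs_odd.mpr hr
  have hPne : P ≠ 0 := Finset.prod_ne_zero_iff.mpr fun j hj => bpF_ne (hc j hj) (hm j hj)
  have hBne : bpF e r ≠ 0 := bpF_ne he hr0
  have hmain : X ^ (2 * N' + r.natAbs) * P ^ 2 - X ^ (2 * N) * Q ^ 2 * bpF e r ≠ 0 := by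
    intro h0
    have h1 : X ^ (2 * N' + r.natAbs) * P ^ 2 = X ^ (2 * N) * Q ^ 2 * bpF e r :=
      sub_eq_zero.mp h0
    have hXne : (X : F[X]) ^ (2 * N' + r.natAbs) ≠ 0 := pow_ne_zero _ X_ne_zero
    have hQne : Q ≠ 0 := by
      intro hq
      rw [hq] at h1
      have : X ^ (2 * N' + r.natAbs) * P ^ 2 = 0 := by rw [h1]; simp
      exact (mul_ne_zero hXne (pow_ne_zero _ hPne)) this
    have d1 : (X ^ (2 * N' + r.natAbs) * P ^ 2).natDegree =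
        2 * N' + r.natAbs + 2 * P.natDegree := by
      rw [natDegree_mul hXne (pow_ne_zero _ hPne), natDegree_X_pow, natDegree_pow]
    have d2 : (X ^ (2 * N) * Q ^ 2 * bpF e r).natDegree =
        2 * N + 2 * Q.natDegree + 2 * r.natAbs := by
      rw [natDegree_mul (mul_ne_zero (pow_ne_zero _ X_ne_zero) (pow_ne_zero _ hQne)) hBne,
        natDegree_mul (pow_ne_zero _ X_ne_zero) (pow_ne_zero _ hQne), natDegree_X_pow,
        natDegree_pow, bpF_deg he hr0]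
    rw [h1, d2] at d1
    obtain ⟨k, hk⟩ := hra
    omega
  refine Set.Finite.subset (Polynomial.finite_setOf_isRoot hmain) ?_
  rintro θ ⟨hθ, hEq⟩
  show IsRoot _ θ
  rw [IsRoot.def, eval_sub, eval_mul, eval_mul, eval_mul, eval_pow, eval_pow, eval_pow,
    eval_pow, eval_X, prod_bpF_eval s c m hθ, prod_bpF_eval t d l hθ, bpF_eval _ _ hθ, ← hN, ← hN',
    mul_pow, mul_pow, hEq]
  ring

end Aux

variable {F : Type*} [Field F] [CharP F 2]

theorem finite_line {ι : Type*} (s t : Finset ι) (c d : ι → F) (m l : ι → ℤ)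
    (hc : ∀ j ∈ s, c j ≠ 0) (hd : ∀ j ∈ t, d j ≠ 0) (hm : ∀ j ∈ s, m j ≠ 0) {e : F}
    (he : e ≠ 0) {r : ℤ} (hr : Odd r) :
    {θ : F | θ ≠ 0 ∧ (∏ j ∈ s, gg (c j * θ ^ m j)) ^ 2 =
      (∏ j ∈ t, gg (d j * θ ^ l j)) ^ 2 * gg (e * θ ^ r)}.Finite := by
  exact finite_lineF s t c d m l hc hm he hr

theorem finite_torus {ι : Type*} (s t : Finset ι) (p q p' q' : ι → ℤ) {A B r₁ r₂ : ℤ}
    (hs : ∀ j ∈ s, A * q j - B * p j ≠ 0) (hr : Odd (A * r₂ - B * r₁)) :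
    {x : F × F | x.1 ≠ 0 ∧ x.2 ≠ 0 ∧ x.2 ^ A * x.1 ^ B = 1 ∧
      (∏ j ∈ s, gg (x.2 ^ p j * x.1 ^ q j)) ^ 2 =
        (∏ j ∈ t, gg (x.2 ^ p' j * x.1 ^ q' j)) ^ 2 * gg (x.2 ^ r₁ * x.1 ^ r₂)}.Finite := by
  classical
  set e : ℕ := Int.gcd A B with he
  have he0 : e ≠ 0 := by
    intro h
    have hAB := Int.gcd_eq_zero_iff.mp (he ▸ h)
    rw [hAB.1, hAB.2] at hr
    simp at hr
  obtain ⟨A', hA'⟩ : (e : ℤ) ∣ A := Int.gcd_dvd_left A B
  obtain ⟨B', hB'⟩ : (e : ℤ) ∣ B := Int.gcd_dvd_right A B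
  have heZ : (e : ℤ) ≠ 0 := by exact_mod_cast he0
  obtain ⟨u, v, huv⟩ : ∃ u v : ℤ, u * A' + v * B' = 1 := by
    refine ⟨Int.gcdA A B, Int.gcdB A B, ?_⟩
    have h := Int.gcd_eq_gcd_ab A B
    rw [← he] at h
    have h2 : (e : ℤ) * (Int.gcdA A B * A' + Int.gcdB A B * B') = (e : ℤ) * 1 := by
      calc (e : ℤ) * (Int.gcdA A B * A' + Int.gcdB A B * B')
          = ((e : ℤ) * A') * Int.gcdA A B + ((e : ℤ) * B') * Int.gcdB A B := by ring
        _ = A * Int.gcdA A B + B * Int.gcdB A B := by rw [← hA', ← hB']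
        _ = (e : ℤ) * 1 := by rw [← h]; ring
    exact mul_left_cancel₀ heZ h2
  have hr' : Odd (A' * r₂ - B' * r₁) := by
    have h1 : A * r₂ - B * r₁ = (e : ℤ) * (A' * r₂ - B' * r₁) := by
      rw [hA', hB']; ring
    rw [h1] at hr
    exact (Int.odd_mul.mp hr).2
  have hs' : ∀ j ∈ s, A' * q j - B' * p j ≠ 0 := by
    intro j hj h0
    refine hs j hj ?_
    have h1 : A * q j - B * p j = (e : ℤ) * (A' * q j - B' * p j) := by
      rw [hA', hB']; ring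
    rw [h1, h0, mul_zero]
  let T : F → Set F := fun ω => {θ : F | θ ≠ 0 ∧
    (∏ j ∈ s, gg (ω ^ (u * p j + v * q j) * θ ^ (A' * q j - B' * p j))) ^ 2 =
      (∏ j ∈ t, gg (ω ^ (u * p' j + v * q' j) * θ ^ (A' * q' j - B' * p' j))) ^ 2 *
        gg (ω ^ (u * r₁ + v * r₂) * θ ^ (A' * r₂ - B' * r₁))}
  have hΩ : {ω : F | ω ^ e = 1}.Finite := by
    have hne : (X ^ e - C (1 : F)) ≠ 0 := X_pow_sub_C_ne_zero (Nat.pos_of_ne_zero he0) 1
    refine Set.Finite.subset (Polynomial.finite_setOf_isRoot hne) ?_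
    intro ω hω
    show IsRoot _ ω
    rw [IsRoot.def, eval_sub, eval_pow, eval_X, eval_C]
    exact sub_eq_zero.mpr hω
  have hfin : (⋃ ω ∈ {ω : F | ω ^ e = 1 ∧ ω ≠ 0},
      (fun θ : F => (ω ^ v * θ ^ A', ω ^ u * θ ^ (-B'))) '' T ω).Finite := by
    refine Set.Finite.biUnion (hΩ.subset fun ω hω => hω.1) ?_
    rintro ω ⟨hω, hω0⟩
    refine Set.Finite.image _ ?_
    exact finite_lineF s t _ _ _ _ (fun j _ => zpow_ne_zero _ hω0) hs' (zpow_ne_zero _ hω0) hr'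
  refine hfin.subset ?_
  rintro ⟨η, χ⟩ ⟨hη, hχ, hrel, hEq⟩
  simp only at hη hχ hrel hEq
  have key1 : η = (χ ^ A' * η ^ B') ^ v * (η ^ u * χ ^ (-v)) ^ A' := by
    have h1 : (χ ^ A' * η ^ B') ^ v * (η ^ u * χ ^ (-v)) ^ A' = η ^ (u * A' + v * B') := by
      rw [mul_zpow, mul_zpow, ← zpow_mul, ← zpow_mul, ← zpow_mul, ← zpow_mul]
      have h2 : χ ^ (A' * v) * η ^ (B' * v) * (η ^ (u * A') * χ ^ (-v * A')) =
          (χ ^ (A' * v) * χ ^ (-v * A')) * (η ^ (u * A') * η ^ (B' * v)) := by ring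
      rw [h2, ← zpow_add₀ hχ, ← zpow_add₀ hη]
      have h3 : A' * v + -v * A' = 0 := by ring
      rw [h3, zpow_zero, one_mul, mul_comm B' v]
    rw [h1, huv, zpow_one]
  have key2 : χ = (χ ^ A' * η ^ B') ^ u * (η ^ u * χ ^ (-v)) ^ (-B') := by
    have h1 : (χ ^ A' * η ^ B') ^ u * (η ^ u * χ ^ (-v)) ^ (-B') = χ ^ (u * A' + v * B') := by
      rw [mul_zpow, mul_zpow, ← zpow_mul, ← zpow_mul, ← zpow_mul, ← zpow_mul]
      have h2 : χ ^ (A' * u) * η ^ (B' * u) * (η ^ (u * -B') * χ ^ (-v * -B')) =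
          (χ ^ (A' * u) * χ ^ (-v * -B')) * (η ^ (B' * u) * η ^ (u * -B')) := by ring
      rw [h2, ← zpow_add₀ hχ, ← zpow_add₀ hη]
      have h3 : B' * u + u * -B' = 0 := by ring
      have h4 : A' * u + -v * -B' = u * A' + v * B' := by ring
      rw [h3, h4, zpow_zero, mul_one]
    rw [h1, huv, zpow_one]
  have hω0 : χ ^ A' * η ^ B' ≠ 0 := mul_ne_zero (zpow_ne_zero _ hχ) (zpow_ne_zero _ hη)
  have hθ0 : η ^ u * χ ^ (-v) ≠ 0 := mul_ne_zero (zpow_ne_zero _ hη) (zpow_ne_zero _ hχ)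
  have hωe : (χ ^ A' * η ^ B') ^ e = 1 := by
    rw [mul_pow, ← zpow_natCast, ← zpow_natCast, ← zpow_mul, ← zpow_mul, mul_comm A',
      mul_comm B', ← hA', ← hB']
    exact hrel
  generalize hωd : χ ^ A' * η ^ B' = ω at key1 key2 hω0 hωe
  generalize hθd : η ^ u * χ ^ (-v) = θ at key1 key2 hθ0
  have mono : ∀ a b : ℤ, χ ^ a * η ^ b = ω ^ (u * a + v * b) * θ ^ (A' * b - B' * a) := by
    intro a b
    have hx : χ ^ a * η ^ b = (ω ^ u * θ ^ (-B')) ^ a * (ω ^ v * θ ^ A') ^ b := by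
      rw [← key1, ← key2]
    rw [hx, mul_zpow, mul_zpow, ← zpow_mul, ← zpow_mul, ← zpow_mul, ← zpow_mul]
    have h2 : ω ^ (u * a) * θ ^ (-B' * a) * (ω ^ (v * b) * θ ^ (A' * b)) =
        (ω ^ (u * a) * ω ^ (v * b)) * (θ ^ (-B' * a) * θ ^ (A' * b)) := by ring
    rw [h2, ← zpow_add₀ hω0, ← zpow_add₀ hθ0]
    congr 2
    ring
  refine Set.mem_iUnion₂.mpr ⟨ω, ⟨hωe, hω0⟩, θ, ⟨hθ0, ?_⟩, ?_⟩
  · simp only [mono] at hEq
    exact hEq
  · exact Prod.ext key1.symm key2.symm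

end Pool.Agent.TBK
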