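import Pool.Agent.TBK.KK
import Pool.Agent.TBK.FinT

/-!
# TBK/FinS: finitely many traces modulo two, independent of `b_i`

Notation: `β = Function.update b i c`, `M = n + 1 - i ≥ 1`, so `n + 1 = i + M`;
`A_m = kk (fun l => b (i + l)) m`, `B_m = BB b i m`, `K_j = kk b j`. For every `c` (`kk_congr`,
`BB_congr`): `kk β j = K_j` for `j ≤ i`, `kk (fun l => β (i + l)) m = A_m`
(it uses `β (i + l)` for `l ≥ 1` only), `BB β i m = B_m`, so by `kk_split`
`kk β (i + m) = A_m κ + B_m K_i` with `κ = kk β (i+1) = K_{i-1} + 2 c K_i`.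
Put `A = A_M`, `B = B_M K_i`, `r₁ = 1`, `r₂ = -K_{i-1}`. Exponents: for `j < i`:
`(p_j, q_j) = (0, K_j)`; for `j = i + m`, `0 ≤ m`: `(p_j, q_j) = (A_m, B_m K_i)` (for `j = i` this
is `(0, K_i)`).

The set is contained in the image of the set `T` of `finite_torus` for `s = Icc 1 n`,
`t = (Icc 1 n).erase i`, `(p'_j, q'_j) = (b_j p_j, b_j q_j)`, under `x ↦ gg x.1`. Indeed let `z` be
in the set, with `c`; write `z = gg η` (`exists_gg`), `χ = η ^ κ`. Then:
(1) `η ^ kk β (n+1) = 1` by `chain_two` and `gg_eq_zero`, that is `χ^A η^B = 1`.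
(2) `η ^ kk β j = χ^{p_j} η^{q_j}` for `1 ≤ j ≤ n`.
(3) `LL_two` for `β` and `LL = 1`: `(∏ gg (η^{kk β j}))² = (∏ gg ((η^{kk β j})^{β j}))²`, both over
`Icc 1 n`. Split off `j = i` on the right (`Finset.mul_prod_erase`):
`gg ((η^{K_i})^c)² = gg (η^{2 c K_i})` (`gg_sq`) and `η^{2cK_i} = χ η^{-K_{i-1}} = χ^{r₁} η^{r₂}`.
The other factors are `gg (χ^{b_j p_j} η^{b_j q_j})`.
(`n` even and `z ≠ 0` are used only as stated below.)

Hypotheses of `finite_torus`: `A q_j - B p_j ≠ 0` for `1 ≤ j ≤ n`: for `j < i` it is `A K_j`,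
`A ≠ 0` (`kk_ne` for the shifted sequence, `M ≥ 1`) and `K_j ≠ 0` (`kk_ne`); for `j = i + m`,
`m < M`, it is `K_i (A_M B_m - B_M A_m) ≠ 0` (`wronsk_ne`). Parity: `A r₂ - B r₁ =
-(A_M K_{i-1} + B_M K_i)` and `kk β (n+1) = A_M (K_{i-1} + 2 c K_i) + B_M K_i` is odd for (say)
`c = 1` (`kk_parity`, `n + 1` odd).
-/

set_option autoImplicit false

namespace Pool.Agent.TBK

variable {F : Type*} [Field F] [CharP F 2] [IsAlgClosed F]

private theorem fin_S_aux {k M : ℕ} (hn : Even (k + 1 + M)) {b : ℕ → ℤ}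
    (hb : ∀ j, 1 ≤ j → j ≤ k + 1 + M → j ≠ k + 1 → b j ≠ 0) :
    {z : F | z ≠ 0 ∧ ∃ c : ℤ, c ≠ 0 ∧
      Wc (Function.update b (k + 1) c) z (k + 1 + M + 1) = 0 ∧
      LL (Function.update b (k + 1) c) (k + 1 + M) z = 1}.Finite := by
  classical
  set bs : ℕ → ℤ := fun l => b (k + 1 + l) with hbs
  set p : ℕ → ℤ := fun j => if j < k + 1 then 0 else kk bs (j - (k + 1)) with hp
  set q : ℕ → ℤ := fun j => if j < k + 1 then kk b j else BB b (k + 1) (j - (k + 1)) * kk b (k + 1)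
    with hq
  -- the chain for the updated sequence
  have hβ1 : ∀ (c : ℤ) (j : ℕ), j ≤ k + 1 → kk (Function.update b (k + 1) c) j = kk b j := by
    intro c j hj
    apply kk_congr
    intro l _ hl
    rw [Function.update_of_ne (by omega)]
  have hβ2 : ∀ c : ℤ, kk (Function.update b (k + 1) c) (k + 1 + 1) =
      kk b k + 2 * c * kk b (k + 1) := by
    intro c
    have h : kk (Function.update b (k + 1) c) (k + 2) = kk (Function.update b (k + 1) c) k +
      2 * (Function.update b (k + 1) c) (k + 1) * kk (Function.update b (k + 1) c) (k + 1) := rfl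
    rw [hβ1 c k (by omega), hβ1 c (k + 1) le_rfl, Function.update_self] at h
    exact h
  have hβ3 : ∀ (c : ℤ) (m : ℕ), kk (Function.update b (k + 1) c) (k + 1 + m) =
      kk bs m * (kk b k + 2 * c * kk b (k + 1)) + BB b (k + 1) m * kk b (k + 1) := by
    intro c m
    rw [kk_split, hβ2, hβ1 c (k + 1) le_rfl]
    congr 2
    · apply kk_congr
      intro l hl _
      show Function.update b (k + 1) c (k + 1 + l) = b (k + 1 + l)
      rw [Function.update_of_ne (by omega)]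
    · apply BB_congr
      intro l hl _
      rw [Function.update_of_ne (by omega)]
  have hβ4 : ∀ (c : ℤ) (j : ℕ), kk (Function.update b (k + 1) c) j =
      (kk b k + 2 * c * kk b (k + 1)) * p j + q j := by
    intro c j
    by_cases hj : j < k + 1
    · rw [hβ1 c j (by omega), hp, hq]
      simp only [if_pos hj]
      ring
    · obtain ⟨m, rfl⟩ : ∃ m, j = k + 1 + m := ⟨j - (k + 1), by omega⟩
      rw [hβ3, hp, hq]
      simp only [if_neg hj, Nat.add_sub_cancel_left]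
      ring
  -- the numbers A and B
  set A : ℤ := kk bs (M + 1) with hA
  set B : ℤ := BB b (k + 1) (M + 1) * kk b (k + 1) with hB
  have hbs' : ∀ l, 1 ≤ l → l ≤ M → bs l ≠ 0 := by
    intro l h1 h2
    exact hb (k + 1 + l) (by omega) (by omega) (by omega)
  have hA0 : A ≠ 0 := kk_ne hbs' (by omega) le_rfl
  have hK : ∀ j, 1 ≤ j → j ≤ k + 1 → kk b j ≠ 0 := by
    intro j h1 h2
    refine kk_ne (n := k) (fun l h3 h4 => hb l h3 (by omega) (by omega)) h1 h2
  have hs : ∀ j ∈ Finset.Icc 1 (k + 1 + M), A * q j - B * p j ≠ 0 := by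
    intro j hj
    rw [Finset.mem_Icc] at hj
    by_cases hj' : j < k + 1
    · rw [hp, hq]
      simp only [if_pos hj']
      rw [mul_zero, sub_zero]
      exact mul_ne_zero hA0 (hK j hj.1 (by omega))
    · obtain ⟨m, rfl⟩ : ∃ m, j = k + 1 + m := ⟨j - (k + 1), by omega⟩
      rw [hp, hq]
      simp only [if_neg hj', Nat.add_sub_cancel_left]
      have h1 := wronsk_ne (b := b) (i := k + 1) (M := M + 1)
        (fun l h3 h4 => hbs' l h3 (by omega)) (m := m) (by omega)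
      have h2 := mul_ne_zero (neg_ne_zero.2 (hK (k + 1) (by omega) le_rfl)) h1
      intro h0
      apply h2
      rw [← h0, hA, hB]
      ring
  have hpar : Odd (A * (-kk b k) - B * 1) := by
    have h1 := hβ3 0 (M + 1)
    have h2 := kk_parity (Function.update b (k + 1) 0) (k + 1 + (M + 1))
    have h3 : ¬ Even (k + 1 + (M + 1)) := by
      rw [← add_assoc, Nat.even_add_one, not_not]
      exact hn
    have h4 : ¬ Even (kk (Function.update b (k + 1) 0) (k + 1 + (M + 1))) := fun h => h3 (h2.1 h)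
    rw [h1] at h4
    have h5 : A * (-kk b k) - B * 1 =
        -(kk bs (M + 1) * (kk b k + 2 * 0 * kk b (k + 1)) + BB b (k + 1) (M + 1) * kk b (k + 1)) := by
      rw [hA, hB]
      ring
    rw [h5, odd_neg]
    exact Int.not_even_iff_odd.1 h4
  have hfin := finite_torus (F := F) (Finset.Icc 1 (k + 1 + M))
    ((Finset.Icc 1 (k + 1 + M)).erase (k + 1)) p q (fun j => p j * b j) (fun j => q j * b j) hs hpar
  refine (hfin.image fun x => gg x.1).subset ?_
  rintro z ⟨_, c, _, hW, hL⟩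
  obtain ⟨η, hη, rfl⟩ := exists_gg z
  set κ : ℤ := kk b k + 2 * c * kk b (k + 1) with hκ
  have hχ : η ^ κ ≠ 0 := zpow_ne_zero _ hη
  have h2 : ∀ j, η ^ kk (Function.update b (k + 1) c) j = (η ^ κ) ^ p j * η ^ q j := by
    intro j
    rw [hβ4, zpow_add₀ hη, zpow_mul]
  refine ⟨(η, η ^ κ), ⟨hη, hχ, ?_, ?_⟩, rfl⟩
  · show (η ^ κ) ^ A * η ^ B = 1
    rw [(chain_two hη _ (k + 1 + M)).2.1, gg_eq_zero (zpow_ne_zero _ hη)] at hW
    have e : k + 1 + M + 1 = k + 1 + (M + 1) := by omega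
    rw [e, hβ3, zpow_add₀ hη] at hW
    rw [← hW, ← zpow_mul, mul_comm κ A]
  · show (∏ j ∈ Finset.Icc 1 (k + 1 + M), gg ((η ^ κ) ^ p j * η ^ q j)) ^ 2 =
      (∏ j ∈ (Finset.Icc 1 (k + 1 + M)).erase (k + 1),
        gg ((η ^ κ) ^ (p j * b j) * η ^ (q j * b j))) ^ 2 * gg ((η ^ κ) ^ (1 : ℤ) * η ^ (-kk b k))
    have h3 := LL_two hη (Function.update b (k + 1) c) (k + 1 + M)
    rw [hL, one_mul, ← Finset.mul_prod_erase (Finset.Icc 1 (k + 1 + M))
      (fun j => gg ((η ^ kk (Function.update b (k + 1) c) j) ^ Function.update b (k + 1) c j))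
      (Finset.mem_Icc.2 ⟨by omega, by omega⟩ : k + 1 ∈ Finset.Icc 1 (k + 1 + M)), mul_pow,
      gg_sq] at h3
    have e1 : ((η ^ kk (Function.update b (k + 1) c) (k + 1)) ^
        Function.update b (k + 1) c (k + 1)) ^ 2 = (η ^ κ) ^ (1 : ℤ) * η ^ (-kk b k) := by
      rw [hβ1 c (k + 1) le_rfl, Function.update_self, zpow_one, ← zpow_mul, ← zpow_natCast,
        ← zpow_mul, ← zpow_add₀ hη]
      congr 1
      rw [hκ]
      push_cast
      ring
    rw [e1] at h3
    have e2 : (∏ j ∈ (Finset.Icc 1 (k + 1 + M)).erase (k + 1),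
        gg ((η ^ kk (Function.update b (k + 1) c) j) ^ Function.update b (k + 1) c j)) =
        ∏ j ∈ (Finset.Icc 1 (k + 1 + M)).erase (k + 1),
        gg ((η ^ κ) ^ (p j * b j) * η ^ (q j * b j)) := by
      apply Finset.prod_congr rfl
      intro j hj
      rw [Finset.mem_erase] at hj
      rw [h2, Function.update_of_ne hj.1, mul_zpow, zpow_mul, zpow_mul]
    rw [e2] at h3
    rw [mul_comm (_ ^ 2), ← h3]
    congr 1
    apply Finset.prod_congr rfl
    intro j _
    rw [h2]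

theorem fin_S {n i : ℕ} (hn : Even n) (hi : 1 ≤ i) (hin : i ≤ n) {b : ℕ → ℤ}
    (hb : ∀ j, 1 ≤ j → j ≤ n → j ≠ i → b j ≠ 0) :
    {z : F | z ≠ 0 ∧ ∃ c : ℤ, c ≠ 0 ∧ Wc (Function.update b i c) z (n + 1) = 0 ∧
      LL (Function.update b i c) n z = 1}.Finite := by
  obtain ⟨k, rfl⟩ : ∃ k, i = k + 1 := ⟨i - 1, by omega⟩
  obtain ⟨M, rfl⟩ : ∃ M, n = k + 1 + M := ⟨n - (k + 1), by omega⟩
  exact fin_S_aux hn hb

end Pool.Agent.TBK
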