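import Pool.Agent.DFJ.Cheb

/-!
# TBK/Chain: the chain of traces (definitions, do not change)
-/

set_option autoImplicit false

namespace Pool.Agent.TBK

open Pool.Agent.DFJ Matrix

section defs

variable {R : Type*} [CommRing R]

/-- The matrix `M(w)`. -/
def MM (w : R) : SpecialLinearGroup (Fin 2) R :=
  ⟨!![1, -w; -w, 1 + w ^ 2], by rw [det_fin_two_of]; ring⟩

/-- `M(w)^b (u, q)`. -/
def act (w : R) (b : ℤ) (v : R × R) : R × R :=
  ((MM w ^ b).val 0 0 * v.1 + (MM w ^ b).val 0 1 * v.2,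
    (MM w ^ b).val 1 0 * v.1 + (MM w ^ b).val 1 1 * v.2)

/-- `chain b w i = (W_i, W_{i+1}, Q_{i+1})`. -/
def chain (b : ℕ → ℤ) (w : R) : ℕ → R × R × R
  | 0 => (0, w, w)
  | i + 1 => ((chain b w i).2.1,
      act (chain b w i).2.1 (b (i + 1)) ((chain b w i).1, (chain b w i).2.2))

/-- `W_i`. -/
def Wc (b : ℕ → ℤ) (w : R) (i : ℕ) : R := (chain b w i).1

/-- `Q_{i+1}`. -/
def Qc (b : ℕ → ℤ) (w : R) (i : ℕ) : R := (chain b w i).2.2

/-- The product of the `PP_{|b_j|}(W_j² + 2)`, `1 ≤ j ≤ n`. -/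
def LL (b : ℕ → ℤ) (n : ℕ) (w : R) : R :=
  ∏ j ∈ Finset.Icc 1 n, PP (b j).natAbs (Wc b w j ^ 2 + 2)

end defs

/-- The integers `k_i`: `k_0 = 0`, `k_1 = 1`, `k_{i+1} = k_{i-1} + 2 b_i k_i`. -/
def kk (b : ℕ → ℤ) : ℕ → ℤ
  | 0 => 0
  | 1 => 1
  | i + 2 => kk b i + 2 * b (i + 1) * kk b (i + 1)

/-- The reversed parameters. -/
def rv (n : ℕ) (b : ℕ → ℤ) (j : ℕ) : ℤ := -b (n + 1 - j)

/-- `w ≠ 0` closes the chain of the (nonzero) parameters `b_1, …, b_n`, `n` even. -/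
structure Cl (n : ℕ) (b : ℕ → ℤ) (w : ℂ) : Prop where
  pos : 0 < n
  even : Even n
  ne : ∀ j, 1 ≤ j → j ≤ n → b j ≠ 0
  w0 : w ≠ 0
  close : Wc b w (n + 1) = 0

/-- No nontrivial element of finite order has trace `s`. -/
def NT (s : ℂ) : Prop := ∀ m : ℕ, 1 ≤ m → al m s ≠ 0

/-- All the `s_j = W_j² + 2` are traces of elements of infinite order. -/
def NTs (n : ℕ) (b : ℕ → ℤ) (w : ℂ) : Prop := ∀ j, 1 ≤ j → j ≤ n → NT (Wc b w j ^ 2 + 2)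

theorem Wc_succ {R : Type*} [CommRing R] (b : ℕ → ℤ) (w : R) (i : ℕ) :
    Wc b w (i + 1) = (chain b w i).2.1 := rfl

theorem chain_eq {R : Type*} [CommRing R] (b : ℕ → ℤ) (w : R) (i : ℕ) :
    chain b w i = (Wc b w i, Wc b w (i + 1), Qc b w i) := rfl

theorem act_succ {R : Type*} [CommRing R] (b : ℕ → ℤ) (w : R) (i : ℕ) :
    act (Wc b w (i + 1)) (b (i + 1)) (Wc b w i, Qc b w i) =
      (Wc b w (i + 2), Qc b w (i + 1)) := rfl

end Pool.Agent.TBK
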