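import Pool.Agent.DFJ.FinOO
import Pool.Agent.TBK.Chain

/-!
# TBK/Cheb2: values of `PP`

* `te_two`, `PP_at_two`: `al n 2 = n`, `te n 2 = 2`, `PP n 2 = n²` (induction / parity).
* `al_NT`-facts: let `NT s` (no `al m s` with `m ≥ 1` vanishes).
  `PP_ne_NT`: `PP (2k+1) s = (al (k+1) + al k)²`; if it is `0` then
  `al (2k+1) s = (al (k+1) + al k)(al (k+1) - al k) = 0` (`al_odd`), contradiction.
  `PP (2k) s = (s+2) al k ²` with `k ≥ 1`: `s ≠ -2` and `al k s ≠ 0`.
* `te_eq_two`: `te m s - 2 = (s - 2) PP m s` (`PP_spec`), so `te m s = 2`, `m ≥ 1` gives `s = 2`.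
* `te_diff`: `(te (a+1) s - s)² = (te (a+2) s - 2) (te a s - 2)`. Proof: it is enough to know the
  identity for `s = x + y`, `x y = 1`, where `te m s = x^m + y^m` (`te_lam` in DFJ/FinOO) over
  `ℂ` (`exists_lam` in DFJ/FinOO gives `x, y`); or directly from `te_eq`, `al_step`, `cassini`
  (polynomial identity in `al a s`, `al (a+1) s` modulo `cassini a s`).
* `PP_eq_one`: `NT s`, `s ≠ -2`, `a ≥ 1`, `PP a s = 1`. If `s = 2`: `a² = 1`, so `a = 1`. Otherwise
  `te a s - 2 = (s - 2)`, so `te a s = s`. If `a = a' + 1 ≥ 2`, `te_diff` for `a'` gives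
  `te (a'+2) s = 2` or `te a' s = 2` with `a' ≥ 1`, so `s = 2` by `te_eq_two`, contradiction.
-/

set_option autoImplicit false

namespace Pool.Agent.TBK

open Pool.Agent.DFJ

theorem al_at_two (n : ℕ) {R : Type*} [CommRing R] : al n (2 : R) = n := by
  induction n using Nat.strong_induction_on with
  | _ n ih =>
    match n with
    | 0 => simp
    | 1 => simp
    | (n + 2) =>
      rw [al_step, ih (n + 1) (by omega), ih n (by omega)]
      push_cast
      ring

theorem PP_at_two (n : ℕ) {R : Type*} [CommRing R] : PP n (2 : R) = (n : R) ^ 2 := by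
  rcases Nat.even_or_odd' n with ⟨k, rfl | rfl⟩
  · rw [PP_even, al_at_two]
    push_cast
    ring
  · rw [PP_odd, al_at_two, al_at_two]
    push_cast
    ring

theorem PP_ne_NT {s : ℂ} (h : NT s) (h2 : s ≠ -2) {a : ℕ} (ha : 1 ≤ a) : PP a s ≠ 0 := by
  rcases Nat.even_or_odd' a with ⟨k, rfl | rfl⟩
  · rw [PP_even]
    refine mul_ne_zero (fun h3 => h2 ?_) (pow_ne_zero 2 (h k (by omega)))
    linear_combination h3
  · rw [PP_odd]
    intro h3
    have h4 : al (k + 1) s + al k s = 0 := pow_eq_zero_iff (two_ne_zero) |>.1 h3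
    apply h (2 * k + 1) (by omega)
    rw [al_odd, h4, zero_mul]

theorem te_eq_two {s : ℂ} (h : NT s) (h2 : s ≠ -2) {m : ℕ} (hm : 1 ≤ m) (ht : te m s = 2) :
    s = 2 := by
  have h3 := PP_spec m s
  rw [ht, sub_self] at h3
  rcases mul_eq_zero.1 h3 with h4 | h4
  · linear_combination h4
  · exact absurd h4 (PP_ne_NT h h2 hm)

theorem te_diff (a : ℕ) (s : ℂ) :
    (te (a + 1) s - s) ^ 2 = (te (a + 2) s - 2) * (te a s - 2) := by
  obtain ⟨x, y, hxy, rfl⟩ := exists_lam s
  rw [te_lam hxy, te_lam hxy, te_lam hxy]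
  have hpq : x ^ a * y ^ a = 1 := by rw [← mul_pow, hxy, one_pow]
  rw [pow_succ x a, pow_succ y a, pow_add x a 2, pow_add y a 2]
  generalize x ^ a = p at hpq ⊢
  generalize y ^ a = q at hpq ⊢
  linear_combination (2 - x ^ 2 - y ^ 2) * hpq + 2 * (p * q - p - q + 1) * hxy

theorem PP_eq_one {s : ℂ} (h : NT s) (h2 : s ≠ -2) {a : ℕ} (ha : 1 ≤ a) (h1 : PP a s = 1) :
    a = 1 := by
  by_cases hs : s = 2
  · subst hs
    rw [PP_at_two] at h1
    have h3 : a ^ 2 = 1 := by exact_mod_cast h1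
    nlinarith [h3, ha]
  · by_contra hne
    obtain ⟨a', rfl⟩ : ∃ a', a = a' + 1 := ⟨a - 1, by omega⟩
    have h3 := PP_spec (a' + 1) s
    rw [h1, mul_one] at h3
    have h4 : te (a' + 1) s - s = 0 := by linear_combination -h3
    have h5 := te_diff a' s
    rw [h4] at h5
    have h6 : (te (a' + 2) s - 2) * (te a' s - 2) = 0 := by
      rw [← h5]
      norm_num
    rcases mul_eq_zero.1 h6 with h7 | h7
    · exact hs (te_eq_two h h2 (by omega : 1 ≤ a' + 2) (sub_eq_zero.1 h7))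
    · exact hs (te_eq_two h h2 (by omega : 1 ≤ a') (sub_eq_zero.1 h7))

end Pool.Agent.TBK
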