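import Pool.Agent.TBK.ChainL

/-!
# TBK/Deg: degrees of the polynomials `W_i`

`GP p`: the leading coefficient of `p ∈ ℤ[X]` is a unit and the degree is at least one. This is
the analogue of TBK/Grow with `natDegree` in place of the norm.

Facts used all the time: if `GP p`, `GP q` then `p * q` has unit leading coefficient
(`leadingCoeff_mul`) and `natDegree (p * q) = natDegree p + natDegree q`; if moreover
`natDegree r < natDegree (p * q)` then `r - p * q`, `r + p * q` have leading coefficient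
`∓ leadingCoeff (p * q)`, a unit, and the same degree
(`leadingCoeff_add_of_degree_lt`, `natDegree_add_eq_right_of_natDegree_lt`, …).

One region (`deg_region`): center `c`, `v = (x_0, x_1)`, `x_{-1} = x_1 + c x_0`, `GP c`,
`natDegree x_0 ≤ natDegree c`, `GP x_1`, `GP x_{-1}`, `b ≠ 0`. As in TBK/Grow: for
`b = k + 1`, `(u, q) = act c (k+1) v` satisfies: `GP u`, `GP q`, `GP (q + c u)`,
`natDegree c < natDegree u ≤ natDegree q`. (Base: `u = x_0 - c x_1`, degree
`natDegree c + natDegree x_1 ≥ natDegree c + 1 > natDegree x_0`; `q = x_1 - c u`, degree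
`natDegree c + natDegree u > natDegree x_1`; `q + c u = x_1`. Step: `u' = u - c q`,
`q' = q - c u'`, `q' + c u' = q`.) For `b = -(k+1)`: `(u, q)` with `r = q + c u`: `GP u`, `GP q`,
`GP r`, `natDegree c < natDegree u ≤ natDegree r` (base: `q = x_{-1}`, `u = x_0 + c x_{-1}`,
`r = q + c u`; step `q' = r`, `u' = u + c r`, `r' = r + c u'`).

`deg_W`: induction on `i` with `deg_region` and `act_succ`, invariants
`GP (W_{i+1})`, `natDegree W_i ≤ natDegree W_{i+1}`, `GP Q_{i+1}`,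
`GP (Q_{i+1} + W_{i+1} W_i)`, `natDegree p + i ≤ natDegree W_{i+1}`.
-/

set_option autoImplicit false

namespace Pool.Agent.TBK

open Pool.Agent.DFJ Polynomial

/-- unit leading coefficient and positive degree -/
def GP (p : ℤ[X]) : Prop := IsUnit p.leadingCoeff ∧ 1 ≤ p.natDegree

theorem GP_X : GP X := by
  refine ⟨?_, ?_⟩
  · rw [leadingCoeff_X]; exact isUnit_one
  · rw [natDegree_X]

theorem GP.ne {p : ℤ[X]} (h : GP p) : p ≠ 0 := by
  rintro rfl
  have := h.2
  simp at this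

theorem GP.mul {p q : ℤ[X]} (hp : GP p) (hq : GP q) :
    GP (p * q) ∧ (p * q).natDegree = p.natDegree + q.natDegree := by
  have h1 : (p * q).natDegree = p.natDegree + q.natDegree := natDegree_mul hp.ne hq.ne
  refine ⟨⟨?_, ?_⟩, h1⟩
  · rw [leadingCoeff_mul]
    exact hp.1.mul hq.1
  · rw [h1]
    have := hp.2
    omega

theorem GP.add {r p : ℤ[X]} (hp : GP p) (h : r.natDegree < p.natDegree) :
    GP (r + p) ∧ (r + p).natDegree = p.natDegree := by
  have h1 : (r + p).natDegree = p.natDegree := natDegree_add_eq_right_of_natDegree_lt h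
  have h2 : (r + p).leadingCoeff = p.leadingCoeff :=
    leadingCoeff_add_of_degree_lt (degree_lt_degree h)
  refine ⟨⟨?_, ?_⟩, h1⟩
  · rw [h2]
    exact hp.1
  · rw [h1]
    exact hp.2

theorem GP.neg {p : ℤ[X]} (hp : GP p) : GP (-p) := by
  refine ⟨?_, ?_⟩
  · rw [leadingCoeff_neg]
    exact hp.1.neg
  · rw [natDegree_neg]
    exact hp.2

theorem GP.sub {r p : ℤ[X]} (hp : GP p) (h : r.natDegree < p.natDegree) :
    GP (r - p) ∧ (r - p).natDegree = p.natDegree := by
  have h1 := hp.neg.add (r := r) (by rw [natDegree_neg]; exact h)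
  rw [natDegree_neg, ← sub_eq_add_neg] at h1
  exact h1

theorem deg_pos {c x₀ x₁ : ℤ[X]} (hc : GP c)
    (h0 : x₀.natDegree ≤ c.natDegree) (h1 : GP x₁) (k : ℕ) :
    c.natDegree < (act c (k + 1) (x₀, x₁)).1.natDegree ∧ GP (act c (k + 1) (x₀, x₁)).1 ∧
      GP (act c (k + 1) (x₀, x₁)).2 ∧
      GP ((act c (k + 1) (x₀, x₁)).2 + c * (act c (k + 1) (x₀, x₁)).1) ∧
      (act c (k + 1) (x₀, x₁)).1.natDegree ≤ (act c (k + 1) (x₀, x₁)).2.natDegree := by
  have hc2 := hc.2
  have h12 := h1.2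
  -- one step
  have step : ∀ u q : ℤ[X], GP q → u.natDegree ≤ c.natDegree + q.natDegree - 1 →
      c.natDegree < (act c 1 (u, q)).1.natDegree ∧ GP (act c 1 (u, q)).1 ∧
      GP (act c 1 (u, q)).2 ∧ GP ((act c 1 (u, q)).2 + c * (act c 1 (u, q)).1) ∧
      (act c 1 (u, q)).1.natDegree ≤ (act c 1 (u, q)).2.natDegree := by
    intro u q hq hu
    have hq2 := hq.2
    obtain ⟨m1, m2⟩ := hc.mul hq
    obtain ⟨s1, s2⟩ := m1.sub (r := u) (by omega)
    obtain ⟨m3, m4⟩ := hc.mul s1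
    obtain ⟨s3, s4⟩ := m3.sub (r := q) (by omega)
    have e1 : act c 1 (u, q) = (u - c * q, q - c * (u - c * q)) := by
      rw [act_one]
      ext1
      · rfl
      · simp only []
        ring
    rw [e1]
    refine ⟨?_, s1, s3, ?_, ?_⟩
    · simp only []
      omega
    · simp only []
      rw [show q - c * (u - c * q) + c * (u - c * q) = q by ring]
      exact hq
    · simp only []
      omega
  induction k with
  | zero =>
    rw [Nat.cast_zero, zero_add]
    exact step _ _ h1 (by omega)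
  | succ k ih =>
    obtain ⟨i1, i2, i3, i4, i5⟩ := ih
    have e2 : (((k + 1 : ℕ) : ℤ) + 1) = 1 + ((k : ℤ) + 1) := by push_cast; ring
    rw [e2, act_add]
    exact step (act c (k + 1) (x₀, x₁)).1 (act c (k + 1) (x₀, x₁)).2 i3 (by omega)

theorem deg_neg' {c x₀ x₁ : ℤ[X]} (hc : GP c)
    (h0 : x₀.natDegree ≤ c.natDegree) (h2 : GP (x₁ + c * x₀)) (k : ℕ) :
    c.natDegree < (act c (-(k + 1)) (x₀, x₁)).1.natDegree ∧
      GP (act c (-(k + 1)) (x₀, x₁)).1 ∧ GP (act c (-(k + 1)) (x₀, x₁)).2 ∧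
      GP ((act c (-(k + 1)) (x₀, x₁)).2 + c * (act c (-(k + 1)) (x₀, x₁)).1) ∧
      (act c (-(k + 1)) (x₀, x₁)).1.natDegree ≤
        ((act c (-(k + 1)) (x₀, x₁)).2 + c * (act c (-(k + 1)) (x₀, x₁)).1).natDegree := by
  have hc2 := hc.2
  -- one step
  have step : ∀ u q : ℤ[X], GP (q + c * u) →
      u.natDegree ≤ c.natDegree + (q + c * u).natDegree - 1 →
      c.natDegree < (act c (-1) (u, q)).1.natDegree ∧ GP (act c (-1) (u, q)).1 ∧
      GP (act c (-1) (u, q)).2 ∧ GP ((act c (-1) (u, q)).2 + c * (act c (-1) (u, q)).1) ∧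
      (act c (-1) (u, q)).1.natDegree ≤
        ((act c (-1) (u, q)).2 + c * (act c (-1) (u, q)).1).natDegree := by
    intro u q hq hu
    have hq2 := hq.2
    obtain ⟨m1, m2⟩ := hc.mul hq
    obtain ⟨s1, s2⟩ := m1.add (r := u) (by omega)
    obtain ⟨m3, m4⟩ := hc.mul s1
    obtain ⟨s3, s4⟩ := m3.add (r := q + c * u) (by omega)
    have e1 : act c (-1) (u, q) = (u + c * (q + c * u), q + c * u) := by
      rw [act_neg_one]
      ext1
      · simp only []
        ring
      · simp only []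
        ring
    rw [e1]
    refine ⟨?_, s1, hq, s3, ?_⟩
    · simp only []
      omega
    · simp only []
      omega
  induction k with
  | zero =>
    rw [Nat.cast_zero, zero_add]
    have h22 := h2.2
    exact step _ _ h2 (by omega)
  | succ k ih =>
    obtain ⟨i1, i2, i3, i4, i5⟩ := ih
    have e2 : (-(((k + 1 : ℕ) : ℤ) + 1)) = -1 + -((k : ℤ) + 1) := by push_cast; ring
    rw [e2, act_add]
    exact step (act c (-(k + 1)) (x₀, x₁)).1 (act c (-(k + 1)) (x₀, x₁)).2 i4 (by omega)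

theorem deg_region {c x₀ x₁ : ℤ[X]} {b : ℤ} (hb : b ≠ 0) (hc : GP c)
    (h0 : x₀.natDegree ≤ c.natDegree) (h1 : GP x₁) (h2 : GP (x₁ + c * x₀)) :
    c.natDegree < (act c b (x₀, x₁)).1.natDegree ∧ GP (act c b (x₀, x₁)).1 ∧
      GP (act c b (x₀, x₁)).2 ∧
      GP ((act c b (x₀, x₁)).2 + c * (act c b (x₀, x₁)).1) := by
  rcases lt_or_gt_of_ne hb with hb | hb
  · obtain ⟨k, hk⟩ : ∃ k : ℕ, b = -((k : ℤ) + 1) := ⟨(-b - 1).toNat, by omega⟩
    obtain ⟨i1, i2, i3, i4, -⟩ := deg_neg' hc h0 h2 k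
    rw [hk]
    exact ⟨i1, i2, i3, i4⟩
  · obtain ⟨k, hk⟩ : ∃ k : ℕ, b = (k : ℤ) + 1 := ⟨(b - 1).toNat, by omega⟩
    obtain ⟨i1, i2, i3, i4, -⟩ := deg_pos hc h0 h1 k
    rw [hk]
    exact ⟨i1, i2, i3, i4⟩

theorem deg_W {n : ℕ} {b : ℕ → ℤ} (hb : ∀ j, 1 ≤ j → j ≤ n → b j ≠ 0) {p : ℤ[X]} (hp : GP p)
    (i : ℕ) (hi : i ≤ n) :
    GP (Wc b p (i + 1)) ∧ p.natDegree + i ≤ (Wc b p (i + 1)).natDegree := by
  have key : ∀ i ≤ n, GP (Wc b p (i + 1)) ∧ p.natDegree + i ≤ (Wc b p (i + 1)).natDegree ∧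
      (Wc b p i).natDegree ≤ (Wc b p (i + 1)).natDegree ∧ GP (Qc b p i) ∧
      GP (Qc b p i + Wc b p (i + 1) * Wc b p i) := by
    intro i
    induction i with
    | zero =>
      intro _
      rw [W_zero, W_one, Q_zero, mul_zero, natDegree_zero, add_zero, add_zero]
      exact ⟨hp, le_rfl, Nat.zero_le _, hp, hp⟩
    | succ i ih =>
      intro hi
      obtain ⟨h1, h2, h3, h4, h5⟩ := ih (by omega)
      have h6 := deg_region (hb (i + 1) (by omega) hi) h1 h3 h4 h5
      rw [act_succ] at h6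
      simp only [] at h6
      obtain ⟨g1, g2, g3, g4⟩ := h6
      have g5 : (Wc b p (i + 1)).natDegree < (Wc b p (i + 1 + 1)).natDegree := g1
      refine ⟨g2, by omega, g1.le, g3, ?_⟩
      rw [mul_comm]
      exact g4
  exact ⟨(key i hi).1, (key i hi).2.1⟩

end Pool.Agent.TBK
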