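import Pool.Agent.TBK.ChainL

/-!
# TBK/Even: `W_n` is an even polynomial for even `n`

Let `P = Wc b X n ∈ ℤ[X]`, `n` even. By `W_neg` (with `(-1)^n = 1`) and `W_map` for the ring
homomorphism `ℤ[X] → ℤ[X]`, `X ↦ -X` (`Polynomial.compRingHom (-X)`): `P.comp (-X) = P`. Compare
coefficients: `(-1)^k P.coeff k = P.coeff k`, so `P.coeff k = 0` for odd `k` (ℤ has no
2-torsion). By `chain_w0` and `W_map` for the evaluation at `0`: `P.coeff 0 = 0`. Hence
`P = ∑_{k ≥ 1} P.coeff (2k) X^{2k} = X² V(X²)` with `V = ∑_k P.coeff (2k+2) X^k`; for instance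
`V = Polynomial.contract 2 (P.divX.divX)`, with `Polynomial.expand ℤ 2 V = V.comp (X^2)`
(`expand_eq_comp_X_pow`) and a comparison of coefficients (`coeff_expand`, `coeff_contract`,
`coeff_X_pow_mul'`).
-/

set_option autoImplicit false

namespace Pool.Agent.TBK

open Pool.Agent.DFJ Polynomial

theorem W_even (b : ℕ → ℤ) {n : ℕ} (hn : Even n) :
    ∃ V : ℤ[X], Wc b (X : ℤ[X]) n = X ^ 2 * V.comp (X ^ 2) := by
  set P : ℤ[X] := Wc b (X : ℤ[X]) n with hP
  have h1 : P.comp (-X) = P := by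
    have e1 : (Polynomial.compRingHom (-X : ℤ[X])) (X : ℤ[X]) = -X := by simp
    have e2 := W_map (Polynomial.compRingHom (-X : ℤ[X])) b (X : ℤ[X]) n
    rw [e1, W_neg, hn.neg_one_pow, one_mul] at e2
    exact e2.symm
  have hodd : ∀ k, Odd k → P.coeff k = 0 := by
    intro k hk
    have h2 := congrArg (fun q : ℤ[X] => q.coeff k) h1
    have e3 : (-X : ℤ[X]) = C (-1) * X := by simp
    simp only [e3, Polynomial.comp_C_mul_X_coeff, hk.neg_one_pow] at h2
    omega
  have h0 : P.coeff 0 = 0 := by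
    have e2 := W_map (Polynomial.evalRingHom (0 : ℤ)) b (X : ℤ[X]) n
    have e1 : (Polynomial.evalRingHom (0 : ℤ)) (X : ℤ[X]) = 0 := by simp
    rw [e1, (chain_w0 b n).1] at e2
    rw [Polynomial.coeff_zero_eq_eval_zero]
    exact e2.symm
  refine ⟨Polynomial.contract 2 P.divX.divX, ?_⟩
  rw [← Polynomial.expand_eq_comp_X_pow]
  ext k
  rw [Polynomial.coeff_X_pow_mul', Polynomial.coeff_expand (by norm_num)]
  by_cases hk : 2 ≤ k
  · rw [if_pos hk]
    by_cases hd : 2 ∣ k - 2
    · rw [if_pos hd, Polynomial.coeff_contract (by norm_num), Polynomial.coeff_divX,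
        Polynomial.coeff_divX]
      congr 1
      omega
    · rw [if_neg hd]
      apply hodd
      rw [← Nat.not_even_iff_odd]
      intro h
      apply hd
      obtain ⟨r, hr⟩ := h
      exact ⟨r - 1, by omega⟩
  · rw [if_neg hk]
    have : k = 0 ∨ k = 1 := by omega
    rcases this with rfl | rfl
    · exact h0
    · exact hodd 1 odd_one

end Pool.Agent.TBK
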