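import Pool.Agent.DFJ.Adj
import Pool.Agent.TBK.Deg
import Pool.Agent.TBK.Even

/-!
# TBK/OkW: the ring `ℤ[w]` for a closed chain

Let `h : Cl n b w`, `v = Wc b w n` and `ε` from `exists_sign` (with `R = ℂ`). `chain_rev` at
`j = n` (`n` even) gives (second component, `n - n = 0` is `W_0`; better use `j = n` in the first
component): `w = Wc b w 1 = ε Wc (rv n b) v n`. Put `b' = rv n b` (nonzero for `1 ≤ j ≤ n`) and
`P = Wc b' (Wc b X n) n - C ε * X ∈ ℤ[X]`. By `W_map` for evaluations, `aeval w P = 0`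
(`w = ε W'_n(v)`, `ε² = 1`).
* `integral`: `Wc b X n` is `GP` (`deg_W` with `p = X`, `i = n - 1`), so `Wc b' (Wc b X n) n` is
  `GP` of degree `≥ natDegree (Wc b X n) + (n - 1) ≥ 2 (n-1) + 1 > 1` (`n ≥ 2`), so `P` has unit
  leading coefficient and `w` is integral (multiply `P` by the inverse of the leading coefficient,
  `± 1`).
* `sep`: `minpoly ℤ w ∣ P` (`minpoly.isIntegrallyClosed_dvd`), so it is enough that `rd P` is
  separable (`Separable.of_dvd`, compare DFJ/Setup `Sys.sep` and DFJ/Adj `separable_GG`). By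
  `W_even`, `Wc b X n = X² V(X²)`, whose reduction mod 2 has derivative `0`; and
  `Wc b' Y n = (Wc b' X n).comp Y` (`W_map` for `compRingHom Y`), whose derivative is
  `Y' * (…)` (`derivative_comp`), so the derivative of `rd P` is `- ε = 1 ≠ 0` in `(ZMod 2)[X]`,
  a unit.
* `ok`: `Ok_Zw` of DFJ/Adj.
* `inv`: by `W_even`, `v = w² x` and `Wc b' v n = v² y` with `x, y ∈ ℤ[w]`, so
  `w = ε w⁴ x² y`, and `w ≠ 0`: `1 = w (ε w² x² y)`.
* `poly`: `v = w² V(w²) = A(w²)` and `Wc b' v n = v² V'(v²) = B(w²)`, so `w = ε B(w²)`, and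
  `w² = s - 2` for `s = w² + 2`: take `P = C ε * B.comp (X - 2)`.
* `root`: `minpoly ℤ w ∣ Wc b X (n+1)` because `aeval w (Wc b X (n+1)) = Wc b w (n+1) = 0`; so
  every root `z` of `minpoly ℤ w` satisfies `Wc b z (n+1) = 0`.
-/

set_option autoImplicit false

namespace Pool.Agent.TBK

open Pool.Agent.DFJ Polynomial

theorem aeval_W {A : Type*} [CommRing A] [Algebra ℤ A] (b : ℕ → ℤ) (z : A) (i : ℕ) :
    aeval z (Wc b (X : ℤ[X]) i) = Wc b z i := by
  have h := W_map (aeval z : ℤ[X] →ₐ[ℤ] A).toRingHom b X i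
  have e : (aeval z : ℤ[X] →ₐ[ℤ] A).toRingHom X = z := aeval_X z
  rw [e] at h
  exact h.symm

variable {n : ℕ} {b : ℕ → ℤ} {w : ℂ}

/-- the sign and the relation `w = ε W'_n(v)` -/
private theorem sign_rel (h : Cl n b w) : ∃ ε : ℤ, (ε = 1 ∨ ε = -1) ∧
    w = (ε : ℂ) * Wc (rv n b) (Wc b w n) n := by
  obtain ⟨ε, hε, hq⟩ := exists_sign h.close
  refine ⟨ε, hε, ?_⟩
  have hε2 : ((ε : ℂ)) ^ 2 = 1 := by
    rcases hε with h1 | h1 <;> rw [h1] <;> norm_num
  have h1 := (chain_rev h.close hε2 hq n le_rfl).1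
  rw [if_pos h.even, show n + 1 - n = 1 by omega, W_one] at h1
  exact h1

private theorem sign_sq {ε : ℤ} (hε : ε = 1 ∨ ε = -1) : ((ε : ℂ)) ^ 2 = 1 := by
  rcases hε with h1 | h1 <;> rw [h1] <;> norm_num

/-- the polynomial of `w` -/
private noncomputable def PW (n : ℕ) (b : ℕ → ℤ) (ε : ℤ) : ℤ[X] :=
  Wc (rv n b) (Wc b X n) n - C ε * X

private theorem aeval_WW {A : Type*} [CommRing A] [Algebra ℤ A] (n : ℕ) (b b' : ℕ → ℤ) (z : A) :
    aeval z (Wc b' (Wc b (X : ℤ[X]) n) n) = Wc b' (Wc b z n) n := by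
  have h := W_map (aeval z : ℤ[X] →ₐ[ℤ] A).toRingHom b' (Wc b X n) n
  have e : (aeval z : ℤ[X] →ₐ[ℤ] A).toRingHom (Wc b X n) = Wc b z n := aeval_W b z n
  rw [e] at h
  exact h.symm

private theorem aeval_PW {ε : ℤ} (hε : ε = 1 ∨ ε = -1)
    (hw : w = (ε : ℂ) * Wc (rv n b) (Wc b w n) n) : aeval w (PW n b ε) = 0 := by
  unfold PW
  rw [map_sub, map_mul, aeval_X, aeval_WW]
  have e : (aeval w (C ε) : ℂ) = (ε : ℂ) := by
    rw [aeval_C]
    simp
  rw [e]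
  have h2 := sign_sq hε
  have h3 : (ε : ℂ) * w = Wc (rv n b) (Wc b w n) n := by
    calc (ε : ℂ) * w = (ε : ℂ) * ((ε : ℂ) * Wc (rv n b) (Wc b w n) n) := by rw [← hw]
      _ = (ε : ℂ) ^ 2 * Wc (rv n b) (Wc b w n) n := by ring
      _ = Wc (rv n b) (Wc b w n) n := by rw [h2, one_mul]
  rw [h3, sub_self]

private theorem rv_ne (h : Cl n b w) : ∀ j, 1 ≤ j → j ≤ n → rv n b j ≠ 0 := by
  intro j h1 h2
  unfold rv
  exact neg_ne_zero.2 (h.ne _ (by omega) (by omega))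

private theorem GP_PW (h : Cl n b w) {ε : ℤ} : IsUnit (-(PW n b ε)).leadingCoeff := by
  have hpos := h.pos
  have heven := h.even
  have hn2 : 2 ≤ n := by
    obtain ⟨k, hk⟩ := heven
    omega
  obtain ⟨m, hm⟩ : ∃ m, n = m + 1 := ⟨n - 1, by omega⟩
  obtain ⟨g1, g2⟩ := deg_W h.ne GP_X m (by omega)
  rw [← hm, natDegree_X] at g2
  rw [← hm] at g1
  obtain ⟨g3, g4⟩ := deg_W (rv_ne h) g1 m (by omega)
  rw [← hm] at g3 g4
  have h5 : (C ε * X : ℤ[X]).natDegree ≤ 1 := (natDegree_C_mul_le ε X).trans natDegree_X.le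
  have h6 := g3.sub (r := C ε * X) (by omega)
  have e : -(PW n b ε) = C ε * X - Wc (rv n b) (Wc b X n) n := by
    unfold PW
    ring
  rw [e]
  exact h6.1.1

theorem Cl.integral (h : Cl n b w) : IsIntegral ℤ w := by
  obtain ⟨ε, hε, hw⟩ := sign_rel h
  have h1 := aeval_PW hε hw
  obtain ⟨u, hu⟩ := GP_PW h (ε := ε)
  refine ⟨C ((u⁻¹ : ℤˣ) : ℤ) * -(PW n b ε), ?_, ?_⟩
  · unfold Polynomial.Monic
    rw [leadingCoeff_mul, leadingCoeff_C, ← hu]
    exact Units.inv_mul u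
  · have h2 : aeval w (C ((u⁻¹ : ℤˣ) : ℤ) * -(PW n b ε)) = 0 := by
      rw [map_mul, map_neg, h1, neg_zero, mul_zero]
    exact h2

private theorem derivative_comp_zero (b : ℕ → ℤ) (n : ℕ) {y : (ZMod 2)[X]}
    (hy : derivative y = 0) : derivative (Wc b y n) = 0 := by
  have h1 := W_map (compRingHom y) b (X : (ZMod 2)[X]) n
  have e : (compRingHom y) (X : (ZMod 2)[X]) = y := by
    rw [coe_compRingHom_apply, X_comp]
  rw [e] at h1
  rw [h1, coe_compRingHom_apply, derivative_comp, hy, zero_mul]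

private theorem derivative_rd_even (V : ℤ[X]) :
    derivative (rd (X ^ 2 * V.comp (X ^ 2))) = 0 := by
  have h2 : (2 : (ZMod 2)[X]) = 0 := by
    have : ((2 : ℕ) : (ZMod 2)[X]) = 0 := CharP.cast_eq_zero _ 2
    exact_mod_cast this
  have hX : derivative ((X : (ZMod 2)[X]) ^ 2) = 0 := by
    rw [derivative_X_pow]
    have : (C ((2 : ℕ) : ZMod 2) : (ZMod 2)[X]) = 0 := by
      have h3 : ((2 : ℕ) : ZMod 2) = 0 := by decide
      rw [h3, C_0]
    rw [this, zero_mul]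
  rw [rd, Polynomial.map_mul, Polynomial.map_pow, Polynomial.map_X, Polynomial.map_comp,
    Polynomial.map_pow, Polynomial.map_X, derivative_mul, derivative_comp, hX]
  simp

theorem Cl.sep (h : Cl n b w) : (rd (minpoly ℤ w)).Separable := by
  obtain ⟨ε, hε, hw⟩ := sign_rel h
  have h1 := minpoly.isIntegrallyClosed_dvd h.integral (aeval_PW hε hw)
  have h2 : rd (minpoly ℤ w) ∣ rd (PW n b ε) := Polynomial.map_dvd _ h1
  refine Separable.of_dvd ?_ h2
  obtain ⟨V, hV⟩ := W_even b h.even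
  have h3 : rd (PW n b ε) = Wc (rv n b) (rd (Wc b X n)) n - C 1 * X := by
    have h4 : rd (PW n b ε) = mapRingHom (Int.castRingHom (ZMod 2)) (PW n b ε) := rfl
    rw [h4]
    unfold PW
    rw [map_sub, ← W_map, map_mul, coe_mapRingHom, map_X, map_C]
    congr 3
    rcases hε with h5 | h5
    · rw [h5]; simp
    · rw [h5]; decide
  rw [h3, separable_def]
  have h6 : derivative (Wc (rv n b) (rd (Wc b X n)) n - C 1 * X : (ZMod 2)[X]) = -1 := by
    rw [derivative_sub, derivative_comp_zero (rv n b) n (by rw [hV]; exact derivative_rd_even V)]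
    simp
  rw [h6]
  exact ⟨0, -1, by ring⟩

theorem Cl.ok (h : Cl n b w) : Ok (Zw w) := Ok_Zw h.integral h.sep

/-- `w = ε v² y`, `v = w² x` -/
private theorem even_val {A : Type*} [CommRing A] [Algebra ℤ A] (b : ℕ → ℤ) {V : ℤ[X]}
    (hV : Wc b (X : ℤ[X]) n = X ^ 2 * V.comp (X ^ 2)) (z : A) :
    Wc b z n = z ^ 2 * aeval (z ^ 2) V := by
  rw [← aeval_W, hV, map_mul, map_pow, aeval_X, aeval_comp, map_pow, aeval_X]

theorem Cl.inv (h : Cl n b w) : ∃ w' : Zw w, wR w * w' = 1 := by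
  obtain ⟨ε, hε, hw⟩ := sign_rel h
  obtain ⟨V, hV⟩ := W_even b h.even
  obtain ⟨V', hV'⟩ := W_even (rv n b) h.even
  have e1 : Wc b (wR w) n = (wR w) ^ 2 * aeval ((wR w) ^ 2) V := even_val b hV (wR w)
  have e2 : Wc (rv n b) (Wc b (wR w) n) n =
      (Wc b (wR w) n) ^ 2 * aeval ((Wc b (wR w) n) ^ 2) V' := even_val (rv n b) hV' _
  refine ⟨(ε : Zw w) * (wR w) ^ 2 * (aeval ((wR w) ^ 2) V) ^ 2 *
    aeval ((Wc b (wR w) n) ^ 2) V', ?_⟩
  apply Subtype.ext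
  have hc : ((wR w : Zw w) : ℂ) = w := rfl
  have e3 : ((Wc (rv n b) (Wc b (wR w) n) n : Zw w) : ℂ) = Wc (rv n b) (Wc b w n) n := by
    have g1 := W_map (Zw w).val.toRingHom b (wR w) n
    have g2 := W_map (Zw w).val.toRingHom (rv n b) (Wc b (wR w) n) n
    rw [← g1] at g2
    exact g2.symm
  rw [e2] at e3
  have e4 : ((Wc b (wR w) n : Zw w) : ℂ) = w ^ 2 * ((aeval ((wR w) ^ 2) V : Zw w) : ℂ) := by
    rw [e1]
    push_cast
    rfl
  rw [MulMemClass.coe_mul, SubmonoidClass.coe_pow, e4] at e3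
  have key : w * (w * ((ε : ℂ) * w ^ 2 * ((aeval ((wR w) ^ 2) V : Zw w) : ℂ) ^ 2 *
      ((aeval ((Wc b (wR w) n) ^ 2) V' : Zw w) : ℂ))) = w * 1 := by
    rw [mul_one]
    conv_rhs => rw [hw, ← e3]
    ring
  have key2 := mul_left_cancel₀ h.w0 key
  have hεc : ((ε : Zw w) : ℂ) = (ε : ℂ) := by norm_cast
  rw [MulMemClass.coe_mul, MulMemClass.coe_mul, MulMemClass.coe_mul, MulMemClass.coe_mul,
    SubmonoidClass.coe_pow, SubmonoidClass.coe_pow, OneMemClass.coe_one, hc, hεc]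
  exact key2

theorem Cl.poly (h : Cl n b w) : ∃ P : ℤ[X], aeval (w ^ 2 + 2) P = w := by
  obtain ⟨ε, hε, hw⟩ := sign_rel h
  obtain ⟨V, hV⟩ := W_even b h.even
  obtain ⟨V', hV'⟩ := W_even (rv n b) h.even
  have e1 : Wc b w n = w ^ 2 * aeval (w ^ 2) V := even_val b hV w
  have e2 : Wc (rv n b) (Wc b w n) n = (Wc b w n) ^ 2 * aeval ((Wc b w n) ^ 2) V' :=
    even_val (rv n b) hV' _
  refine ⟨C ε * ((X * V) ^ 2 * V'.comp ((X * V) ^ 2)).comp (X - 2), ?_⟩
  have e3 : aeval (w ^ 2 + 2) (X - 2 : ℤ[X]) = w ^ 2 := by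
    rw [map_sub, aeval_X, map_ofNat]
    ring
  have e4 : (aeval (w ^ 2 + 2) (C ε) : ℂ) = (ε : ℂ) := by
    rw [aeval_C]
    simp
  rw [map_mul, e4, aeval_comp, e3, map_mul, aeval_comp, map_pow, map_mul, aeval_X, ← e1, ← e2]
  exact hw.symm

theorem Cl.root (h : Cl n b w) {z : ℂ} (hz : aeval z (minpoly ℤ w) = 0) :
    Wc b z (n + 1) = 0 := by
  have h1 : aeval w (Wc b (X : ℤ[X]) (n + 1)) = 0 := by
    rw [aeval_W]
    exact h.close
  obtain ⟨k, hk⟩ := minpoly.isIntegrallyClosed_dvd h.integral h1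
  rw [← aeval_W, hk, map_mul, hz, zero_mul]

end Pool.Agent.TBK
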