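import Pool.Agent.DFJ.Real
import Pool.Agent.TBK.OkW
import Pool.Agent.TBK.Cheb2

/-!
# TBK/Lval: the top coefficient `LL b n w` for a closed chain

* `W_sq_ne`: suppose `W_j² = -4` (in ℂ). In `R = ℤ[w]` (`Zw w`, injective into ℂ; `W_map` for the
  inclusion) put `x = Wc b (wR w) j`, `x² = -4`. `h.ok : Ok R`. `2 ∣ x²` so `2 ∣ x` (`ok.red`),
  `x = 2 v`, `4 v² = -4`, so `v² = -1` (`ok.cancel` twice). `(v+1)² = v² + 2v + 1 = 2v`, so
  `2 ∣ v + 1`, `v = -1 + 2y`, `-1 = v² = 1 - 4y + 4y²`, so `2 (1 - 2y + 2y²) = 0`, so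
  `1 = 2 (y - y²)` (`ok.inj`), contradiction to `ok.nun`.
* `LL_sq`: in any commutative ring, `4 ∣ LL b n w - P²` with `P = ∏ p_j`,
  `p_j = W_j al_k(s_j)` if `|b_j| = 2k`, `p_j = al_{k+1}(s_j) + al_k(s_j)` if `|b_j| = 2k+1`,
  because `PP (2k) s = (W² + 4) al_k²` and `PP (2k+1) s = (…)²` (congruence of products:
  `Finset.prod_induction` or induction on the finset; write `LL = ∏ (p_j² + 4 r_j)`).
* `LL_ne_neg`: if `LL b n w = -1` then in `R` `4 ∣ -1 - P²`, so `2 ∣ P² - 1²`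
  (`P² - 1 = -(−1 − P²) − 2`), so `2 ∣ P - 1` (`ok.sq_congr`), `P = 1 + 2y`,
  `P² = 1 + 4(y + y²)`, so `4 ∣ -1 - 1 = -2`, so `2 ∣ 1` (`ok.dvd_of_four` up to sign),
  contradiction.
* `LL_ne_zero`: `Finset.prod_ne_zero_iff`, `PP_ne_NT` (with `s_j = W_j² + 2 ≠ -2` by `W_sq_ne`).
* `LL_single`: the other factors are `PP 1 = 1` (`Finset.prod_eq_single`), then `PP_eq_one`.
* `LL_real`: let `P` be as in `Cl.poly`, `s = w² + 2`. The polynomial
  `F = LL b n P - 1 ∈ ℤ[X]` has `aeval s F = LL b n w - 1 = 0` (`LL_map` for the evaluation), so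
  `minpoly ℚ s ∣ F` (over ℚ) and `aeval r F = 0`: `LL b n (aeval r P) = 1` in ℝ. But in ℝ every
  factor `PP a (x² + 2)` with `a ≥ 1` is `≥ 1` and it is `> 1` for `a ≥ 2` (`PP_ge`, `PP_gt` in
  DFJ/Real), so all `|b_j| = 1`.
-/

set_option autoImplicit false

namespace Pool.Agent.TBK

open Pool.Agent.DFJ Polynomial

variable {n : ℕ} {b : ℕ → ℤ} {w : ℂ}

private theorem coe_W (b : ℕ → ℤ) (w : ℂ) (j : ℕ) :
    ((Wc b (wR w) j : Zw w) : ℂ) = Wc b w j :=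
  (W_map (Zw w).val.toRingHom b (wR w) j).symm

private theorem coe_LL (b : ℕ → ℤ) (n : ℕ) (w : ℂ) :
    ((LL b n (wR w) : Zw w) : ℂ) = LL b n w :=
  (LL_map (Zw w).val.toRingHom b n (wR w)).symm

theorem Cl.W_sq_ne (h : Cl n b w) (j : ℕ) : Wc b w j ^ 2 ≠ -4 := by
  intro hc
  have ok := h.ok
  have h1 : (Wc b (wR w) j) ^ 2 = (-4 : Zw w) := by
    apply Subtype.ext
    have h2 : (((Wc b (wR w) j) ^ 2 : Zw w) : ℂ) = ((Wc b (wR w) j : Zw w) : ℂ) ^ 2 := rfl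
    rw [h2, coe_W, hc]
    push_cast
    rfl
  obtain ⟨v, hv⟩ := ok.red (Wc b (wR w) j) ⟨-2, by rw [h1]; ring⟩
  rw [hv] at h1
  have h3 : v ^ 2 = -1 := by
    apply ok.cancel
    apply ok.cancel
    linear_combination h1
  exact ok.no_neg (x := v) (q := 0) (by rw [h3]; ring)

theorem LL_sq {R : Type*} [CommRing R] (b : ℕ → ℤ) (n : ℕ) (w : R) :
    ∃ P : R, (4 : R) ∣ LL b n w - P ^ 2 := by
  unfold LL
  refine Finset.prod_induction _ (fun x : R => ∃ P : R, (4 : R) ∣ x - P ^ 2) ?_ ?_ ?_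
  · rintro x y ⟨P, c, hc⟩ ⟨Q, d, hd⟩
    refine ⟨P * Q, P ^ 2 * d + c * y, ?_⟩
    linear_combination y * hc + P ^ 2 * hd
  · exact ⟨1, 0, by ring⟩
  · intro j _
    obtain ⟨k, hk⟩ := Nat.even_or_odd' (b j).natAbs
    rcases hk with hk | hk
    · rw [hk, PP_even]
      exact ⟨Wc b w j * al k (Wc b w j ^ 2 + 2), al k (Wc b w j ^ 2 + 2) ^ 2, by ring⟩
    · rw [hk, PP_odd]
      exact ⟨al (k + 1) (Wc b w j ^ 2 + 2) + al k (Wc b w j ^ 2 + 2), 0, by ring⟩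

theorem Cl.LL_ne_neg (h : Cl n b w) : LL b n w ≠ -1 := by
  intro hc
  have ok := h.ok
  have h1 : LL b n (wR w) = (-1 : Zw w) := by
    apply Subtype.ext
    rw [coe_LL, hc]
    push_cast
    rfl
  obtain ⟨P, c, hP⟩ := LL_sq b n (wR w)
  rw [h1] at hP
  exact ok.no_neg (x := P) (q := c) (by linear_combination -hP)

private theorem Cl.s_ne (h : Cl n b w) (j : ℕ) : Wc b w j ^ 2 + 2 ≠ -2 := by
  intro hc
  exact h.W_sq_ne j (by linear_combination hc)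

private theorem Cl.abs_pos (h : Cl n b w) {j : ℕ} (hj : 1 ≤ j) (hj' : j ≤ n) :
    1 ≤ (b j).natAbs := Nat.one_le_iff_ne_zero.2 (Int.natAbs_ne_zero.2 (h.ne j hj hj'))

theorem Cl.LL_ne_zero (h : Cl n b w) (hs : NTs n b w) : LL b n w ≠ 0 := by
  unfold LL
  rw [Finset.prod_ne_zero_iff]
  intro j hj
  rw [Finset.mem_Icc] at hj
  exact PP_ne_NT (hs j hj.1 hj.2) (h.s_ne j) (h.abs_pos hj.1 hj.2)

theorem LL_ones {R : Type*} [CommRing R] {w : R} (hb : ∀ j, 1 ≤ j → j ≤ n → (b j).natAbs = 1) :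
    LL b n w = 1 := by
  unfold LL
  refine Finset.prod_eq_one fun j hj => ?_
  rw [Finset.mem_Icc] at hj
  rw [hb j hj.1 hj.2, PP_one]

theorem Cl.LL_single (h : Cl n b w) (hs : NTs n b w) {i : ℕ} (hi : 1 ≤ i) (hin : i ≤ n)
    (hb : ∀ j, 1 ≤ j → j ≤ n → j ≠ i → (b j).natAbs = 1) (hL : LL b n w = 1) :
    (b i).natAbs = 1 := by
  unfold LL at hL
  rw [Finset.prod_eq_single i] at hL
  · exact PP_eq_one (hs i hi hin) (h.s_ne i) (h.abs_pos hi hin) hL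
  · intro j hj hji
    rw [Finset.mem_Icc] at hj
    rw [hb j hj.1 hj.2 hji, PP_one]
  · intro hc
    exact absurd (Finset.mem_Icc.2 ⟨hi, hin⟩) hc

theorem Cl.LL_real (h : Cl n b w) {r : ℝ} (hr : aeval r (minpoly ℚ (w ^ 2 + 2)) = 0)
    (hL : LL b n w = 1) : ∀ j, 1 ≤ j → j ≤ n → (b j).natAbs = 1 := by
  obtain ⟨P, hP⟩ := h.poly
  have e : ∀ {A : Type} [CommRing A] [Algebra ℤ A] (x : A),
      aeval x (LL b n P) = LL b n (aeval x P) := fun x =>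
    (LL_map (aeval x : ℤ[X] →ₐ[ℤ] _).toRingHom b n P).symm
  have h1 : aeval (w ^ 2 + 2) ((LL b n P - 1).map (algebraMap ℤ ℚ)) = 0 := by
    rw [aeval_map_algebraMap, map_sub, map_one, e, hP, hL, sub_self]
  obtain ⟨K, hK⟩ := minpoly.dvd ℚ (w ^ 2 + 2) h1
  have h2 : aeval r ((LL b n P - 1).map (algebraMap ℤ ℚ)) = 0 := by
    rw [hK, map_mul, hr, zero_mul]
  rw [aeval_map_algebraMap, map_sub, map_one, e, sub_eq_zero] at h2
  intro j hj hj'
  by_contra hne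
  have hpos := h.abs_pos hj hj'
  have hge : 2 ≤ (b j).natAbs := by omega
  have hx : ∀ i, 2 ≤ Wc b (aeval r P) i ^ 2 + 2 := fun i => by
    nlinarith [sq_nonneg (Wc b (aeval r P) i)]
  have h3 := PP_gt (hx j) hge
  unfold LL at h2
  rw [← Finset.mul_prod_erase _ _ (Finset.mem_Icc.2 ⟨hj, hj'⟩)] at h2
  have h4 : 1 ≤ ∏ i ∈ (Finset.Icc 1 n).erase j,
      PP (b i).natAbs (Wc b (aeval r P) i ^ 2 + 2) := by
    refine Finset.prod_induction _ (fun x : ℝ => 1 ≤ x)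
      (fun a b ha hb => one_le_mul_of_one_le_of_one_le ha hb) le_rfl ?_
    intro i hi
    have hi' := Finset.mem_Icc.1 (Finset.mem_erase.1 hi).2
    exact PP_ge (hx i) (h.abs_pos hi'.1 hi'.2)
  nlinarith

end Pool.Agent.TBK
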