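import Pool.Agent.DFJ.Mat
import Pool.Agent.TBK.Lval

/-!
# TBK/FixW: for a fixed `w` only finitely many values of `b_i` are possible

Notation: `β = Function.update b i c`; `x = Wc b w i = Wc β w i`, `v = (Wc b w (i-1), Qc b w (i-1))`
do not depend on `c` (`W_congr`, `Q_congr`; write `i = i' + 1`). By `act_succ`
`act x c v = (Wc β w (i+1), Qc β w i)`.

Case 1: `x ≠ 0`. Let `C` be the set in question, and suppose it is infinite.
(a) The vectors `act x c v`, `c ∈ C`, lie in a finite set `V`. Let `c ∈ C`,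
`y = Wc β w n`, `ε = ± 1` from `exists_sign`, `β' = rv n β`. `chain_rev` with `j = n - i`
(`n + 1 - j = i + 1`, `n - j = i`): `Wc β w (i+1) = (± 1) Wc β' y (n-i)`,
`x = Wc β w i = (± 1) Wc β' y (n - i + 1)`, `Qc β w i = (± 1) Qc β' y (n-i)`.
The values `Wc β' y (n-i)`, `Wc β' y (n-i+1)`, `Qc β' y (n-i)` depend only on
`β'_j = -β (n+1-j)`, `1 ≤ j ≤ n - i`, that is on `β_{i+1}, …, β_n`, so `β'` may be replaced by
`b' = rv n b` (`W_congr`, `Q_congr`). So `y` is a root of `Wc b' X (n-i+1) ∓ x`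
(map the polynomial of `ℤ[X]` to `ℂ[X]`), a nonzero polynomial because `Wc b' X (n-i+1)` is `GP`
(`deg_W` with `p = X`; hypotheses for `1 ≤ j ≤ n - i` only): finitely many `y`, hence finitely
many vectors (signs times `(Wc b' y (n-i), Qc b' y (n-i))`).
(b) By (a) there are `c ≠ c'` in `C` with `act x c v = act x c' v`
(`Set.Infinite.exists_ne_map_eq_of_mapsTo`), so with `m = |c - c'| ≥ 1` (exchange `c, c'` if
necessary) `act x m v = v`, by `act_add` and `act_inj`.
(c) `v ≠ 0`: by `chain_form` (index `i - 1`), `v = 0` would give `0 = x²`.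
(d) So the matrix `MM x ^ m - 1` has a kernel, `det (MM x ^ m - 1) = 0 = 2 - trace (MM x ^ m)`
(determinant 1), and `trace (MM x ^ m) = te m (x² + 2)` (trace of `MM x` is `2 + x²`; Cayley
Hamilton recursion, as `mx_pow_step`, `tr_pow` in DFJ/Mat, which apply to `SLC = SL(2,ℂ)`:
`MM x : SLC`). By `te_eq_two` (`NT (x²+2)` from `NTs`, `x² + 2 ≠ -2` from `W_sq_ne`),
`x² + 2 = 2`, `x = 0`, contradiction.

Case 2: `x = 0`. Then `act x c v = v` (`act_w0`), so `Wc β w j`, for all `j`, does not depend on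
`c` (for `j ≤ i` clear; then by induction with `act_succ`). So
`LL β n w = PP |c| (0² + 2) * L'` with `L'` independent of `c` (`Finset.mul_prod_erase`), and
`PP |c| 2 = c²` (`PP_at_two`). `LL = ± 1` gives `c² L' = ± 1`, so `c⁴ L'² = 1`; hence all the
`c` in the set have the same `c⁴` (if there are any), so at most two values.
-/

set_option autoImplicit false

namespace Pool.Agent.TBK

open Pool.Agent.DFJ Polynomial

private theorem upd_low (b : ℕ → ℤ) (w : ℂ) (k : ℕ) (c : ℤ) :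
    Wc (Function.update b (k + 1) c) w (k + 1) = Wc b w (k + 1) ∧
      Wc (Function.update b (k + 1) c) w k = Wc b w k ∧
      Qc (Function.update b (k + 1) c) w k = Qc b w k := by
  refine ⟨W_congr w fun j hj hj' => ?_, W_congr w fun j hj hj' => ?_,
    Q_congr w fun j hj hj' => ?_⟩
  all_goals exact Function.update_of_ne (by omega) _ _

private theorem upd_act (b : ℕ → ℤ) (w : ℂ) (k : ℕ) (c : ℤ) :
    act (Wc b w (k + 1)) c (Wc b w k, Qc b w k) =
      (Wc (Function.update b (k + 1) c) w (k + 2),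
        Qc (Function.update b (k + 1) c) w (k + 1)) := by
  have h := act_succ (Function.update b (k + 1) c) w k
  obtain ⟨h1, h2, h3⟩ := upd_low b w k c
  rw [h1, h2, h3, Function.update_self] at h
  exact h

private theorem fib_fin {n : ℕ} {b : ℕ → ℤ} (hb : ∀ j, 1 ≤ j → j ≤ n → b j ≠ 0) (z : ℂ) :
    {y : ℂ | Wc b y (n + 1) = z}.Finite := by
  obtain ⟨⟨-, hd⟩, -⟩ := deg_W hb GP_X n le_rfl
  have hne : ((Wc b (X : ℤ[X]) (n + 1)).map (Int.castRingHom ℂ) - C z) ≠ 0 := by
    intro h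
    have h1 : ((Wc b (X : ℤ[X]) (n + 1)).map (Int.castRingHom ℂ)) = C z := sub_eq_zero.1 h
    have h2 := congrArg natDegree h1
    rw [natDegree_C, natDegree_map_eq_of_injective (RingHom.injective_int _)] at h2
    omega
  refine (finite_setOfPred_isRoot hne).subset fun y hy => ?_
  have h3 : Wc b y (n + 1) = z := hy
  change IsRoot _ y
  rw [IsRoot.def, eval_sub, eval_C, eval_map, ← h3, ← aeval_W b y (n + 1), aeval_def]
  simp

private theorem kernel_te {x : ℂ} {d : ℤ} {v : ℂ × ℂ} (hv : ¬ (v.1 = 0 ∧ v.2 = 0))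
    (h : act x d v = v) : te d.natAbs (x ^ 2 + 2) = 2 := by
  have ht := tr_zpow (MM x : SLC) d
  have h0 : tr (MM x : SLC) = x ^ 2 + 2 := by
    unfold tr mx MM
    rw [Matrix.trace_fin_two]
    simp
    ring
  rw [h0] at ht
  rw [← ht]
  have hdet : (MM x ^ d).val 0 0 * (MM x ^ d).val 1 1 -
      (MM x ^ d).val 0 1 * (MM x ^ d).val 1 0 = 1 := by
    rw [← Matrix.det_fin_two]
    exact (MM x ^ d).property
  have h1 := congrArg Prod.fst h
  have h2 := congrArg Prod.snd h
  unfold act at h1 h2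
  simp only [] at h1 h2
  unfold tr mx
  rw [Matrix.trace_fin_two]
  generalize (MM x ^ d).val 0 0 = p at *
  generalize (MM x ^ d).val 0 1 = q at *
  generalize (MM x ^ d).val 1 0 = r at *
  generalize (MM x ^ d).val 1 1 = s at *
  by_cases hv1 : v.1 = 0
  · have hv2 : v.2 ≠ 0 := fun h' => hv ⟨hv1, h'⟩
    apply mul_right_cancel₀ hv2
    linear_combination r * h1 - (p - 1) * h2 + v.2 * hdet
  · apply mul_right_cancel₀ hv1
    linear_combination (-(s - 1)) * h1 + q * h2 + v.1 * hdet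

private theorem case_ne {n k : ℕ} (hkn : k + 1 ≤ n) {b : ℕ → ℤ}
    (hb : ∀ j, 1 ≤ j → j ≤ n → j ≠ k + 1 → b j ≠ 0) (w : ℂ) (hx : Wc b w (k + 1) ≠ 0) :
    {c : ℤ | Cl n (Function.update b (k + 1) c) w ∧
      NTs n (Function.update b (k + 1) c) w}.Finite := by
  set C := {c : ℤ | Cl n (Function.update b (k + 1) c) w ∧
      NTs n (Function.update b (k + 1) c) w} with hC
  by_contra hinf
  have hinf' : C.Infinite := hinf
  obtain ⟨l, rfl⟩ : ∃ l, n = k + 1 + l := ⟨n - (k + 1), by omega⟩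
  set n := k + 1 + l with hn
  set x := Wc b w (k + 1) with hxd
  set v : ℂ × ℂ := (Wc b w k, Qc b w k) with hvd
  have hb' : ∀ j, 1 ≤ j → j ≤ l → rv n b j ≠ 0 := by
    intro j hj hjl
    unfold rv
    rw [neg_ne_zero]
    exact hb _ (by omega) (by omega) (by omega)
  have hfin : ({y : ℂ | Wc (rv n b) y (l + 1) = x} ∪
      {y : ℂ | Wc (rv n b) y (l + 1) = -x}).Finite := (fib_fin hb' x).union (fib_fin hb' (-x))
  set Y := {y : ℂ | Wc (rv n b) y (l + 1) = x} ∪ {y : ℂ | Wc (rv n b) y (l + 1) = -x} with hY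
  have hS : ({1, -1} : Set ℂ).Finite := by simp
  have hV : ((fun t : ℂ × ℂ × ℂ => ((t.2.1 * Wc (rv n b) t.1 l, t.2.2 * Qc (rv n b) t.1 l) :
      ℂ × ℂ)) '' (Y ×ˢ (({1, -1} : Set ℂ) ×ˢ ({1, -1} : Set ℂ)))).Finite :=
    (hfin.prod (hS.prod hS)).image _
  have hmaps : Set.MapsTo (fun c : ℤ => act x c v) C
      ((fun t : ℂ × ℂ × ℂ => ((t.2.1 * Wc (rv n b) t.1 l, t.2.2 * Qc (rv n b) t.1 l) :
      ℂ × ℂ)) '' (Y ×ˢ (({1, -1} : Set ℂ) ×ˢ ({1, -1} : Set ℂ)))) := by
    rintro c ⟨hcl, -⟩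
    obtain ⟨ε, hε, hq⟩ := exists_sign hcl.close
    have hε2 : ((ε : ℤ) : ℂ) ^ 2 = 1 := by
      rcases hε with rfl | rfl <;> norm_num
    have hεS : ((ε : ℤ) : ℂ) ∈ ({1, -1} : Set ℂ) := by
      rcases hε with rfl | rfl <;> simp
    obtain ⟨g1, g2, g3⟩ := chain_rev hcl.close hε2 hq l (by omega)
    have e1 : n + 1 - l = k + 2 := by omega
    have e2 : n - l = k + 1 := by omega
    rw [e1] at g1
    rw [e2] at g2 g3
    have hrv : ∀ j, 1 ≤ j → j ≤ l → rv n (Function.update b (k + 1) c) j = rv n b j := by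
      intro j hj hjl
      unfold rv
      rw [Function.update_of_ne (by omega)]
    set y := Wc (Function.update b (k + 1) c) w n with hy
    rw [W_congr y fun j hj hj' => hrv j hj (by omega)] at g1 g2
    rw [Q_congr y fun j hj hj' => hrv j hj (by omega)] at g3
    rw [(upd_low b w k c).1] at g2
    refine ⟨(y, (if Even l then ((ε : ℤ) : ℂ) else 1), ((ε : ℤ) : ℂ)), ⟨?_, ?_, hεS⟩, ?_⟩
    · change y ∈ Y
      have h1 : (if Even l then (1 : ℂ) else ((ε : ℤ) : ℂ)) = 1 ∨
          (if Even l then (1 : ℂ) else ((ε : ℤ) : ℂ)) = -1 := by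
        split_ifs
        · exact Or.inl rfl
        · rcases hε with rfl | rfl
          · left; norm_num
          · right; norm_num
      rcases h1 with h1 | h1
      · left
        rw [h1, one_mul] at g2
        exact g2.symm
      · right
        rw [h1] at g2
        change Wc (rv n b) y (l + 1) = -x
        rw [hxd, g2]
        ring
    · change (if Even l then ((ε : ℤ) : ℂ) else 1) ∈ ({1, -1} : Set ℂ)
      split_ifs
      · exact hεS
      · simp
    · change _ = act x c v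
      rw [hvd, hxd, upd_act b w k c, g1, g3]
  obtain ⟨c, hc, c', hc', hne, heq⟩ := hinf'.exists_ne_map_eq_of_mapsTo hmaps hV
  have hact : act x (c - c') v = v := by
    have h1 : act x (c' + (c - c')) v = act x c' v := by
      have e : c' + (c - c') = c := by ring
      rw [e]
      exact heq
    rw [act_add] at h1
    exact act_inj h1
  have hv : ¬ (v.1 = 0 ∧ v.2 = 0) := by
    rintro ⟨h1, h2⟩
    have h3 := chain_form b w k
    change Wc b w k = 0 at h1
    change Qc b w k = 0 at h2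
    rw [h1, h2] at h3
    apply hx
    have h4 : Wc b w (k + 1) ^ 2 = 0 := by linear_combination -h3
    exact pow_eq_zero_iff (two_ne_zero) |>.1 h4
  have hte := kernel_te hv hact
  obtain ⟨hcl, hnt⟩ := hc
  have hNT := hnt (k + 1) (by omega) (by omega)
  rw [(upd_low b w k c).1] at hNT
  have hW := hcl.W_sq_ne (k + 1)
  rw [(upd_low b w k c).1] at hW
  have h2 : x ^ 2 + 2 ≠ -2 := by
    intro h
    apply hW
    linear_combination h
  have h3 := te_eq_two hNT h2 (m := (c - c').natAbs) (by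
    have : c - c' ≠ 0 := sub_ne_zero.2 hne
    omega) hte
  apply hx
  have h4 : x ^ 2 = 0 := by linear_combination h3
  exact pow_eq_zero_iff (two_ne_zero) |>.1 h4

private theorem upd_all {b : ℕ → ℤ} {w : ℂ} {k : ℕ} (hx : Wc b w (k + 1) = 0) (c : ℤ) (j : ℕ) :
    Wc (Function.update b (k + 1) c) w j = Wc b w j ∧
      Wc (Function.update b (k + 1) c) w (j + 1) = Wc b w (j + 1) ∧
      Qc (Function.update b (k + 1) c) w j = Qc b w j := by
  induction j with
  | zero => exact ⟨rfl, rfl, rfl⟩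
  | succ j ih =>
    obtain ⟨h1, h2, h3⟩ := ih
    by_cases hj : j = k
    · subst hj
      refine ⟨h2, ?_, ?_⟩
      · rw [W_step, W_step, h1, h2, h3, hx, act_w0, act_w0]
      · rw [Q_step, Q_step, h1, h2, h3, hx, act_w0, act_w0]
    · have e : Function.update b (k + 1) c (j + 1) = b (j + 1) :=
        Function.update_of_ne (by omega) _ _
      refine ⟨h2, ?_, ?_⟩
      · rw [W_step, W_step, h1, h2, h3, e]
      · rw [Q_step, Q_step, h1, h2, h3, e]

private theorem case_zero {n k : ℕ} (hkn : k + 1 ≤ n) {b : ℕ → ℤ} (w : ℂ)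
    (hx : Wc b w (k + 1) = 0) :
    {c : ℤ | LL (Function.update b (k + 1) c) n w = 1 ∨
      LL (Function.update b (k + 1) c) n w = -1}.Finite := by
  set L := ∏ j ∈ (Finset.Icc 1 n).erase (k + 1), PP (b j).natAbs (Wc b w j ^ 2 + 2) with hL
  have hLL : ∀ c : ℤ, LL (Function.update b (k + 1) c) n w = (c : ℂ) ^ 2 * L := by
    intro c
    unfold LL
    rw [← Finset.mul_prod_erase (Finset.Icc 1 n) _
      (show k + 1 ∈ Finset.Icc 1 n from Finset.mem_Icc.2 ⟨by omega, hkn⟩)]
    congr 1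
    · rw [(upd_low b w k c).1, hx, Function.update_self]
      have e : (0 : ℂ) ^ 2 + 2 = 2 := by ring
      rw [e, PP_at_two]
      have h1 : ((c.natAbs : ℂ)) = (((c.natAbs : ℤ)) : ℂ) := (Int.cast_natCast _).symm
      rw [h1, ← Int.cast_pow, Int.natAbs_sq, Int.cast_pow]
    · apply Finset.prod_congr rfl
      intro j hj
      have hj' : j ≠ k + 1 := (Finset.mem_erase.1 hj).1
      rw [Function.update_of_ne hj', (upd_all hx c j).1]
  have h4 : ∀ c : ℤ, (LL (Function.update b (k + 1) c) n w = 1 ∨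
      LL (Function.update b (k + 1) c) n w = -1) → (c : ℂ) ^ 4 * L ^ 2 = 1 := by
    intro c hc
    rw [hLL] at hc
    have h5 : (c : ℂ) ^ 4 * L ^ 2 = ((c : ℂ) ^ 2 * L) ^ 2 := by ring
    rw [h5]
    rcases hc with hc | hc <;> rw [hc] <;> norm_num
  rcases Set.eq_empty_or_nonempty {c : ℤ | LL (Function.update b (k + 1) c) n w = 1 ∨
      LL (Function.update b (k + 1) c) n w = -1} with he | ⟨c₀, hc₀⟩
  · rw [he]
    exact Set.finite_empty
  · refine Set.Finite.subset (Set.toFinite ({c₀, -c₀} : Set ℤ)) fun c hc => ?_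
    have h5 := h4 c hc
    have h6 := h4 c₀ hc₀
    have hL0 : L ^ 2 ≠ 0 := by
      intro h
      rw [h, mul_zero] at h6
      exact zero_ne_one h6
    have h7 : (c : ℂ) ^ 4 = (c₀ : ℂ) ^ 4 := by
      apply mul_right_cancel₀ hL0
      rw [h5, h6]
    have h8 : c ^ 4 = c₀ ^ 4 := by exact_mod_cast h7
    have h9 : (c ^ 2) ^ 2 = (c₀ ^ 2) ^ 2 := by
      rw [← pow_mul, ← pow_mul]
      exact h8
    have h10 : c ^ 2 = c₀ ^ 2 := by
      rcases sq_eq_sq_iff_eq_or_eq_neg.1 h9 with h | h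
      · exact h
      · nlinarith [sq_nonneg c, sq_nonneg c₀]
    rcases sq_eq_sq_iff_eq_or_eq_neg.1 h10 with h | h
    · left; exact h
    · right; exact h

theorem fix_w {n i : ℕ} (hn : Even n) (hi : 1 ≤ i) (hin : i ≤ n) {b : ℕ → ℤ}
    (hb : ∀ j, 1 ≤ j → j ≤ n → j ≠ i → b j ≠ 0) (w : ℂ) :
    {c : ℤ | Cl n (Function.update b i c) w ∧ NTs n (Function.update b i c) w ∧
      (LL (Function.update b i c) n w = 1 ∨ LL (Function.update b i c) n w = -1)}.Finite := by
  obtain ⟨k, rfl⟩ : ∃ k, i = k + 1 := ⟨i - 1, by omega⟩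
  by_cases hx : Wc b w (k + 1) = 0
  · exact (case_zero hin w hx).subset fun c hc => hc.2.2
  · exact (case_ne hin hb w hx).subset fun c hc => ⟨hc.1, hc.2.1⟩

end Pool.Agent.TBK
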