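import Mathlib

/-!
# TBK/North: algebraic integers of bounded degree and house

A monic polynomial `f ∈ ℤ[X]` of degree `≤ D` all of whose complex roots have norm `≤ 2` has
coefficients of absolute value `≤ 2^D * D.choose (D/2)`-ish
(`Polynomial.coeff_bdd_of_roots_le` / `coeff_le_of_roots_le`, applied to `f.map (algebraMap ℤ ℂ)`;
see the proof of `NumberField.Embeddings.finite_of_norm_le`), so there are finitely many such `f`
(`Polynomial` with bounded degree and coefficients in a finite set: for instance
`Polynomial.bUnion_roots_finite`, which directly gives the finiteness of the set of roots), and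
each has finitely many roots.
-/

set_option autoImplicit false

namespace Pool.Agent.TBK

open Polynomial

theorem north (D : ℕ) : {w : ℂ | IsIntegral ℤ w ∧ (minpoly ℤ w).natDegree ≤ D ∧
    ∀ z : ℂ, aeval z (minpoly ℤ w) = 0 → ‖z‖ ≤ 2}.Finite := by
  classical
  set C : ℕ := Nat.ceil ((max 2 1 : ℝ) ^ D * D.choose (D / 2)) with hC
  have h := Polynomial.bUnion_roots_finite (algebraMap ℤ ℂ) D (Set.finite_Icc (-C : ℤ) C)
  refine h.subset ?_
  rintro w ⟨hw, hd, hr⟩
  rw [Set.mem_iUnion]
  use minpoly ℤ w
  rw [Set.mem_iUnion]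
  have hmon : (minpoly ℤ w).Monic := minpoly.monic hw
  have hmap : ((minpoly ℤ w).map (algebraMap ℤ ℂ)).Monic := hmon.map _
  refine ⟨⟨hd, fun i => ?_⟩, ?_⟩
  · have hs : ((minpoly ℤ w).map (algebraMap ℤ ℂ)).Splits := IsAlgClosed.splits _
    have hb := Polynomial.coeff_bdd_of_roots_le (p := minpoly ℤ w) (f := algebraMap ℤ ℂ) (B := 2)
      (d := D) hmon hs hd (fun z hz => by
        apply hr z
        rw [Polynomial.mem_roots hmap.ne_zero, Polynomial.IsRoot.def, Polynomial.eval_map] at hz
        exact hz) i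
    rw [Polynomial.coeff_map] at hb
    have hn : ‖(algebraMap ℤ ℂ) ((minpoly ℤ w).coeff i)‖ = |((minpoly ℤ w).coeff i : ℝ)| := by
      simp
    rw [hn] at hb
    rw [Set.mem_Icc, ← abs_le, ← @Int.cast_le ℝ]
    push_cast
    refine hb.trans ((Nat.le_ceil _).trans ?_)
    simp [hC]
  · rw [Finset.mem_coe, Multiset.mem_toFinset, Polynomial.mem_roots hmap.ne_zero,
      Polynomial.IsRoot.def, Polynomial.eval_map]
    exact minpoly.aeval ℤ w

end Pool.Agent.TBK
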