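import Pool.Agent.TBK.Grow
import Pool.Agent.TBK.FinS
import Pool.Agent.TBK.DegB
import Pool.Agent.TBK.North
import Pool.Agent.TBK.FixW

/-!
# TBK/Bad: all but finitely many values of `b_i`

Let `S` be the finite set of `fin_S` for `F = AlgebraicClosure (ZMod 2)`, `D = S.ncard`, and `N`
the finite set of `north D`. If `c` is in the set, with `w`, then `c ≠ 0` (`Cl.ne`), so
`deg_bound` (with this `S`) gives `natDegree (minpoly ℤ w) ≤ D`; `Cl.integral`; every root `z` of
`minpoly ℤ w` satisfies `Wc β z (n+1) = 0` (`Cl.root`), so `‖z‖ < 2` (`Cl.norm_lt` of TBK/Grow).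
So `w ∈ N`, and `c` is in the finite set of `fix_w` for this `w`: the set is contained in
`⋃ w ∈ N, …` (`Set.Finite.biUnion`).
-/

set_option autoImplicit false

namespace Pool.Agent.TBK

open Pool.Agent.DFJ Polynomial

theorem bad_finite {n i : ℕ} (hn : Even n) (hi : 1 ≤ i) (hin : i ≤ n) {b : ℕ → ℤ}
    (hb : ∀ j, 1 ≤ j → j ≤ n → j ≠ i → b j ≠ 0) :
    {c : ℤ | ∃ w : ℂ, Cl n (Function.update b i c) w ∧ NTs n (Function.update b i c) w ∧
      (LL (Function.update b i c) n w = 1 ∨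
        LL (Function.update b i c) n w = -1)}.Finite := by
  classical
  have hS := fin_S (F := AlgebraicClosure (ZMod 2)) hn hi hin hb
  obtain ⟨D, hD⟩ : ∃ D : ℕ, D = {z : AlgebraicClosure (ZMod 2) | z ≠ 0 ∧ ∃ c : ℤ, c ≠ 0 ∧
      Wc (Function.update b i c) z (n + 1) = 0 ∧
      LL (Function.update b i c) n z = 1}.ncard := ⟨_, rfl⟩
  refine ((north D).biUnion fun w _ => fix_w hn hi hin hb w).subset ?_
  rintro c ⟨w, hc, hs, hL⟩
  have hdeg := deg_bound hc hL hS fun z hz h1 h2 =>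
    ⟨hz, c, by
      have := hc.ne i hi hin
      rwa [Function.update_self] at this, h1, h2⟩
  rw [← hD] at hdeg
  rw [Set.mem_iUnion₂]
  refine ⟨w, ⟨hc.integral, hdeg, fun z hz => ?_⟩, hc, hs, hL⟩
  exact (Cl.norm_lt (fun j hj hj' => hc.ne j hj hj') (hc.root hz)).le

end Pool.Agent.TBK
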