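import Pool.Agent.DFJ.Defs

/-!
# TBK/Defs: the groups of the two-bridge knots (statement file, do not change)
-/

set_option autoImplicit false

namespace Pool.Agent.TBK

open Pool.Agent.DFJ LaurentPolynomial Matrix

/-- The words `X_i` in `x` and `t`: `X_0 = 1`, `X_1 = x` and, with `Y = X_i ^ a_i`,
`X_{i+1} = t Y t⁻¹ X_{i-1} Y⁻¹` for odd `i` and `X_{i+1} = Y X_{i-1} t⁻¹ Y⁻¹ t` for even `i`. -/
def Xw {G : Type*} [Group G] (x t : G) (a : ℕ → ℤ) : ℕ → G
  | 0 => 1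
  | 1 => x
  | i + 2 =>
    if Even i then
      t * Xw x t a (i + 1) ^ a (i + 1) * t⁻¹ * Xw x t a i * (Xw x t a (i + 1) ^ a (i + 1))⁻¹
    else
      Xw x t a (i + 1) ^ a (i + 1) * Xw x t a i * t⁻¹ * (Xw x t a (i + 1) ^ a (i + 1))⁻¹ * t

/-- The group `⟨x, t | X_{2g+1}⟩`. -/
abbrev TBGroup (g : ℕ) (a : ℕ → ℤ) : Type :=
  PresentedGroup
    ({Xw (FreeGroup.of 0) (FreeGroup.of 1) a (2 * g + 1)} : Set (FreeGroup (Fin 2)))

/-- A nonabelian representation with parabolic meridian whose image is torsion-free. -/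
structure Good {g : ℕ} {a : ℕ → ℤ} (α : TBGroup g a →* SLC) : Prop where
  par : (mx (α (PresentedGroup.of 1))).trace ^ 2 = 4
  nab : α (PresentedGroup.of 0) * α (PresentedGroup.of 1) ≠
    α (PresentedGroup.of 1) * α (PresentedGroup.of 0)
  tf : ∀ γ : TBGroup g a, ∀ k : ℕ, 0 < k → α γ ^ k = 1 → α γ = 1

/-- The coefficient of the highest exponent occurring in `τ` is `c`. -/
def HasTop (τ : ℂ[T;T⁻¹]) (c : ℂ) : Prop :=
  c ≠ 0 ∧ ∃ p : ℤ, τ.coeff p = c ∧ ∀ k, τ.coeff k ≠ 0 → k ≤ p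

/-- `τ` is monic if and only if the commutator subgroup is finitely generated, for the torsion
of every good representation. -/
def MonicIffFibered (g : ℕ) (a : ℕ → ℤ) : Prop :=
  ∀ φ : TBGroup g a →* Multiplicative ℤ, Function.Surjective φ →
    ∀ α : TBGroup g a →* SLC, Good α → ∀ τ : ℂ[T;T⁻¹], IsTorsion φ α τ →
      (IsMonic τ ↔ (commutator (TBGroup g a)).FG)

end Pool.Agent.TBK
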