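import Pool.Agent.DFJ.StallB
import Pool.Agent.TBK.Defs

/-!
# TBK/GrpA: the commutator subgroup for parameters `± 1`

* `map_Xw`: two-step induction on `j` (a homomorphism commutes with the words).
* `Xw_comm`: in `G ⧸ commutator G` (commutative, `Abelianization`), `X_{j+2} = X_j`, so `X_j = 1`
  for even `j` and `X_j = x` for odd `j`; since `X_{2g+1} = 1`, `x = 1` there: all `X_j` lie in
  the commutator subgroup. (Or directly: show by two-step induction that `X_j ∈ N` for even `j`
  and `x⁻¹ X_j ∈ N` for odd `j`, `N = commutator G` normal, using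
  `u v ∈ N ↔ v u ∈ N` for a normal subgroup.)
* `comm_eq'`: let `H` be the closure of `{X_j | j ≤ 2g+1}`. `H ≤ commutator G` by `Xw_comm`.
  `H` is stable under conjugation by `t` and by `t⁻¹`: enough for the generators, `1 ≤ j ≤ 2g`
  (`X_0 = X_{2g+1} = 1`), and since `(a j).natAbs = 1` enough for `Y = X_j ^ a_j`
  (`mem_of_zpow` in DFJ/StallB, `conj_zpow`).
  `j` odd: `X_{j+1} = t Y t⁻¹ X_{j-1} Y⁻¹`, so `t Y t⁻¹ = X_{j+1} Y X_{j-1}⁻¹ ∈ H`.
  `j` even: `X_{j+1} = Y X_{j-1} t⁻¹ Y⁻¹ t`, so `t⁻¹ Y t = X_{j+1}⁻¹ Y X_{j-1} ∈ H`.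
  Then `j` even: `t Y t⁻¹ = (t X_{j+1} t⁻¹) Y (t X_{j-1} t⁻¹)⁻¹`, where `j - 1, j + 1` are odd (and
  `X_{2g+1} = 1`): in `H` by the first case. `j` odd:
  `t⁻¹ Y t = (t⁻¹ X_{j+1} t)⁻¹ Y (t⁻¹ X_{j-1} t)`, `j ± 1` even (`X_0 = 1`): in `H` by the second.
  So `t` normalises `H`, and so does `x = X_1 ∈ H`: `H` is normal, `G ⧸ H` is generated by the
  image of `t`, hence commutative, and `commutator G ≤ H`. See `comm_eq` in DFJ/StallB (same
  structure).
* `fg_of_ones`: the closure of a finite set (`Finset.image` of `range (2g+2)`), for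
  `G = TBGroup g a`, `x = of 0`, `t = of 1`; generators: as `k_gen` in DFJ/StallB; relation:
  `map_Xw` for `PresentedGroup.mk` and `PresentedGroup.one_of_mem`.
-/

set_option autoImplicit false

namespace Pool.Agent.TBK

open Pool.Agent.DFJ

open scoped commutatorElement

theorem Xw_even {G : Type*} [Group G] (x t : G) (a : ℕ → ℤ) {i : ℕ} (hi : Even i) :
    Xw x t a (i + 2) =
      t * Xw x t a (i + 1) ^ a (i + 1) * t⁻¹ * Xw x t a i * (Xw x t a (i + 1) ^ a (i + 1))⁻¹ := by
  rw [Xw, if_pos hi]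

theorem Xw_odd {G : Type*} [Group G] (x t : G) (a : ℕ → ℤ) {i : ℕ} (hi : ¬ Even i) :
    Xw x t a (i + 2) =
      Xw x t a (i + 1) ^ a (i + 1) * Xw x t a i * t⁻¹ * (Xw x t a (i + 1) ^ a (i + 1))⁻¹ * t := by
  rw [Xw, if_neg hi]

theorem map_Xw {G H : Type*} [Group G] [Group H] (f : G →* H) (x t : G) (a : ℕ → ℤ) (j : ℕ) :
    f (Xw x t a j) = Xw (f x) (f t) a j := by
  have key : ∀ j, f (Xw x t a j) = Xw (f x) (f t) a j ∧
      f (Xw x t a (j + 1)) = Xw (f x) (f t) a (j + 1) := by
    intro j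
    induction j with
    | zero => exact ⟨map_one f, rfl⟩
    | succ j ih =>
      obtain ⟨h1, h2⟩ := ih
      refine ⟨h2, ?_⟩
      by_cases hj : Even j
      · rw [Xw_even x t a hj, Xw_even (f x) (f t) a hj]
        simp only [map_mul, map_inv, map_zpow, h1, h2]
      · rw [Xw_odd x t a hj, Xw_odd (f x) (f t) a hj]
        simp only [map_mul, map_inv, map_zpow, h1, h2]
  exact (key j).1

theorem Xw_abel {A : Type*} [CommGroup A] (x t : A) (a : ℕ → ℤ) (j : ℕ) :
    Xw x t a j = if Even j then 1 else x := by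
  have key : ∀ j, Xw x t a j = (if Even j then 1 else x) ∧
      Xw x t a (j + 1) = if Even (j + 1) then 1 else x := by
    intro j
    induction j with
    | zero => exact ⟨rfl, rfl⟩
    | succ j ih =>
      obtain ⟨h1, h2⟩ := ih
      refine ⟨h2, ?_⟩
      have e : (if Even (j + 1 + 1) then (1 : A) else x) = if Even j then 1 else x := by
        have h3 : Even (j + 1 + 1) ↔ Even j := by
          rw [add_assoc, Nat.even_add]
          simp
        simp only [h3]
      rw [e, ← h1]
      by_cases hj : Even j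
      · rw [Xw_even x t a hj]
        generalize Xw x t a (j + 1) ^ a (j + 1) = y
        generalize Xw x t a j = z
        rw [mul_assoc (t * y * t⁻¹), mul_comm t y, mul_inv_cancel_right, mul_comm z, ← mul_assoc,
          mul_inv_cancel, one_mul]
      · rw [Xw_odd x t a hj]
        generalize Xw x t a (j + 1) ^ a (j + 1) = y
        generalize Xw x t a j = z
        rw [mul_comm y z, mul_assoc (z * y), mul_assoc (z * y), mul_assoc, mul_assoc t⁻¹,
          mul_comm t⁻¹, mul_assoc y⁻¹, mul_inv_cancel, mul_one, mul_inv_cancel, mul_one]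
  exact (key j).1

theorem Xw_comm {G : Type*} [Group G] {x t : G} {a : ℕ → ℤ} {g : ℕ}
    (hr : Xw x t a (2 * g + 1) = 1) (j : ℕ) : Xw x t a j ∈ commutator G := by
  have h1 := map_Xw (Abelianization.of (G := G)) x t a (2 * g + 1)
  rw [hr, map_one, Xw_abel, if_neg (by simp)] at h1
  rw [← Abelianization.ker_of, MonoidHom.mem_ker, map_Xw, Xw_abel, ← h1]
  simp

theorem comm_eq' {G : Type*} [Group G] {x t : G} (hgen : Subgroup.closure {x, t} = ⊤) {a : ℕ → ℤ}
    {g : ℕ} (hr : Xw x t a (2 * g + 1) = 1) (ha : ∀ j, 1 ≤ j → j ≤ 2 * g → (a j).natAbs = 1) :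
    commutator G = Subgroup.closure (Xw x t a '' {j | j ≤ 2 * g + 1}) := by
  set H := Subgroup.closure (Xw x t a '' {j | j ≤ 2 * g + 1}) with hH
  have hX : ∀ j, j ≤ 2 * g + 1 → Xw x t a j ∈ H := fun j hj =>
    Subgroup.subset_closure ⟨j, hj, rfl⟩
  -- from the powers to the elements
  have hup : ∀ j, 1 ≤ j → j ≤ 2 * g → t * Xw x t a j ^ a j * t⁻¹ ∈ H →
      t * Xw x t a j * t⁻¹ ∈ H := by
    intro j h1 h2 h3
    rw [← conj_zpow] at h3
    exact mem_of_zpow (ha j h1 h2) h3
  have hdn : ∀ j, 1 ≤ j → j ≤ 2 * g → t⁻¹ * Xw x t a j ^ a j * t ∈ H →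
      t⁻¹ * Xw x t a j * t ∈ H := by
    intro j h1 h2 h3
    have e : ∀ y : G, t⁻¹ * y * t = t⁻¹ * y * t⁻¹⁻¹ := fun y => by rw [inv_inv]
    rw [e, ← conj_zpow] at h3
    rw [e]
    exact mem_of_zpow (ha j h1 h2) h3
  have hodd : ∀ j, ¬ Even j → j ≤ 2 * g + 1 → t * Xw x t a j * t⁻¹ ∈ H := by
    intro j hj hj2
    by_cases hj3 : j = 2 * g + 1
    · rw [hj3, hr]
      simp
    · obtain ⟨i, rfl⟩ : ∃ i, j = i + 1 := ⟨j - 1, by
        have : j ≠ 0 := by rintro rfl; exact hj Even.zero
        omega⟩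
      have hi : Even i := by
        rw [Nat.even_add_one, not_not] at hj
        exact hj
      refine hup (i + 1) (by omega) (by omega) ?_
      have e : t * Xw x t a (i + 1) ^ a (i + 1) * t⁻¹ =
          Xw x t a (i + 2) * Xw x t a (i + 1) ^ a (i + 1) * (Xw x t a i)⁻¹ := by
        rw [Xw_even x t a hi]
        group
      rw [e]
      exact mul_mem (mul_mem (hX _ (by omega)) (zpow_mem (hX _ (by omega)) _))
        (inv_mem (hX _ (by omega)))
  have hev : ∀ j, Even j → j ≤ 2 * g → t⁻¹ * Xw x t a j * t ∈ H := by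
    intro j hj hj2
    by_cases hj3 : j = 0
    · rw [hj3, Xw]
      simp
    · obtain ⟨i, rfl⟩ : ∃ i, j = i + 1 := ⟨j - 1, by omega⟩
      have hi : ¬ Even i := by
        rw [Nat.even_add_one] at hj
        exact hj
      refine hdn (i + 1) (by omega) (by omega) ?_
      have e : t⁻¹ * Xw x t a (i + 1) ^ a (i + 1) * t =
          (Xw x t a (i + 2))⁻¹ * Xw x t a (i + 1) ^ a (i + 1) * Xw x t a i := by
        rw [Xw_odd x t a hi]
        group
      rw [e]
      exact mul_mem (mul_mem (inv_mem (hX _ (by omega))) (zpow_mem (hX _ (by omega)) _))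
        (hX _ (by omega))
  have hX1 : ∀ j, j ≤ 2 * g + 1 → t * Xw x t a j * t⁻¹ ∈ H := by
    intro j hj2
    by_cases hj : Even j
    · by_cases hj3 : j = 0
      · rw [hj3, Xw]
        simp
      · obtain ⟨i, rfl⟩ : ∃ i, j = i + 1 := ⟨j - 1, by omega⟩
        have hi : ¬ Even i := by
          rw [Nat.even_add_one] at hj
          exact hj
        have hne : i + 1 ≠ 2 * g + 1 := by
          intro h
          rw [h] at hj
          exact (Nat.not_even_iff_odd.2 ⟨g, rfl⟩) hj
        refine hup (i + 1) (by omega) (by omega) ?_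
        have e : t * Xw x t a (i + 1) ^ a (i + 1) * t⁻¹ =
            (t * Xw x t a (i + 2) * t⁻¹) * Xw x t a (i + 1) ^ a (i + 1) *
              (t * Xw x t a i * t⁻¹)⁻¹ := by
          rw [Xw_odd x t a hi]
          group
        rw [e]
        have hi2 : ¬ Even (i + 2) := by
          rw [Nat.even_add]
          simpa using hi
        exact mul_mem (mul_mem (hodd _ hi2 (by omega)) (zpow_mem (hX _ (by omega)) _))
          (inv_mem (hodd _ hi (by omega)))
    · exact hodd j hj hj2
  have hX2 : ∀ j, j ≤ 2 * g + 1 → t⁻¹ * Xw x t a j * t ∈ H := by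
    intro j hj2
    by_cases hj3 : j = 2 * g + 1
    · rw [hj3, hr]
      simp
    by_cases hj : Even j
    · exact hev j hj (by omega)
    · obtain ⟨i, rfl⟩ : ∃ i, j = i + 1 := ⟨j - 1, by
        have : j ≠ 0 := by rintro rfl; exact hj Even.zero
        omega⟩
      have hi : Even i := by
        rw [Nat.even_add_one, not_not] at hj
        exact hj
      have hle : i + 2 ≤ 2 * g := by
        obtain ⟨m, hm⟩ := hi
        omega
      refine hdn (i + 1) (by omega) (by omega) ?_
      have e : t⁻¹ * Xw x t a (i + 1) ^ a (i + 1) * t =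
          (t⁻¹ * Xw x t a (i + 2) * t)⁻¹ * Xw x t a (i + 1) ^ a (i + 1) *
            (t⁻¹ * Xw x t a i * t) := by
        rw [Xw_even x t a hi]
        group
      rw [e]
      have hi2 : Even (i + 2) := by
        rw [Nat.even_add]
        simpa using hi
      exact mul_mem (mul_mem (inv_mem (hev _ hi2 hle)) (zpow_mem (hX _ (by omega)) _))
        (hev _ hi (by omega))
  have hc1 : ∀ h ∈ H, t * h * t⁻¹ ∈ H := by
    intro h hh
    induction hh using Subgroup.closure_induction with
    | mem y hy =>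
      obtain ⟨j, hj, rfl⟩ := hy
      exact hX1 j hj
    | one => simp
    | mul x y _ _ hx hy =>
      have e : t * (x * y) * t⁻¹ = (t * x * t⁻¹) * (t * y * t⁻¹) := by group
      rw [e]; exact mul_mem hx hy
    | inv x _ hx =>
      have e : t * x⁻¹ * t⁻¹ = (t * x * t⁻¹)⁻¹ := by group
      rw [e]; exact inv_mem hx
  have hc2 : ∀ h ∈ H, t⁻¹ * h * t ∈ H := by
    intro h hh
    induction hh using Subgroup.closure_induction with
    | mem y hy =>
      obtain ⟨j, hj, rfl⟩ := hy
      exact hX2 j hj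
    | one => simp
    | mul x y _ _ hx hy =>
      have e : t⁻¹ * (x * y) * t = (t⁻¹ * x * t) * (t⁻¹ * y * t) := by group
      rw [e]; exact mul_mem hx hy
    | inv x _ hx =>
      have e : t⁻¹ * x⁻¹ * t = (t⁻¹ * x * t)⁻¹ := by group
      rw [e]; exact inv_mem hx
  have ht : t ∈ Subgroup.normalizer (H : Set G) := by
    rw [Subgroup.mem_normalizer_iff]
    intro h
    constructor
    · exact hc1 h
    · intro h1
      have := hc2 _ h1
      have e : t⁻¹ * (t * h * t⁻¹) * t = h := by group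
      rwa [e] at this
  have hxH : x ∈ H := hX 1 (by omega)
  have hnorm : H.Normal := by
    rw [← Subgroup.normalizer_eq_top_iff, eq_top_iff, ← hgen, Subgroup.closure_le]
    rintro y (rfl | rfl)
    · exact Subgroup.le_normalizer hxH
    · exact ht
  apply le_antisymm
  · have hpow : ∀ g : G, ∃ k : ℤ, (g : G ⧸ H) = (t : G ⧸ H) ^ k := by
      intro g
      have hg : g ∈ Subgroup.closure {x, t} := by rw [hgen]; exact Subgroup.mem_top g
      induction hg using Subgroup.closure_induction with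
      | mem y hy =>
        rcases hy with rfl | rfl
        · refine ⟨0, ?_⟩
          rw [zpow_zero, QuotientGroup.eq_one_iff]
          exact hxH
        · exact ⟨1, by rw [zpow_one]⟩
      | one => exact ⟨0, by rw [zpow_zero]; rfl⟩
      | mul x y _ _ hx hy =>
        obtain ⟨k, hk⟩ := hx
        obtain ⟨l, hl⟩ := hy
        exact ⟨k + l, by rw [QuotientGroup.mk_mul, hk, hl, zpow_add]⟩
      | inv x _ hx =>
        obtain ⟨k, hk⟩ := hx
        exact ⟨-k, by rw [QuotientGroup.mk_inv, hk, zpow_neg]⟩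
    rw [commutator_def, Subgroup.commutator_le]
    intro g _ h _
    obtain ⟨k, hk⟩ := hpow g
    obtain ⟨l, hl⟩ := hpow h
    rw [← QuotientGroup.eq_one_iff]
    have : ((⁅g, h⁆ : G) : G ⧸ H) = ⁅(g : G ⧸ H), (h : G ⧸ H)⁆ := by
      rw [commutatorElement_def, commutatorElement_def]; rfl
    rw [this, commutatorElement_eq_one_iff_commute, hk, hl]
    exact (Commute.refl _).zpow_zpow k l
  · rw [hH, Subgroup.closure_le]
    rintro y ⟨j, -, rfl⟩
    exact Xw_comm hr j

variable (g : ℕ) (a : ℕ → ℤ)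

theorem tb_gen : Subgroup.closure
    {(PresentedGroup.of 0 : TBGroup g a), (PresentedGroup.of 1 : TBGroup g a)} = ⊤ := by
  have h := PresentedGroup.closure_range_of
    ({Xw (FreeGroup.of 0) (FreeGroup.of 1) a (2 * g + 1)} : Set (FreeGroup (Fin 2)))
  rw [← h]
  congr 1
  ext x
  constructor
  · rintro (rfl | rfl)
    · exact ⟨0, rfl⟩
    · exact ⟨1, rfl⟩
  · rintro ⟨i, rfl⟩
    fin_cases i
    · left; rfl
    · right; rfl

theorem tb_rel : Xw (PresentedGroup.of 0 : TBGroup g a) (PresentedGroup.of 1 : TBGroup g a) a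
    (2 * g + 1) = 1 := by
  have h1 := map_Xw (PresentedGroup.mk
    ({Xw (FreeGroup.of 0) (FreeGroup.of 1) a (2 * g + 1)} : Set (FreeGroup (Fin 2))))
    (FreeGroup.of 0) (FreeGroup.of 1) a (2 * g + 1)
  rw [PresentedGroup.one_of_mem (Set.mem_singleton _)] at h1
  exact h1.symm

theorem fg_of_ones (ha : ∀ j, 1 ≤ j → j ≤ 2 * g → (a j).natAbs = 1) :
    (commutator (TBGroup g a)).FG := by
  classical
  refine ⟨(Finset.range (2 * g + 2)).image
    (Xw (PresentedGroup.of 0 : TBGroup g a) (PresentedGroup.of 1 : TBGroup g a) a), ?_⟩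
  rw [comm_eq' (tb_gen g a) (tb_rel g a) ha, Finset.coe_image]
  congr 2
  ext j
  simp only [Finset.coe_range, Set.mem_Iio, Set.mem_ofPred_eq]
  omega

end Pool.Agent.TBK
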