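import Pool.Agent.TBK.StallG
import Pool.Agent.TBK.GrpA

/-!
# TBK/GrpB: a finitely generated commutator subgroup forces parameters `± 1`

`qq a j ∈ ℤ[X]`: `q_0 = 0`, `q_1 = 1`, `q_{j+2} = q_j + a_{j+1} q_{j+1}` for even `j`,
`q_{j+2} = q_j + a_{j+1} X q_{j+1}` for odd `j`.
* `qq_deg`: for `j ≤ n`: `natDegree (q_{j+1}) ≤ j / 2` and the coefficient there is
  `∏_{i ∈ Icc 1 j} a_i`. Two-step induction: for `j + 1`, the term `q_j` has degree
  `≤ (j - 1)/2` (for `j ≥ 1`; it is `0` for `j = 0`), which is smaller than `(j+1)/2`.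
* `qq_zero`: `q_{2m+1}` has constant coefficient `1` (`q_{j+2}(0) = q_j(0)` for odd `j`).
* `poly_unit`: over `ℂ` (`IsAlgClosed.splits`) `p = A ∏ (X - y_i)`, `A` the leading coefficient,
  so `1 = p(0) = ± A ∏ y_i` (`Polynomial.prod_roots_eq_coeff_zero_of_monic_of_splits` for the monic
  polynomial, or evaluate `eq_prod_roots_of_splits`), so `A⁻¹ = ± ∏ y_i` is integral
  (`IsIntegral.prod`/`Multiset.prod_induction`) and rational, so `A` is a unit (see the end of
  `unit_of_fg` in DFJ/Stall).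
* `aff_Xw`: with `x ↦ aff 1 1`, `t ↦ aff l 0`, `y = l + l⁻¹ - 2`, two-step induction:
  `X_j ↦ aff 1 (q_j(y))` for odd `j`, `X_j ↦ aff 1 ((l - 1) q_j(y))` for even `j`. Indeed if
  `X_i ↦ aff 1 c_i` then `c_{j+2} = c_j + (l - 1) a_{j+1} c_{j+1}` for even `j` and
  `c_{j+2} = c_j + (1 - l⁻¹) a_{j+1} c_{j+1}` for odd `j` (`aff_mul`, `aff_inv`, `aff_zpow`), and
  `(1 - l⁻¹)(l - 1) = y`.
* `ones_of_fg`: let `y` be a root of `q_{2g+1}` in `ℂ`. There is `l` with
  `l² - (y + 2) l + 1 = 0` (`IsAlgClosed`, as in `unit_of_fg`), `l ≠ 0`, `y = l + l⁻¹ - 2`. By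
  `aff_Xw` the relator acts trivially (`aff 1 0 = 1`), so there is `f : TBGroup g a →* Perm ℂ`
  (`PresentedGroup.toGroup`, `map_Xw` for `FreeGroup.lift`). `int_of_fg'` (with `Xw_comm` for
  `j = 1`, `tb_gen`) gives that `l, l⁻¹` are integral, so `y` is integral. By `poly_unit`
  the leading coefficient of `q_{2g+1}`, which is `∏ a_i ≠ 0` (`qq_deg`), is a unit, so all the
  `a_i` are units (`Finset.dvd_prod_of_mem`, `isUnit_of_dvd_unit`, `Int.isUnit_iff_natAbs_eq`).
-/

set_option autoImplicit false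

namespace Pool.Agent.TBK

open Pool.Agent.DFJ Polynomial

/-- the translations, as polynomials -/
noncomputable def qq (a : ℕ → ℤ) : ℕ → ℤ[X]
  | 0 => 0
  | 1 => 1
  | j + 2 =>
    if Even j then qq a j + C (a (j + 1)) * qq a (j + 1)
    else qq a j + C (a (j + 1)) * (X * qq a (j + 1))

private theorem qq_even (a : ℕ → ℤ) {j : ℕ} (h : Even j) :
    qq a (j + 2) = qq a j + C (a (j + 1)) * qq a (j + 1) := by
  rw [qq, if_pos h]

private theorem qq_odd (a : ℕ → ℤ) {j : ℕ} (h : ¬ Even j) :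
    qq a (j + 2) = qq a j + C (a (j + 1)) * (X * qq a (j + 1)) := by
  rw [qq, if_neg h]

theorem qq_deg (a : ℕ → ℤ) (j : ℕ) : (qq a (j + 1)).natDegree ≤ j / 2 ∧
    (qq a (j + 1)).coeff (j / 2) = ∏ i ∈ Finset.Icc 1 j, a i := by
  induction j using Nat.twoStepInduction with
  | zero =>
    have h : qq a (0 + 1) = 1 := rfl
    rw [h]
    simp
  | one =>
    have h : qq a (1 + 1) = C (a 1) := by
      rw [show 1 + 1 = 0 + 2 from rfl, qq_even a (Even.zero : Even 0)]
      have h0 : qq a 0 = 0 := rfl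
      have h1 : qq a (0 + 1) = 1 := rfl
      rw [h0, h1]
      simp
    rw [h]
    simp
  | more j ih1 ih2 =>
    have hprod : ∏ i ∈ Finset.Icc 1 (j + 2), a i = (∏ i ∈ Finset.Icc 1 (j + 1), a i) * a (j + 2) :=
      Finset.prod_Icc_succ_top (by omega) a
    rw [hprod]
    have e1 : j + 2 + 1 = (j + 1) + 2 := rfl
    rw [e1]
    by_cases hj : Even (j + 1)
    · rw [qq_even a hj]
      obtain ⟨k, hk⟩ : ∃ k, j = 2 * k + 1 := by
        rw [Nat.even_add_one, Nat.not_even_iff_odd] at hj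
        exact hj
      subst hk
      have e2 : (2 * k + 1) / 2 = k := by omega
      have e3 : (2 * k + 1 + 1) / 2 = k + 1 := by omega
      have e4 : (2 * k + 1 + 2) / 2 = k + 1 := by omega
      rw [e2] at ih1
      rw [e3] at ih2
      rw [e4]
      constructor
      · refine (natDegree_add_le _ _).trans (max_le (ih1.1.trans (Nat.le_succ _)) ?_)
        exact (natDegree_C_mul_le _ _).trans ih2.1
      · rw [coeff_add, coeff_C_mul, ih2.2, coeff_eq_zero_of_natDegree_lt (by omega), zero_add]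
        ring
    · rw [qq_odd a hj]
      obtain ⟨k, hk⟩ : ∃ k, j = 2 * k := by
        rw [Nat.even_add_one, not_not] at hj
        obtain ⟨k, hk⟩ := hj
        exact ⟨k, by omega⟩
      subst hk
      have e2 : (2 * k) / 2 = k := by omega
      have e3 : (2 * k + 1) / 2 = k := by omega
      have e4 : (2 * k + 2) / 2 = k + 1 := by omega
      rw [e2] at ih1
      rw [e3] at ih2
      rw [e4]
      constructor
      · refine (natDegree_add_le _ _).trans (max_le (ih1.1.trans (Nat.le_succ _)) ?_)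
        refine (natDegree_C_mul_le _ _).trans ?_
        refine natDegree_mul_le.trans ?_
        rw [natDegree_X]
        have := ih2.1
        omega
      · rw [coeff_add, coeff_C_mul, coeff_X_mul, ih2.2, coeff_eq_zero_of_natDegree_lt (by omega),
          zero_add]
        ring

theorem qq_zero (a : ℕ → ℤ) (m : ℕ) : (qq a (2 * m + 1)).coeff 0 = 1 := by
  induction m with
  | zero =>
    have h : qq a (2 * 0 + 1) = 1 := rfl
    rw [h]
    simp
  | succ m ih =>
    have e : 2 * (m + 1) + 1 = (2 * m + 1) + 2 := by ring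
    rw [e, qq_odd a (by rw [Nat.not_even_iff_odd]; exact ⟨m, rfl⟩), coeff_add, ih, coeff_C_mul,
      coeff_X_mul_zero, mul_zero, add_zero]

theorem poly_unit {p : ℤ[X]} (h0 : p.coeff 0 = 1)
    (h : ∀ y : ℂ, aeval y p = 0 → IsIntegral ℤ y) : IsUnit p.leadingCoeff := by
  have hp0 : p ≠ 0 := by
    rintro rfl
    simp at h0
  set P : ℂ[X] := p.map (algebraMap ℤ ℂ) with hP
  have hinj : Function.Injective (algebraMap ℤ ℂ) := (algebraMap ℤ ℂ).injective_int
  have hP0 : P ≠ 0 := (Polynomial.map_ne_zero_iff hinj).2 hp0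
  have hlead : P.leadingCoeff = algebraMap ℤ ℂ p.leadingCoeff :=
    Polynomial.leadingCoeff_map_of_injective hinj p
  have hs : P.Splits := IsAlgClosed.splits P
  have h1 : P = C P.leadingCoeff * (P.roots.map fun y => X - C y).prod := hs.eq_prod_roots
  have h2 : P.eval 0 = P.leadingCoeff * (P.roots.map fun y => -y).prod := by
    conv_lhs => rw [h1]
    rw [eval_mul, eval_C, Polynomial.eval_multiset_prod, Multiset.map_map]
    congr 2
    refine Multiset.map_congr rfl fun y _ => ?_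
    simp
  have h3 : P.eval 0 = 1 := by
    rw [← coeff_zero_eq_eval_zero, hP, coeff_map, h0, map_one]
  rw [h3, hlead] at h2
  set B : ℂ := (P.roots.map fun y => -y).prod with hB
  have hBint : IsIntegral ℤ B := by
    rw [hB]
    refine IsIntegral.multiset_prod ?_
    intro z hz
    obtain ⟨y, hy, rfl⟩ := Multiset.mem_map.1 hz
    refine (h y ?_).neg
    have h5 := (Polynomial.mem_roots hP0).1 hy
    rw [IsRoot.def, hP, eval_map_algebraMap] at h5
    exact h5
  have hA0 : p.leadingCoeff ≠ 0 := leadingCoeff_ne_zero.2 hp0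
  have hAq : ((p.leadingCoeff : ℤ) : ℚ) ≠ 0 := by exact_mod_cast hA0
  have h6 : B = algebraMap ℚ ℂ (1 / ((p.leadingCoeff : ℤ) : ℚ)) := by
    have hAc : ((p.leadingCoeff : ℤ) : ℂ) ≠ 0 := by exact_mod_cast hA0
    have h7 : (1 : ℂ) = ((p.leadingCoeff : ℤ) : ℂ) * B := h2
    have h8 : algebraMap ℚ ℂ (1 / ((p.leadingCoeff : ℤ) : ℚ)) = 1 / ((p.leadingCoeff : ℤ) : ℂ) := by
      simp
    rw [h8]
    field_simp
    rw [mul_comm]
    exact h7.symm
  rw [h6] at hBint
  have h9 : IsIntegral ℤ (1 / ((p.leadingCoeff : ℤ) : ℚ)) :=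
    (isIntegral_algebraMap_iff (algebraMap ℚ ℂ).injective).1 hBint
  obtain ⟨k, hk⟩ := (IsIntegrallyClosed.isIntegral_iff (R := ℤ) (K := ℚ)).1 h9
  have h10 : (k : ℚ) * ((p.leadingCoeff : ℤ) : ℚ) = 1 := by
    have : (algebraMap ℤ ℚ) k = (k : ℚ) := rfl
    rw [← this, hk]
    field_simp
  have h11 : k * p.leadingCoeff = 1 := by exact_mod_cast h10
  exact IsUnit.of_mul_eq_one k (by rw [mul_comm]; exact h11)

theorem aff_Xw (a : ℕ → ℤ) (l : ℂˣ) (j : ℕ) :
    Xw (aff 1 1) (aff l 0) a j = aff 1 ((if Even j then (l : ℂ) - 1 else 1) *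
      aeval ((l : ℂ) + ((l⁻¹ : ℂˣ) : ℂ) - 2) (qq a j)) := by
  have hl : ((l⁻¹ : ℂˣ) : ℂ) * (l : ℂ) = 1 := by
    rw [← Units.val_mul, inv_mul_cancel, Units.val_one]
  have hl' : (l : ℂ) * ((l⁻¹ : ℂˣ) : ℂ) = 1 := by
    rw [mul_comm]
    exact hl
  induction j using Nat.twoStepInduction with
  | zero =>
    have h0 : qq a 0 = 0 := rfl
    have h1 : Xw (aff 1 1) (aff l 0) a 0 = 1 := rfl
    rw [h0, h1, map_zero, mul_zero, aff_one]
  | one =>
    have h0 : qq a 1 = 1 := rfl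
    have h1 : Xw (aff 1 1) (aff l 0) a 1 = aff 1 1 := rfl
    rw [h0, h1, map_one, if_neg (by decide), one_mul]
  | more j ih1 ih2 =>
    by_cases hj : Even j
    · have hj1 : ¬ Even (j + 1) := by rw [Nat.even_add_one]; exact not_not.2 hj
      have hj2 : Even (j + 2) := by rw [Nat.even_add_one]; exact hj1
      have e : Xw (aff 1 1) (aff l 0) a (j + 2) =
          aff l 0 * Xw (aff 1 1) (aff l 0) a (j + 1) ^ a (j + 1) * (aff l 0)⁻¹ *
            Xw (aff 1 1) (aff l 0) a j * (Xw (aff 1 1) (aff l 0) a (j + 1) ^ a (j + 1))⁻¹ := by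
        rw [Xw, if_pos hj]
      rw [e, ih1, ih2, if_pos hj, if_neg hj1, if_pos hj2, qq_even a hj]
      simp only [aff_zpow, aff_inv, aff_mul, map_add, map_mul, aeval_C]
      congr 1
      · simp
      · simp only [Units.val_mul, Units.val_one, inv_one, mul_one, one_mul, mul_inv_cancel,
          algebraMap_int_eq, eq_intCast]
        ring
    · have hj1 : Even (j + 1) := by rw [Nat.even_add_one]; exact hj
      have hj2 : ¬ Even (j + 2) := by rw [Nat.even_add_one]; exact not_not.2 hj1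
      have e : Xw (aff 1 1) (aff l 0) a (j + 2) =
          Xw (aff 1 1) (aff l 0) a (j + 1) ^ a (j + 1) * Xw (aff 1 1) (aff l 0) a j *
            (aff l 0)⁻¹ * (Xw (aff 1 1) (aff l 0) a (j + 1) ^ a (j + 1))⁻¹ * aff l 0 := by
        rw [Xw, if_neg hj]
      rw [e, ih1, ih2, if_neg hj, if_pos hj1, if_neg hj2, qq_odd a hj]
      simp only [aff_zpow, aff_inv, aff_mul, map_add, map_mul, aeval_C, aeval_X]
      congr 1
      · simp
      · simp only [Units.val_mul, Units.val_one, inv_one, mul_one, one_mul, mul_inv_cancel,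
          algebraMap_int_eq, eq_intCast, mul_zero, neg_zero, add_zero]
        generalize aeval ((l : ℂ) + ((l⁻¹ : ℂˣ) : ℂ) - 2) (qq a (j + 1)) = u
        generalize aeval ((l : ℂ) + ((l⁻¹ : ℂˣ) : ℂ) - 2) (qq a j) = v
        linear_combination (-(a (j + 1) : ℂ) * u) * hl

theorem ones_of_fg {g : ℕ} {a : ℕ → ℤ} (ha : ∀ j, 1 ≤ j → j ≤ 2 * g → a j ≠ 0)
    (h : (commutator (TBGroup g a)).FG) : ∀ j, 1 ≤ j → j ≤ 2 * g → (a j).natAbs = 1 := by
  have hodd : ¬ Even (2 * g + 1) := by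
    rw [Nat.not_even_iff_odd]
    exact ⟨g, rfl⟩
  have hroots : ∀ y : ℂ, aeval y (qq a (2 * g + 1)) = 0 → IsIntegral ℤ y := by
    intro y hy
    obtain ⟨s, hs⟩ := IsAlgClosed.exists_eq_mul_self (y * y + 4 * y)
    have hq : ((y + 2 + s) / 2) ^ 2 - (y + 2) * ((y + 2 + s) / 2) + 1 = 0 := by
      linear_combination (-1 / 4 : ℂ) * hs
    have hl0 : (y + 2 + s) / 2 ≠ 0 := by
      intro h0
      rw [h0] at hq
      norm_num at hq
    set l : ℂˣ := Units.mk0 _ hl0 with hld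
    have hlv : (l : ℂ) = (y + 2 + s) / 2 := rfl
    rw [← hlv] at hq
    have hl : ((l⁻¹ : ℂˣ) : ℂ) * (l : ℂ) = 1 := by
      rw [← Units.val_mul, inv_mul_cancel, Units.val_one]
    have hy2 : (l : ℂ) + ((l⁻¹ : ℂˣ) : ℂ) - 2 = y := by
      linear_combination ((l⁻¹ : ℂˣ) : ℂ) * hq - ((l : ℂ) - y - 2) * hl
    have hrel : Xw (aff 1 1) (aff l 0) a (2 * g + 1) = 1 := by
      rw [aff_Xw, if_neg hodd, hy2, hy, mul_zero, aff_one]
    have hr : ∀ r ∈ ({Xw (FreeGroup.of 0) (FreeGroup.of 1) a (2 * g + 1)} :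
        Set (FreeGroup (Fin 2))),
        FreeGroup.lift (![aff 1 1, aff l 0] : Fin 2 → Equiv.Perm ℂ) r = 1 := by
      intro r hr
      rw [Set.mem_singleton_iff] at hr
      subst hr
      have ea : FreeGroup.lift (![aff 1 1, aff l 0] : Fin 2 → Equiv.Perm ℂ) (FreeGroup.of 0) =
        aff 1 1 := FreeGroup.lift_apply_of
      have eb : FreeGroup.lift (![aff 1 1, aff l 0] : Fin 2 → Equiv.Perm ℂ) (FreeGroup.of 1) =
        aff l 0 := FreeGroup.lift_apply_of
      rw [map_Xw, ea, eb, hrel]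
    have hfx : PresentedGroup.toGroup hr (PresentedGroup.of 0) = aff 1 1 :=
      PresentedGroup.toGroup.of hr
    have hft : PresentedGroup.toGroup hr (PresentedGroup.of 1) = aff l 0 :=
      PresentedGroup.toGroup.of hr
    have hxc : (PresentedGroup.of 0 : TBGroup g a) ∈ commutator (TBGroup g a) :=
      Xw_comm (tb_rel g a) 1
    obtain ⟨h1, h2⟩ := int_of_fg' (tb_gen g a) (PresentedGroup.toGroup hr) hft hfx hxc h
    rw [← hy2]
    exact (h1.add h2).sub (isIntegral_algebraMap (x := (2 : ℤ)))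
  have hu := poly_unit (qq_zero a g) hroots
  obtain ⟨hd1, hd2⟩ := qq_deg a (2 * g)
  have e : 2 * g / 2 = g := by omega
  rw [e] at hd1 hd2
  have hne : ∏ i ∈ Finset.Icc 1 (2 * g), a i ≠ 0 := by
    rw [Finset.prod_ne_zero_iff]
    intro i hi
    rw [Finset.mem_Icc] at hi
    exact ha i hi.1 hi.2
  have hdeg : (qq a (2 * g + 1)).natDegree = g := by
    refine le_antisymm hd1 ?_
    refine le_natDegree_of_ne_zero ?_
    rw [hd2]
    exact hne
  have hlc : (qq a (2 * g + 1)).leadingCoeff = ∏ i ∈ Finset.Icc 1 (2 * g), a i := by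
    rw [leadingCoeff, hdeg, hd2]
  rw [hlc] at hu
  intro j hj1 hj2
  rw [← Int.isUnit_iff_natAbs_eq]
  exact isUnit_of_dvd_unit (Finset.dvd_prod_of_mem a (Finset.mem_Icc.2 ⟨hj1, hj2⟩)) hu

theorem fg_iff' {g : ℕ} {a : ℕ → ℤ} (ha : ∀ j, 1 ≤ j → j ≤ 2 * g → a j ≠ 0) :
    (commutator (TBGroup g a)).FG ↔ ∀ j, 1 ≤ j → j ≤ 2 * g → (a j).natAbs = 1 :=
  ⟨ones_of_fg ha, fg_of_ones g a⟩

end Pool.Agent.TBK
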