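import Pool.Agent.TBK.PolM

/-!
# TBK/LaurN: the shape of the quotient

* `shapeN`: the argument of `shape` in DFJ/Laur with `N` in place of `2` (`N ≥ 0` an integer):
  `τ.coeff (k - 2) - c τ.coeff (k - 1) + τ.coeff k = p.coeff k`.
* `coeff_EV`: induction on `P` (`Polynomial.induction_on'`: additive, and monomials:
  `EV e (monomial n c) = C c * T e ^ n`, `T_pow`, `T (n e)`), or from
  `eval₂_eq_sum_range`. For `e = ± 1`: the coefficient of `EV e P` at `e * k` (`k : ℕ`) is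
  `P.coeff k`, and at an exponent which is not of the form `e * k` with `k : ℕ` it is `0`; stated
  as below for all exponents `k : ℤ` (`e * k` is the inverse substitution, `e² = 1`).
* `shape_ofD`: put `p = T (-(2 g e)) * EV e P`; `coeff_T_mul`, `coeff_EV`:
  `p.coeff k = P.coeff (e (k + 2 g e)).toNat` if `0 ≤ e (k + 2 g e) = e k + 2 g`, else `0`. So the
  exponents of `p` are in `[-2g, 2g]` (`natDegree P ≤ 4g`), and its coefficients at `± 2g` are `L`
  (for both values of `e`). If `e = 1`: `T 1 ^ 2 = T 2` and `shapeN` with `N = 2g`.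
  If `e = -1`: `T (-1) ^ 2 - C c * T (-1) + 1 = T (-2) * (T 2 - C c * T 1 + 1)`, apply `shapeN` to
  `T (-2) * τ` and shift (`coeff_T_mul`); compare `shape_of` in DFJ/TorShape.
-/

set_option autoImplicit false

namespace Pool.Agent.TBK

open Pool.Agent.DFJ LaurentPolynomial Matrix

/-- degree `d`, and both extreme coefficients are `L` -/
def ShapeD (τ : ℂ[T;T⁻¹]) (L : ℂ) (d : ℕ) : Prop :=
  ∃ p : ℤ, τ.coeff p = L ∧ τ.coeff (p + d) = L ∧ ∀ k, τ.coeff k ≠ 0 → p ≤ k ∧ k ≤ p + d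

theorem ShapeD.degree {τ : ℂ[T;T⁻¹]} {L : ℂ} {d : ℕ} (h : ShapeD τ L d) (hL : L ≠ 0) :
    HasDegree τ d := by
  obtain ⟨p, h1, h2, h3⟩ := h
  exact ⟨p, by rw [h1]; exact hL, by rw [h2]; exact hL, h3⟩

theorem ShapeD.monic {τ : ℂ[T;T⁻¹]} {L : ℂ} {d : ℕ} (h : ShapeD τ L d) (hL : L ≠ 0) :
    IsMonic τ ↔ (L = 1 ∨ L = -1) := by
  obtain ⟨p, h1, h2, h3⟩ := h
  constructor
  · rintro ⟨q, hq, hq2⟩
    have e1 : p + d ≤ q := hq2 _ (by rw [h2]; exact hL)
    have e2 : τ.coeff q ≠ 0 := by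
      rcases hq with h | h <;> rw [h] <;> norm_num
    have e3 := (h3 q e2).2
    have e4 : q = p + d := by omega
    rw [e4, h2] at hq
    exact hq
  · intro h
    exact ⟨p + d, by rw [h2]; exact h, fun k hk => (h3 k hk).2⟩

theorem ShapeD.top {τ : ℂ[T;T⁻¹]} {L : ℂ} {d : ℕ} (h : ShapeD τ L d) (hL : L ≠ 0) (c : ℂ) :
    HasTop τ c ↔ c = L := by
  obtain ⟨p, h1, h2, h3⟩ := h
  constructor
  · rintro ⟨hc, q, hq, hq2⟩
    have e1 : p + d ≤ q := hq2 _ (by rw [h2]; exact hL)
    have e2 : τ.coeff q ≠ 0 := by rw [hq]; exact hc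
    have e3 := (h3 q e2).2
    have e4 : q = p + d := by omega
    rw [e4, h2] at hq
    exact hq.symm
  · rintro rfl
    exact ⟨hL, p + d, h2, fun k hk => (h3 k hk).2⟩

theorem shapeN {τ p : ℂ[T;T⁻¹]} {c L : ℂ} {N : ℤ} (hN : 1 ≤ N)
    (h : τ * (T 2 - C c * T 1 + 1) = p)
    (hp : ∀ k, p.coeff k ≠ 0 → -N ≤ k ∧ k ≤ N) (h1 : p.coeff N = L) (h2 : p.coeff (-N) = L)
    (hL : L ≠ 0) :
    τ.coeff (N - 2) = L ∧ τ.coeff (-N) = L ∧ ∀ k, τ.coeff k ≠ 0 → -N ≤ k ∧ k ≤ N - 2 := by
  have key : ∀ k, τ.coeff (k - 2) - c * τ.coeff (k - 1) + τ.coeff k = p.coeff k := by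
    intro k
    rw [← h]
    have e : τ * (T 2 - C c * T 1 + 1) = T 2 * τ - C c * (T 1 * τ) + τ := by ring
    rw [e, AddMonoidAlgebra.coeff_add, AddMonoidAlgebra.coeff_sub, Finsupp.add_apply,
      Finsupp.sub_apply, coeff_T_mul, coeff_C_mul, coeff_T_mul]
  have hne : τ.coeff.support.Nonempty := by
    by_contra h0
    rw [Finset.not_nonempty_iff_eq_empty, Finsupp.support_eq_empty] at h0
    have h3 := key N
    rw [h0, h1] at h3
    simp at h3
    exact hL h3.symm
  have hmax : ∀ k, τ.coeff k ≠ 0 → k ≤ N - 2 := by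
    intro k hk
    have hk' : k ∈ τ.coeff.support := Finsupp.mem_support_iff.2 hk
    have hM := Finset.le_max' _ k hk'
    set M := τ.coeff.support.max' ⟨k, hk'⟩ with hMd
    have hMm : M ∈ τ.coeff.support := Finset.max'_mem _ _
    have h3 : ∀ j, M < j → τ.coeff j = 0 := by
      intro j hj
      by_contra hj0
      have := Finset.le_max' _ j (Finsupp.mem_support_iff.2 hj0)
      omega
    have h4 := key (M + 2)
    rw [h3 (M + 2 - 1) (by omega), h3 (M + 2) (by omega)] at h4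
    have h5 : M + 2 - 2 = M := by ring
    rw [h5, mul_zero, sub_zero, add_zero] at h4
    have h6 := (hp (M + 2) (by rw [← h4]; exact Finsupp.mem_support_iff.1 hMm)).2
    omega
  have hmin : ∀ k, τ.coeff k ≠ 0 → -N ≤ k := by
    intro k hk
    have hk' : k ∈ τ.coeff.support := Finsupp.mem_support_iff.2 hk
    have hM := Finset.min'_le _ k hk'
    set M := τ.coeff.support.min' ⟨k, hk'⟩ with hMd
    have hMm : M ∈ τ.coeff.support := Finset.min'_mem _ _
    have h3 : ∀ j, j < M → τ.coeff j = 0 := by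
      intro j hj
      by_contra hj0
      have := Finset.min'_le _ j (Finsupp.mem_support_iff.2 hj0)
      omega
    have h4 := key M
    rw [h3 (M - 1) (by omega), h3 (M - 2) (by omega), mul_zero, sub_zero, zero_add] at h4
    have h6 := (hp M (by rw [← h4]; exact Finsupp.mem_support_iff.1 hMm)).1
    omega
  have hz : ∀ k, (k < -N ∨ N - 2 < k) → τ.coeff k = 0 := by
    intro k hk
    by_contra h0
    have := hmax k h0
    have := hmin k h0
    omega
  refine ⟨?_, ?_, fun k hk => ⟨hmin k hk, hmax k hk⟩⟩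
  · have h3 := key N
    rw [hz (N - 1) (by omega), hz N (by omega), h1] at h3
    linear_combination h3
  · have h3 := key (-N)
    rw [hz (-N - 1) (by omega), hz (-N - 2) (by omega), h2] at h3
    linear_combination h3

theorem coeff_EV {e : ℤ} (he : e = 1 ∨ e = -1) (P : Polynomial ℂ) (k : ℤ) :
    (EV e P).coeff k = if 0 ≤ e * k then P.coeff (e * k).toNat else 0 := by
  induction P using Polynomial.induction_on' with
  | add p q hp hq =>
    rw [map_add, AddMonoidAlgebra.coeff_add, Finsupp.add_apply, hp, hq]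
    split_ifs
    · rw [Polynomial.coeff_add]
    · rw [add_zero]
  | monomial n c =>
    have h1 : EV e (Polynomial.monomial n c) = T ((n : ℤ) * e) * C c := by
      show Polynomial.eval₂ (C : ℂ →+* ℂ[T;T⁻¹]) (T e) (Polynomial.monomial n c) = _
      rw [Polynomial.eval₂_monomial, T_pow, mul_comm]
    rw [h1, coeff_T_mul, C_apply, Polynomial.coeff_monomial]
    rcases he with rfl | rfl
    · split_ifs <;> first | rfl | (exfalso; omega)
    · split_ifs <;> first | rfl | (exfalso; omega)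

theorem shape_ofD {τ : ℂ[T;T⁻¹]} {P : Polynomial ℂ} {e : ℤ} (he : e = 1 ∨ e = -1) {c L : ℂ}
    {g : ℕ} (hg : 1 ≤ g)
    (h : τ * (T e ^ 2 - C c * T e + 1) = T (-(2 * (g : ℤ) * e)) * EV e P)
    (hP : P.natDegree ≤ 4 * g) (h1 : P.coeff (4 * g) = L) (h0 : P.coeff 0 = L) (hL : L ≠ 0) :
    ShapeD τ L (2 * (2 * g - 1)) := by
  have key : ∀ k, (T (-(2 * (g : ℤ) * e)) * EV e P).coeff k =
      if 0 ≤ e * k + 2 * g then P.coeff (e * k + 2 * g).toNat else 0 := by
    intro k
    rw [coeff_T_mul, coeff_EV he]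
    have e1 : e * (k - -(2 * (g : ℤ) * e)) = e * k + 2 * g := by
      rcases he with rfl | rfl <;> ring
    rw [e1]
  set p := T (-(2 * (g : ℤ) * e)) * EV e P with hpdef
  have hp : ∀ k, p.coeff k ≠ 0 → -(2 * (g : ℤ)) ≤ k ∧ k ≤ 2 * (g : ℤ) := by
    intro k hk
    rw [key] at hk
    split_ifs at hk with h2
    · have h3 : (e * k + 2 * g).toNat ≤ P.natDegree := Polynomial.le_natDegree_of_ne_zero hk
      rcases he with rfl | rfl
      · omega
      · omega
    · exact absurd rfl hk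
  have h4g : (4 * (g : ℤ)).toNat = 4 * g := by omega
  have hp1 : p.coeff (2 * (g : ℤ)) = L := by
    rw [key]
    rcases he with rfl | rfl
    · rw [if_pos (by omega), show (1 * (2 * (g : ℤ)) + 2 * g) = 4 * g by ring, h4g, h1]
    · rw [if_pos (by omega), show (-1 * (2 * (g : ℤ)) + 2 * g) = 0 by ring, Int.toNat_zero, h0]
  have hp2 : p.coeff (-(2 * (g : ℤ))) = L := by
    rw [key]
    rcases he with rfl | rfl
    · rw [if_pos (by omega), show (1 * (-(2 * (g : ℤ))) + 2 * g) = 0 by ring, Int.toNat_zero, h0]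
    · rw [if_pos (by omega), show (-1 * (-(2 * (g : ℤ))) + 2 * g) = 4 * g by ring, h4g, h1]
  have hd : ((2 * (2 * g - 1) : ℕ) : ℤ) = 4 * g - 2 := by omega
  rcases he with rfl | rfl
  · have e1 : T 1 ^ 2 = (T 2 : ℂ[T;T⁻¹]) := by rw [T_pow]; norm_num
    rw [e1] at h
    obtain ⟨k1, k2, k3⟩ := shapeN (N := 2 * (g : ℤ)) (by omega) h hp hp1 hp2 hL
    refine ⟨-(2 * (g : ℤ)), k2, ?_, fun k hk => ?_⟩
    · rw [hd, ← k1]
      congr 1
      ring
    · rw [hd]
      have := k3 k hk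
      omega
  · have e1 : T (-1) ^ 2 = (T (-2) : ℂ[T;T⁻¹]) := by rw [T_pow]; norm_num
    have e2 : (T (-2) : ℂ[T;T⁻¹]) * T 2 = 1 := by rw [← T_add]; norm_num [T_zero]
    have e3 : (T (-2) : ℂ[T;T⁻¹]) * T 1 = T (-1) := by rw [← T_add]; norm_num
    have h' : (T (-2) * τ) * (T 2 - C c * T 1 + 1) = p := by
      rw [← h, e1]
      linear_combination τ * e2 - τ * C c * e3
    obtain ⟨k1, k2, k3⟩ := shapeN (N := 2 * (g : ℤ)) (by omega) h' hp hp1 hp2 hL
    rw [coeff_T_mul] at k1 k2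
    refine ⟨-(2 * (g : ℤ)) + 2, ?_, ?_, ?_⟩
    · rw [← k2]
      congr 1
    · rw [hd, ← k1]
      congr 1
      ring
    · intro k hk
      rw [hd]
      have := k3 (k - 2) (by rw [coeff_T_mul, show k - 2 - -2 = k by ring]; exact hk)
      omega

end Pool.Agent.TBK
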