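import Pool.Agent.TBK.FoxP
import Pool.Agent.TBK.LaurN

/-!
# TBK/Tors: the torsion of a representation with nonzero top coefficient

Adapt `torsion_main` of DFJ/TorFinal (meridian `gb = t`, `e = (chi φ gb).toAdd = ± 1` by `chi_t`;
`r = Xf a (2g+1)`).
* Denominator: `(ringMap φ α (of t - 1)).det = T e ^ 2 - C (tr (rho α gb)) * T e + 1`
  (`ringMap_of`, `Rh_eq`, `det_denom`), not zero (as there).
* Fox derivatives exist and are unique (`exists_fox`, `fox_unique`), `FoxR (Rh φ α) d` (`foxR_of`).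
* Existence: `hfox.fund r` and `Rh_rel` give
  `d 0 r * (Rh x - 1) + d 1 r * (Rh t - 1) = 0`, so
  `det (d 0 r) * det (Rh x - 1) = det (d 1 r) * det (Rh t - 1)` (`det (-A) = det A` for 2 x 2
  matrices). `Rh x = emb (mx (rho α ga))` (`Rh_eq0`, `chi_X φ 1`), so
  `det (Rh x - 1) = C (2 - tr (rho α ga))` (`det_sub_one`, `emb_det`), invertible by `hx`. So
  `τ = C ((2 - tr (rho α ga))⁻¹) * det (d 1 r)` works.
* Uniqueness: cancel the denominator (`ℂ[T;T⁻¹]` is a domain).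
* Shape: `fox_det` and `shape_ofD`.
-/

set_option autoImplicit false

namespace Pool.Agent.TBK

open Pool.Agent.DFJ LaurentPolynomial Matrix

theorem tors_main {g : ℕ} (hg : 1 ≤ g) {a : ℕ → ℤ} (φ : TBGroup g a →* Multiplicative ℤ)
    (hφ : Function.Surjective φ) (α : TBGroup g a →* SLC) (hx : tr (rho α ga) ≠ 2) {L : ℂ}
    (hL : L = ∏ j ∈ Finset.Icc 1 (2 * g), PP (a j).natAbs (tr (rho α (Xf a j))))
    (hL0 : L ≠ 0) :
    (∃! τ, IsTorsion φ α τ) ∧ ∀ τ, IsTorsion φ α τ → ShapeD τ L (2 * (2 * g - 1)) := by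
  have hdom : ∀ {x y z : ℂ[T;T⁻¹]}, z ≠ 0 → x * z = y * z → x = y := by
    intro x y z hz h
    exact mul_right_cancel₀ hz h
  -- the exponent
  have he := chi_t φ hφ
  set e := (chi φ gb).toAdd with hedef
  -- the denominator
  have hden : ∀ c, tr (rho α gb) = c →
      (ringMap φ α (MonoidAlgebra.of ℤ _ (FreeGroup.of 1) - 1)).det =
        T e ^ 2 - C c * T e + 1 := by
    intro c hc
    rw [map_sub, map_one, ringMap_of]
    have h1 : Rh φ α (FreeGroup.of 1) = (T e : ℂ[T;T⁻¹]) • emb (mx (rho α gb)) := by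
      rw [Rh_eq, hedef]
    rw [h1, det_denom c _ hc]
  have hden0 : (ringMap φ α (MonoidAlgebra.of ℤ _ (FreeGroup.of 1) - 1)).det ≠ 0 := by
    rw [hden _ rfl]
    intro h
    have h2 := congrArg (fun f : ℂ[T;T⁻¹] => f.coeff 0) h
    have e1 : T e ^ 2 = (T (2 * e) : ℂ[T;T⁻¹]) := by rw [T_pow]; norm_num
    have e3 : (1 : ℂ[T;T⁻¹]) = C 1 := (map_one _).symm
    rw [e1, e3, mul_comm (C _) (T e)] at h2
    simp only [AddMonoidAlgebra.coeff_add, AddMonoidAlgebra.coeff_sub, Finsupp.add_apply,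
      Finsupp.sub_apply, coeff_T_mul, C_apply, T_apply] at h2
    rw [if_neg (by omega), if_neg (by omega)] at h2
    simp at h2
  -- the Fox derivative
  obtain ⟨D, hD1, hD2⟩ : ∃ D, IsFox D ∧ ∀ D', IsFox D' → D' = D := by
    have hex : ∀ j : Fin 2, ∃ Dj : FreeGroup (Fin 2) → MonoidAlgebra ℤ (FreeGroup (Fin 2)),
        (∀ i, Dj (FreeGroup.of i) = if i = j then 1 else 0) ∧
        ∀ u v, Dj (u * v) = Dj u + MonoidAlgebra.of ℤ _ u * Dj v := fun j =>
      exists_fox (MonoidAlgebra.of ℤ (FreeGroup (Fin 2))) (fun i => if i = j then 1 else 0)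
    choose D hD using hex
    exact ⟨D, ⟨fun j i => (hD j).1 i, fun j u v => (hD j).2 u v⟩,
      fun D' hD' => fox_unique hD' ⟨fun j i => (hD j).1 i, fun j u v => (hD j).2 u v⟩⟩
  have hfox := foxR_of φ α hD1
  set d : Fin 2 → FreeGroup (Fin 2) → Matrix (Fin 2) (Fin 2) ℂ[T;T⁻¹] :=
    fun j u => ringMap φ α (D j u) with hddef
  -- existence
  have hexi : (d 0 (Xf a (2 * g + 1))).det = (C ((2 - tr (rho α ga))⁻¹) *
      (d 1 (Xf a (2 * g + 1))).det) *
      (ringMap φ α (MonoidAlgebra.of ℤ _ (FreeGroup.of 1) - 1)).det := by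
    have h0 := hfox.fund (Xf a (2 * g + 1))
    have hr : Rh φ α (Xf a (2 * g + 1)) = 1 := Rh_rel φ α
    rw [hr, sub_self] at h0
    have h1 := congrArg Matrix.det (eq_neg_of_add_eq_zero_left h0)
    have hn : ∀ M : Matrix (Fin 2) (Fin 2) ℂ[T;T⁻¹], (-M).det = M.det := by
      intro M
      rw [det_neg]; simp
    have hx1 : chi φ ga = 1 := chi_X φ 1
    rw [hn, det_mul, det_mul, Rh_eq0 φ α hx1] at h1
    have h2 : (emb (mx (rho α ga)) - 1).det = C (2 - tr (rho α ga)) := by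
      rw [← det_sub_one, ← emb_det, map_sub, map_one]
    have h3 : (ringMap φ α (MonoidAlgebra.of ℤ _ (FreeGroup.of 1) - 1)).det =
        (Rh φ α gb - 1).det := by
      rw [map_sub, map_one, ringMap_of]
    rw [h2, ← h3] at h1
    have h5 : (C ((2 - tr (rho α ga))⁻¹) : ℂ[T;T⁻¹]) * C (2 - tr (rho α ga)) = 1 := by
      rw [← map_mul, inv_mul_cancel₀ (fun h => hx (sub_eq_zero.1 h).symm), map_one]
    linear_combination C ((2 - tr (rho α ga))⁻¹) * h1 - (d 0 (Xf a (2 * g + 1))).det * h5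
  have hφ1 : φ (PresentedGroup.of 1) ≠ 1 := by
    have h1 : φ (PresentedGroup.of 1) = chi φ gb := rfl
    rw [h1]
    intro h2
    rw [hedef, h2, toAdd_one] at he
    omega
  refine ⟨⟨_, ⟨hφ1, D, hD1, hexi⟩, ?_⟩, ?_⟩
  · rintro τ ⟨-, D', hD', h⟩
    rw [hD2 D' hD'] at h
    exact hdom hden0 (h.symm.trans hexi)
  · rintro τ ⟨-, D', hD', h⟩
    rw [hD2 D' hD', hden _ rfl] at h
    obtain ⟨P, k1, k2, k3, k4⟩ := fox_det φ α hfox
    rw [← hL] at k3 k4
    exact shape_ofD he hg (h.symm.trans k1) k2 k3 k4 hL0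

end Pool.Agent.TBK
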