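import Pool.Agent.TBK.Mats
import Pool.Agent.TBK.Bad
import Pool.Agent.TBK.Tors
import Pool.Agent.TBK.GrpB

/-!
# TBK/Final: two-bridge knots of all genera

* `mx_pow_al`: `mx (X ^ (k+1)) = al (k+1) (tr X) • mx X - al k (tr X) • 1` (induction,
  `mx_pow_step`).
* `NT_of`: if `al m (tr X) = 0`, `m = k + 1`, then `mx (X ^ m)` is a scalar of determinant `1`, so
  `X ^ (2 m) = 1` and `X = 1`, `tr X = 2`, `al m 2 = m ≠ 0`.
-/

set_option autoImplicit false

namespace Pool.Agent.TBK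

open Pool.Agent.DFJ LaurentPolynomial Matrix

theorem mx_pow_al (X : SLC) (k : ℕ) :
    mx (X ^ (k + 1)) = al (k + 1) (tr X) • mx X - al k (tr X) • (1 : Matrix (Fin 2) (Fin 2) ℂ) := by
  induction k using Nat.strong_induction_on with
  | _ n ih =>
    match n with
    | 0 => simp
    | 1 =>
      rw [al_step, al_one, al_zero, one_smul, sub_zero, mul_one, pow_two, mx_mul, mx_sq]
    | (n + 2) =>
      rw [mx_pow_step, ih (n + 1) (by omega), ih n (by omega), al_step (n + 1), al_step n]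
      module

theorem NT_of {X : SLC} (h : ∀ k : ℕ, 0 < k → X ^ k = 1 → X = 1) : NT (tr X) := by
  intro m hm h0
  obtain ⟨k, rfl⟩ : ∃ k, m = k + 1 := ⟨m - 1, by omega⟩
  have h1 := mx_pow_al X k
  rw [h0, zero_smul, zero_sub] at h1
  have hd := mx_det (X ^ (k + 1))
  rw [h1, ← neg_smul, det_smul, det_one, mul_one, Fintype.card_fin] at hd
  have h2 : X ^ ((k + 1) * 2) = 1 := by
    rw [pow_mul, pow_two]
    apply Subtype.ext
    change mx (X ^ (k + 1) * X ^ (k + 1)) = mx 1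
    rw [mx_mul, h1, mx_one, ← neg_smul, smul_mul_smul_comm, one_mul, ← pow_two, hd, one_smul]
  have h3 := h _ (by omega) h2
  rw [h3, tr, mx_one, trace_one, Fintype.card_fin] at h0
  have h4 := al_at_two (k + 1) (R := ℂ)
  have h5 : ((2 : ℕ) : ℂ) = 2 := by norm_num
  rw [h5, h4] at h0
  exact Nat.cast_ne_zero.2 (Nat.succ_ne_zero k) h0

variable {g : ℕ} {a : ℕ → ℤ}

/-- The data of a good representation. -/
theorem good_data (hg : 1 ≤ g) (ha : ∀ j, 1 ≤ j → j ≤ 2 * g → a j ≠ 0)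
    {α : TBGroup g a →* SLC} (hα : Good α) :
    ∃ w : ℂ, Cl (2 * g) (sg a) w ∧ NTs (2 * g) (sg a) w ∧
      ∀ j, 1 ≤ j → j ≤ 2 * g → tr (rho α (Xf a j)) = Wc (sg a) w j ^ 2 + 2 := by
  have hX : ∀ j, rho α (Xf a j) = Xw (α (PresentedGroup.of 0)) (α (PresentedGroup.of 1)) a j := by
    intro j
    exact map_Xw (rho α) ga gb a j
  have hX1 : ∀ j, rho α (Xf a j) =
      α (Xw (PresentedGroup.of 0) (PresentedGroup.of 1) a j) := by
    intro j
    rw [hX, map_Xw]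
  have hrel : Xw (α (PresentedGroup.of 0)) (α (PresentedGroup.of 1)) a (2 * g + 1) = 1 := by
    rw [← hX]
    exact rho_rel α
  obtain ⟨w, hw0, hw1, hw2⟩ := mats (even_two_mul g) hrel hα.par hα.nab
  have htr : ∀ j, 1 ≤ j → j ≤ 2 * g → tr (rho α (Xf a j)) = Wc (sg a) w j ^ 2 + 2 := by
    intro j h1 h2
    rw [hX]
    exact hw2 j h1 h2
  refine ⟨w, ⟨by omega, even_two_mul g, fun j h1 h2 => ?_, hw0, hw1⟩, fun j h1 h2 => ?_, htr⟩
  · have h3 := ha j h1 h2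
    rw [← Int.natAbs_ne_zero] at h3 ⊢
    rwa [sg_natAbs]
  · rw [← htr j h1 h2]
    apply NT_of
    intro k hk hk1
    rw [hX1] at hk1 ⊢
    exact hα.tf _ k hk hk1

/-- The torsion of a good representation. -/
theorem good_tors (hg : 1 ≤ g) (ha : ∀ j, 1 ≤ j → j ≤ 2 * g → a j ≠ 0)
    {φ : TBGroup g a →* Multiplicative ℤ} (hφ : Function.Surjective φ)
    {α : TBGroup g a →* SLC} (hα : Good α) :
    ∃ w : ℂ, Cl (2 * g) (sg a) w ∧ NTs (2 * g) (sg a) w ∧
      (mx (α (PresentedGroup.of 0))).trace = w ^ 2 + 2 ∧ (∃! τ, IsTorsion φ α τ) ∧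
      ∀ τ, IsTorsion φ α τ → ShapeD τ (LL (sg a) (2 * g) w) (2 * (2 * g - 1)) := by
  obtain ⟨w, hc, hs, htr⟩ := good_data hg ha hα
  have h1 : tr (rho α ga) = w ^ 2 + 2 := htr 1 le_rfl (by omega)
  have hx : tr (rho α ga) ≠ 2 := by
    rw [h1]
    intro h
    exact hc.w0 (pow_eq_zero_iff two_ne_zero |>.1 (by linear_combination h))
  have hL : LL (sg a) (2 * g) w =
      ∏ j ∈ Finset.Icc 1 (2 * g), PP (a j).natAbs (tr (rho α (Xf a j))) := by
    unfold LL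
    refine Finset.prod_congr rfl fun j hj => ?_
    rw [Finset.mem_Icc] at hj
    rw [sg_natAbs, htr j hj.1 hj.2]
  obtain ⟨h2, h3⟩ := tors_main hg φ hφ α hx hL (hc.LL_ne_zero hs)
  exact ⟨w, hc, hs, h1, h2, h3⟩

theorem monic_iff (hg : 1 ≤ g) (ha : ∀ j, 1 ≤ j → j ≤ 2 * g → a j ≠ 0)
    {φ : TBGroup g a →* Multiplicative ℤ} (hφ : Function.Surjective φ)
    {α : TBGroup g a →* SLC} (hα : Good α) {τ : ℂ[T;T⁻¹]} (hτ : IsTorsion φ α τ)
    (h : ∀ w : ℂ, Cl (2 * g) (sg a) w → NTs (2 * g) (sg a) w →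
      (mx (α (PresentedGroup.of 0))).trace = w ^ 2 + 2 → LL (sg a) (2 * g) w = 1 →
        ∀ j, 1 ≤ j → j ≤ 2 * g → (a j).natAbs = 1) :
    IsMonic τ ↔ (commutator (TBGroup g a)).FG := by
  obtain ⟨w, hc, hs, h1, -, h3⟩ := good_tors hg ha hφ hα
  rw [(h3 τ hτ).monic (hc.LL_ne_zero hs), fg_iff' ha]
  constructor
  · rintro (h4 | h4)
    · exact h w hc hs h1 h4
    · exact absurd h4 hc.LL_ne_neg
  · intro h4
    left
    exact LL_ones fun j h5 h6 => by rw [sg_natAbs]; exact h4 j h5 h6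

/-- first part -/
theorem part_one (hg : 1 ≤ g) (ha : ∀ j, 1 ≤ j → j ≤ 2 * g → a j ≠ 0)
    {φ : TBGroup g a →* Multiplicative ℤ} (hφ : Function.Surjective φ)
    {α : TBGroup g a →* SLC} (hα : Good α) :
    (∃! τ, IsTorsion φ α τ) ∧ ∀ τ, IsTorsion φ α τ →
      HasDegree τ (2 * (2 * g - 1)) ∧ ¬ HasTop τ (-1) ∧
        ((commutator (TBGroup g a)).FG → HasTop τ 1) ∧
        ((∃ r : ℝ, Polynomial.aeval r (minpoly ℚ (mx (α (PresentedGroup.of 0))).trace) = 0) →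
          (IsMonic τ ↔ (commutator (TBGroup g a)).FG)) := by
  obtain ⟨w, hc, hs, h1, h2, h3⟩ := good_tors hg ha hφ hα
  refine ⟨h2, fun τ hτ => ⟨(h3 τ hτ).degree (hc.LL_ne_zero hs), ?_, ?_, ?_⟩⟩
  · rw [(h3 τ hτ).top (hc.LL_ne_zero hs)]
    intro h
    exact hc.LL_ne_neg h.symm
  · intro hfg
    rw [(h3 τ hτ).top (hc.LL_ne_zero hs)]
    rw [fg_iff' ha] at hfg
    exact (LL_ones fun j h5 h6 => by rw [sg_natAbs]; exact hfg j h5 h6).symm
  · rintro ⟨r, hr⟩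
    refine monic_iff hg ha hφ hα hτ fun w' hc' hs' h1' hL j h5 h6 => ?_
    rw [h1'] at hr
    have := hc'.LL_real hr hL j h5 h6
    rwa [sg_natAbs] at this

theorem sg_update (a : ℕ → ℤ) (i : ℕ) (c : ℤ) :
    sg (Function.update a i c) = Function.update (sg a) i ((-1) ^ i * c) := by
  funext j
  unfold sg
  by_cases h : j = i
  · subst h
    rw [Function.update_self, Function.update_self]
  · rw [Function.update_of_ne h, Function.update_of_ne h]

/-- second part -/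
theorem part_two {i : ℕ} (hi : 1 ≤ i) (hin : i ≤ 2 * g)
    (ha : ∀ j, 1 ≤ j → j ≤ 2 * g → j ≠ i → a j ≠ 0) :
    {c : ℤ | c ≠ 0 ∧ ¬ MonicIffFibered g (Function.update a i c)}.Finite := by
  have hb : ∀ j, 1 ≤ j → j ≤ 2 * g → j ≠ i → sg a j ≠ 0 := by
    intro j h1 h2 h3
    have h4 := ha j h1 h2 h3
    rw [← Int.natAbs_ne_zero] at h4 ⊢
    rwa [sg_natAbs]
  have hfin := bad_finite (even_two_mul g) hi hin hb
  have hinj : Set.InjOn (fun c : ℤ => (-1) ^ i * c)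
      ((fun c : ℤ => (-1) ^ i * c) ⁻¹' {c : ℤ | ∃ w : ℂ,
        Cl (2 * g) (Function.update (sg a) i c) w ∧ NTs (2 * g) (Function.update (sg a) i c) w ∧
          (LL (Function.update (sg a) i c) (2 * g) w = 1 ∨
            LL (Function.update (sg a) i c) (2 * g) w = -1)}) := by
    intro c _ c' _ h
    exact mul_left_cancel₀ (pow_ne_zero i (by norm_num : (-1 : ℤ) ≠ 0)) h
  refine (hfin.preimage hinj).subset ?_
  rintro c ⟨hc0, hc⟩
  change ∃ w : ℂ, _
  by_contra hcon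
  apply hc
  intro φ hφ α hα τ hτ
  have ha' : ∀ j, 1 ≤ j → j ≤ 2 * g → Function.update a i c j ≠ 0 := by
    intro j h1 h2
    by_cases h : j = i
    · subst h
      rwa [Function.update_self]
    · rw [Function.update_of_ne h]
      exact ha j h1 h2 h
  refine monic_iff (by omega) ha' hφ hα hτ fun w hcl hs _ hL => ?_
  exfalso
  apply hcon
  rw [sg_update] at hcl hs hL
  exact ⟨w, hcl, hs, Or.inl hL⟩

/-- third part -/
theorem part_three {i : ℕ} (hi : 1 ≤ i) (hin : i ≤ 2 * g)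
    (ha : ∀ j, 1 ≤ j → j ≤ 2 * g → a j ≠ 0)
    (h1 : ∀ j, 1 ≤ j → j ≤ 2 * g → j ≠ i → (a j).natAbs = 1) : MonicIffFibered g a := by
  intro φ hφ α hα τ hτ
  refine monic_iff (by omega) ha hφ hα hτ fun w hcl hs _ hL j h5 h6 => ?_
  by_cases h : j = i
  · subst h
    have := hcl.LL_single hs h5 h6 (fun k h7 h8 h9 => by rw [sg_natAbs]; exact h1 k h7 h8 h9) hL
    rwa [sg_natAbs] at this
  · exact h1 j h5 h6 h

end Pool.Agent.TBK
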