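import Mathlib

/-!
# TBK/DefsD: determinants of the partial plumbings (statement file, do not change)
-/

set_option autoImplicit false

namespace Pool.Agent.TBK

/-- `d_0 = 0`, `d_1 = 1`, `d_{i+1} = 2 a_i d_i - d_{i-1}`: up to sign `d_{i+1}` is the determinant
of the link bounding the plumbing of the first `i` annuli. -/
def dd (a : ℕ → ℤ) : ℕ → ℤ
  | 0 => 0
  | 1 => 1
  | i + 2 => 2 * a (i + 1) * dd a (i + 1) - dd a i

/-- The smaller one of `∑ (|a_j| - 1) |d_j|`, `1 ≤ j ≤ 2g`, and `2 |d_{2g}|`. -/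
def bd (a : ℕ → ℤ) (g : ℕ) : ℕ :=
  min (∑ j ∈ Finset.Icc 1 (2 * g), ((a j).natAbs - 1) * (dd a j).natAbs)
    (2 * (dd a (2 * g)).natAbs)

end Pool.Agent.TBK
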