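import Pool.Agent.DFJ.FinOO
import Pool.Agent.TBK.ChainL

/-!
# TBK/Two: the chain in characteristic two

`F` is a field of characteristic two and `gg y = y + y⁻¹`.
* `gg_sq`: `gg y ^ 2 = gg (y ^ 2)` (characteristic two, `y ≠ 0`).
* `gg_inv`, `gg_natAbs`: `gg (y ^ b) = gg (y ^ |b|)` (`gg y⁻¹ = gg y`).
* `gg_eq_zero`: `y + y⁻¹ = 0` iff `y² = 1` iff `(y - 1)² = 0` iff `y = 1`.
* `act_two`: for `x, ζ ≠ 0`: `act (gg ζ) b (gg x, gg (x ζ)) = (gg (x ζ^(2b)), gg (x ζ^(2b+1)))`.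
  By induction on `b` (`Int.induction_on` with `act_add`), the step being
  `act_one`: `gg x - gg ζ gg (x ζ) = gg (x ζ²)` (since `gg ζ gg(x ζ) = gg (x ζ²) + gg x`, and
  `2 = 0`), then the second component is `gg (x ζ) - gg ζ * gg (x ζ²) = gg (x ζ³)`; same for
  `act_neg_one`.
* `chain_two`: induction on `i` with `act_two` for `x = η^{k_i}`, `ζ = η^{k_{i+1}}`
  (`k_i + 2 b_{i+1} k_{i+1} = k_{i+2}`, `k_i + (2 b_{i+1} + 1) k_{i+1} = k_{i+2} + k_{i+1}`);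
  start: `gg (η^0) = 1 + 1 = 0`.
* `PP_two`: `s = gg ζ ^ 2 + 2 = ζ² + ζ⁻²`, `te a s = ζ^{2a} + ζ^{-2a}` (`te_lam` in DFJ/FinOO),
  `PP_spec`: `(s - 2) PP a s = te a s - 2`; `2 = 0`.
* `LL_two`: multiply the `PP_two` over `j` (`Finset.prod_mul_distrib`), with `ζ = η^{k_j}` and
  `gg_natAbs` for `ζ ^ b_j`.
-/

set_option autoImplicit false

namespace Pool.Agent.TBK

open Pool.Agent.DFJ

variable {F : Type*} [Field F]

/-- `y + y⁻¹` -/
def gg (y : F) : F := y + y⁻¹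

theorem two_zero [CharP F 2] : (2 : F) = 0 := CharTwo.two_eq_zero

theorem gg_one [CharP F 2] : gg (1 : F) = 0 := by
  have h2 := two_zero (F := F)
  unfold gg
  rw [inv_one]
  linear_combination h2

theorem gg_eq_zero [CharP F 2] {y : F} (hy : y ≠ 0) : gg y = 0 ↔ y = 1 := by
  have h2 := two_zero (F := F)
  constructor
  · intro h
    unfold gg at h
    have h1 : y * y + 1 = 0 := by
      have := congrArg (fun z => y * z) h
      simp only [mul_add, mul_zero, mul_inv_cancel₀ hy] at this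
      exact this
    have h3 : (y - 1) ^ 2 = 0 := by linear_combination h1 - y * h2
    have h4 := pow_eq_zero_iff (two_ne_zero) |>.1 h3
    linear_combination h4
  · rintro rfl
    exact gg_one

theorem gg_sq [CharP F 2] (y : F) : gg y ^ 2 = gg (y ^ 2) := by
  have h2 := two_zero (F := F)
  unfold gg
  rw [← inv_pow]
  linear_combination (y * y⁻¹) * h2

theorem gg_inv (y : F) : gg y⁻¹ = gg y := by
  unfold gg
  rw [inv_inv, add_comm]

theorem gg_natAbs (y : F) (b : ℤ) : gg (y ^ b.natAbs) = gg (y ^ b) := by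
  rcases Int.natAbs_eq b with h | h
  · conv_rhs => rw [h]
    rw [zpow_natCast]
  · conv_rhs => rw [h]
    rw [zpow_neg, zpow_natCast, gg_inv]

theorem gg_mul (x ζ : F) : gg ζ * gg x = gg (x * ζ) + gg (x * ζ⁻¹) := by
  unfold gg
  rw [mul_inv, mul_inv, inv_inv]
  ring

theorem act_two_one [CharP F 2] {x ζ : F} (hζ : ζ ≠ 0) :
    act (gg ζ) 1 (gg x, gg (x * ζ)) = (gg (x * ζ ^ 2), gg (x * ζ ^ 3)) := by
  have h2 := two_zero (F := F)
  have e1 := gg_mul (x * ζ) ζ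
  have e2 := gg_mul (x * ζ ^ 2) ζ
  have a1 : x * ζ * ζ = x * ζ ^ 2 := by ring
  have a2 : x * ζ * ζ⁻¹ = x := by rw [mul_assoc, mul_inv_cancel₀ hζ, mul_one]
  have a3 : x * ζ ^ 2 * ζ = x * ζ ^ 3 := by ring
  have a4 : x * ζ ^ 2 * ζ⁻¹ = x * ζ := by
    rw [pow_two, ← mul_assoc, mul_assoc, mul_inv_cancel₀ hζ, mul_one]
  rw [a1, a2] at e1
  rw [a3, a4] at e2
  rw [act_one]
  ext
  · simp only []
    linear_combination (-1 : F) * e1 - gg (x * ζ ^ 2) * h2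
  · simp only []
    linear_combination gg ζ * e1 + e2 + gg (x * ζ) * h2

theorem act_two_neg [CharP F 2] {x ζ : F} (hζ : ζ ≠ 0) :
    act (gg ζ) (-1) (gg (x * ζ ^ 2), gg (x * ζ ^ 3)) = (gg x, gg (x * ζ)) := by
  rw [← act_two_one hζ, ← act_add, neg_add_cancel, act_zero]

theorem act_two [CharP F 2] {x ζ : F} (hx : x ≠ 0) (hζ : ζ ≠ 0) (b : ℤ) :
    act (gg ζ) b (gg x, gg (x * ζ)) = (gg (x * ζ ^ (2 * b)), gg (x * ζ ^ (2 * b + 1))) := by
  induction b using Int.induction_on with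
  | zero => rw [act_zero]; simp
  | succ k ih =>
    rw [add_comm, act_add, ih]
    have e1 : x * ζ ^ (2 * (k : ℤ) + 1) = x * ζ ^ (2 * (k : ℤ)) * ζ := by
      rw [zpow_add₀ hζ, zpow_one]; ring
    have e2 : x * ζ ^ (2 * (1 + (k : ℤ))) = x * ζ ^ (2 * (k : ℤ)) * ζ ^ 2 := by
      rw [show (2 * (1 + (k : ℤ))) = 2 * (k : ℤ) + (2 : ℕ) by push_cast; ring,
        zpow_add₀ hζ, zpow_natCast]; ring
    have e3 : x * ζ ^ (2 * (1 + (k : ℤ)) + 1) = x * ζ ^ (2 * (k : ℤ)) * ζ ^ 3 := by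
      rw [show (2 * (1 + (k : ℤ)) + 1) = 2 * (k : ℤ) + (3 : ℕ) by push_cast; ring,
        zpow_add₀ hζ, zpow_natCast]; ring
    rw [e1, e2, e3, act_two_one hζ]
  | pred k ih =>
    rw [show (-(k : ℤ) - 1) = -1 + -(k : ℤ) by ring, act_add, ih]
    have e1 : x * ζ ^ (2 * -(k : ℤ)) = x * ζ ^ (2 * (-1 + -(k : ℤ))) * ζ ^ 2 := by
      rw [show (2 * -(k : ℤ)) = 2 * (-1 + -(k : ℤ)) + (2 : ℕ) by push_cast; ring,
        zpow_add₀ hζ, zpow_natCast]; ring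
    have e2 : x * ζ ^ (2 * -(k : ℤ) + 1) = x * ζ ^ (2 * (-1 + -(k : ℤ))) * ζ ^ 3 := by
      rw [show (2 * -(k : ℤ) + 1) = 2 * (-1 + -(k : ℤ)) + (3 : ℕ) by push_cast; ring,
        zpow_add₀ hζ, zpow_natCast]; ring
    have e3 : x * ζ ^ (2 * (-1 + -(k : ℤ)) + 1) = x * ζ ^ (2 * (-1 + -(k : ℤ))) * ζ := by
      rw [zpow_add₀ hζ, zpow_one]; ring
    rw [e1, e2, e3, act_two_neg hζ]

theorem chain_two [CharP F 2] {η : F} (hη : η ≠ 0) (b : ℕ → ℤ) (i : ℕ) :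
    Wc b (gg η) i = gg (η ^ kk b i) ∧ Wc b (gg η) (i + 1) = gg (η ^ kk b (i + 1)) ∧
      Qc b (gg η) i = gg (η ^ (kk b i + kk b (i + 1))) := by
  induction i with
  | zero =>
    have k0 : kk b 0 = 0 := rfl
    have k1 : kk b (0 + 1) = 1 := rfl
    refine ⟨?_, ?_, ?_⟩
    · rw [W_zero, k0, zpow_zero, gg_one]
    · rw [W_one, k1, zpow_one]
    · rw [Q_zero, k0, k1, zero_add, zpow_one]
  | succ i ih =>
    obtain ⟨h1, h2, h3⟩ := ih
    have hk : kk b (i + 2) = kk b i + 2 * b (i + 1) * kk b (i + 1) := rfl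
    have h3' : Qc b (gg η) i = gg (η ^ kk b i * η ^ kk b (i + 1)) := by
      rw [h3, zpow_add₀ hη]
    have key := act_two (x := η ^ kk b i) (ζ := η ^ kk b (i + 1)) (zpow_ne_zero _ hη)
      (zpow_ne_zero _ hη) (b (i + 1))
    refine ⟨h2, ?_, ?_⟩
    · rw [W_step, h1, h2, h3', key]
      simp only []
      rw [← zpow_mul, ← zpow_add₀ hη]
      congr 2
      rw [hk]; ring
    · rw [Q_step, h1, h2, h3', key]
      simp only []
      rw [← zpow_mul, ← zpow_add₀ hη]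
      congr 2
      rw [hk]; ring

theorem PP_two [CharP F 2] {ζ : F} (hζ : ζ ≠ 0) (a : ℕ) :
    PP a (gg ζ ^ 2 + 2) * gg ζ ^ 2 = gg (ζ ^ a) ^ 2 := by
  have h2 := two_zero (F := F)
  have hxy : ζ ^ 2 * (ζ⁻¹) ^ 2 = 1 := by
    rw [← mul_pow, mul_inv_cancel₀ hζ, one_pow]
  have hs : gg ζ ^ 2 + 2 = ζ ^ 2 + (ζ⁻¹) ^ 2 := by
    unfold gg
    linear_combination (ζ * ζ⁻¹ + 1) * h2
  have h3 := PP_spec a (gg ζ ^ 2 + 2)
  have h4 := te_lam hxy a
  have h5 : PP a (gg ζ ^ 2 + 2) * gg ζ ^ 2 = te a (gg ζ ^ 2 + 2) - 2 := by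
    linear_combination h3
  rw [h5, hs, h4]
  unfold gg
  rw [← inv_pow]
  have e1 : (ζ ^ 2) ^ a = (ζ ^ a) ^ 2 := by rw [← pow_mul, ← pow_mul, mul_comm]
  have e2 : ((ζ⁻¹) ^ 2) ^ a = ((ζ⁻¹) ^ a) ^ 2 := by rw [← pow_mul, ← pow_mul, mul_comm]
  rw [e1, e2]
  linear_combination (-1 - ζ ^ a * (ζ⁻¹) ^ a) * h2

theorem LL_two [CharP F 2] {η : F} (hη : η ≠ 0) (b : ℕ → ℤ) (n : ℕ) :
    LL b n (gg η) * (∏ j ∈ Finset.Icc 1 n, gg (η ^ kk b j)) ^ 2 =
      (∏ j ∈ Finset.Icc 1 n, gg ((η ^ kk b j) ^ b j)) ^ 2 := by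
  unfold LL
  rw [← Finset.prod_pow, ← Finset.prod_pow, ← Finset.prod_mul_distrib]
  apply Finset.prod_congr rfl
  intro j _
  rw [(chain_two hη b j).1, PP_two (zpow_ne_zero _ hη), gg_natAbs]

/-- Every element of an algebraically closed field is of the form `gg η`. -/
theorem exists_gg [CharP F 2] [IsAlgClosed F] (z : F) : ∃ η : F, η ≠ 0 ∧ gg η = z := by
  obtain ⟨η, hη⟩ := IsAlgClosed.exists_root (Polynomial.X ^ 2 - Polynomial.C z * Polynomial.X + 1 :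
    Polynomial F) (by
      have : (Polynomial.X ^ 2 - Polynomial.C z * Polynomial.X + 1 : Polynomial F).degree = 2 := by
        compute_degree!
      rw [this]; norm_num)
  have h : η ^ 2 - z * η + 1 = 0 := by
    have := hη
    simpa [Polynomial.IsRoot.def] using this
  have h0 : η ≠ 0 := by
    rintro rfl
    simp at h
  refine ⟨η, h0, ?_⟩
  have h2 := two_zero (F := F)
  unfold gg
  have h3 : η * (η + η⁻¹) = η * z := by
    rw [mul_add, mul_inv_cancel₀ h0]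
    linear_combination h
  exact mul_left_cancel₀ h0 h3

end Pool.Agent.TBK
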