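import Pool.Agent.TBK.DegB
import Pool.Agent.TBK.KK
import Pool.Agent.TBK.Two

/-!
# TBK/DegL: the degree of `w` is small if the top coefficient is `± 1`

In characteristic two `LL b n (gg η) = (∏ al |b_j| (te |k_j| (gg η)))²`, and the product is a monic
polynomial in `gg η` of degree `∑ (|b_j| - 1) |k_j|`.
-/

set_option autoImplicit false

namespace Pool.Agent.TBK

open Pool.Agent.DFJ Polynomial

theorem te_monic (n : ℕ) : (te (n + 1) (X : ℤ[X])).Monic ∧
    (te (n + 1) (X : ℤ[X])).natDegree = n + 1 := by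
  induction n using Nat.strong_induction_on with
  | _ n ih =>
    match n with
    | 0 => exact ⟨by rw [te_one]; exact monic_X, by rw [te_one, natDegree_X]⟩
    | 1 =>
      have e : te (1 + 1) (X : ℤ[X]) = X ^ 2 - C 2 := by
        rw [te_step 0, te_one, te_zero]
        have : (C 2 : ℤ[X]) = 2 := rfl
        rw [this]
        ring
      rw [e]
      exact ⟨monic_X_pow_sub_C 2 two_ne_zero, natDegree_X_pow_sub_C⟩
    | (n + 2) =>
      obtain ⟨h1, h2⟩ := ih (n + 1) (by omega)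
      obtain ⟨h3, h4⟩ := ih n (by omega)
      have h5 : (X * te (n + 1 + 1) (X : ℤ[X])).Monic := monic_X.mul h1
      have h6 : (X * te (n + 1 + 1) (X : ℤ[X])).natDegree = n + 2 + 1 := by
        rw [monic_X.natDegree_mul h1, h2, natDegree_X]
        ring
      have h7 : (te (n + 1) (X : ℤ[X])).natDegree <
          (X * te (n + 1 + 1) (X : ℤ[X])).natDegree := by
        rw [h4, h6]
        omega
      have e : te (n + 2 + 1) (X : ℤ[X]) = X * te (n + 1 + 1) X - te (n + 1) X :=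
        te_step (n + 1) X
      rw [e]
      refine ⟨h5.sub_of_left (degree_lt_degree h7), ?_⟩
      rw [natDegree_sub_eq_left_of_natDegree_lt h7, h6]

theorem PP_sq {R : Type*} [CommRing R] (n : ℕ) (m : R) : PP n (m ^ 2 - 2) = al n m ^ 2 := by
  obtain ⟨k, rfl | rfl⟩ := n.even_or_odd'
  · rw [PP_even, ← al_two]
    ring
  · rw [PP_odd, odd_two]

/-- the polynomial -/
noncomputable def Fp (b : ℕ → ℤ) (n : ℕ) : ℤ[X] :=
  ∏ j ∈ Finset.Icc 1 n, al (b j).natAbs (te (kk b j).natAbs (X : ℤ[X]))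

/-- its degree -/
def RR (b : ℕ → ℤ) (n : ℕ) : ℕ :=
  ∑ j ∈ Finset.Icc 1 n, ((b j).natAbs - 1) * (kk b j).natAbs

theorem Fp_monic {n : ℕ} {b : ℕ → ℤ} (hb : ∀ j, 1 ≤ j → j ≤ n → b j ≠ 0) :
    (Fp b n).Monic ∧ (Fp b n).natDegree = RR b n := by
  have key : ∀ j ∈ Finset.Icc 1 n, (al (b j).natAbs (te (kk b j).natAbs (X : ℤ[X]))).Monic ∧
      (al (b j).natAbs (te (kk b j).natAbs (X : ℤ[X]))).natDegree =
        ((b j).natAbs - 1) * (kk b j).natAbs := by
    intro j hj
    rw [Finset.mem_Icc] at hj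
    have h1 : (b j).natAbs ≠ 0 := Int.natAbs_ne_zero.2 (hb j hj.1 hj.2)
    have h2 : (kk b j).natAbs ≠ 0 := Int.natAbs_ne_zero.2 (kk_ne hb hj.1 (by omega))
    obtain ⟨p, hp⟩ : ∃ p, (b j).natAbs = p + 1 := ⟨(b j).natAbs - 1, by omega⟩
    obtain ⟨q, hq⟩ : ∃ q, (kk b j).natAbs = q + 1 := ⟨(kk b j).natAbs - 1, by omega⟩
    rw [hp, hq]
    obtain ⟨h3, h4⟩ := te_monic q
    obtain ⟨h5, h6⟩ := monic_al h3 (by rw [h4]; omega) p
    refine ⟨h5, ?_⟩
    rw [h6, h4, Nat.add_sub_cancel]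
  constructor
  · exact monic_prod_of_monic _ _ fun j hj => (key j hj).1
  · unfold Fp RR
    rw [natDegree_prod_of_monic _ _ fun j hj => (key j hj).1]
    exact Finset.sum_congr rfl fun j hj => (key j hj).2

section two

variable {F : Type*} [Field F]

theorem te_gg {η : F} (hη : η ≠ 0) (k : ℤ) : te k.natAbs (gg η) = gg (η ^ k) := by
  unfold gg
  rw [te_lam (mul_inv_cancel₀ hη)]
  have := gg_natAbs η k
  unfold gg at this
  rw [← this, inv_pow]

theorem LL_Fp [CharP F 2] [IsAlgClosed F] (b : ℕ → ℤ) (n : ℕ) (z : F) :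
    LL b n z = (eval₂RingHom (Int.castRingHom F) z (Fp b n)) ^ 2 := by
  obtain ⟨η, hη, rfl⟩ := exists_gg z
  have h2 := two_zero (F := F)
  unfold LL Fp
  rw [map_prod, ← Finset.prod_pow]
  refine Finset.prod_congr rfl fun j _ => ?_
  have h1 : eval₂RingHom (Int.castRingHom F) (gg η)
      (al (b j).natAbs (te (kk b j).natAbs (X : ℤ[X]))) =
      al (b j).natAbs (te (kk b j).natAbs (gg η)) := by
    have e1 := map_al (eval₂RingHom (Int.castRingHom F) (gg η)) (b j).natAbs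
      (te (kk b j).natAbs (X : ℤ[X]))
    have e2 := map_te (eval₂RingHom (Int.castRingHom F) (gg η)) (kk b j).natAbs (X : ℤ[X])
    have e3 : eval₂RingHom (Int.castRingHom F) (gg η) X = gg η := eval₂_X _ _
    rw [e3] at e2
    rw [e2] at e1
    exact e1
  rw [h1, te_gg hη, (chain_two hη b j).1, ← PP_sq]
  congr 1
  linear_combination 2 * h2

end two

theorem deg_le {n : ℕ} {b : ℕ → ℤ} {w : ℂ} (h : Cl n b w)
    (hL : LL b n w = 1 ∨ LL b n w = -1) (hb : ∃ j, 1 ≤ j ∧ j ≤ n ∧ (b j).natAbs ≠ 1) :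
    (minpoly ℤ w).natDegree ≤ RR b n := by
  classical
  obtain ⟨h1, h2⟩ := Fp_monic h.ne
  have hR : 1 ≤ RR b n := by
    obtain ⟨j, hj1, hj2, hj3⟩ := hb
    have h3 : (b j).natAbs ≠ 0 := Int.natAbs_ne_zero.2 (h.ne j hj1 hj2)
    have h4 : (kk b j).natAbs ≠ 0 := Int.natAbs_ne_zero.2 (kk_ne h.ne hj1 (by omega))
    have h5 : ((b j).natAbs - 1) * (kk b j).natAbs ≤ RR b n :=
      Finset.single_le_sum (f := fun j => ((b j).natAbs - 1) * (kk b j).natAbs)
        (fun _ _ => Nat.zero_le _) (Finset.mem_Icc.2 ⟨hj1, hj2⟩)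
    have h6 : 1 ≤ ((b j).natAbs - 1) * (kk b j).natAbs :=
      Nat.mul_pos (by omega) (by omega)
    omega
  set f : (AlgebraicClosure (ZMod 2))[X] :=
    (Fp b n).map (Int.castRingHom (AlgebraicClosure (ZMod 2))) with hf
  have hfm : f.Monic := h1.map _
  have hfd : f.natDegree = RR b n := by rw [hf, h1.natDegree_map, h2]
  have hg : (f - C 1).natDegree = RR b n := by rw [natDegree_sub_C, hfd]
  have hg0 : f - C 1 ≠ 0 := by
    intro h0
    rw [h0, natDegree_zero] at hg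
    omega
  refine (deg_bound h hL (S := ((f - C 1).roots.toFinset : Set _)) (Finset.finite_toSet _)
    fun z hz hW hLz => ?_).trans ?_
  · rw [Finset.mem_coe, Multiset.mem_toFinset, mem_roots hg0, IsRoot.def, eval_sub, eval_C]
    have h3 := LL_Fp b n z
    rw [hLz] at h3
    have h4 : eval₂RingHom (Int.castRingHom (AlgebraicClosure (ZMod 2))) z (Fp b n) =
        f.eval z := by
      rw [hf, eval_map]
      rfl
    rw [h4] at h3
    have h5 := two_zero (F := AlgebraicClosure (ZMod 2))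
    have h6 : (f.eval z - 1) ^ 2 = 0 := by linear_combination (1 - f.eval z) * h5 - h3
    exact pow_eq_zero_iff two_ne_zero |>.1 h6
  · rw [Set.ncard_coe_finset, ← hg]
    exact (Multiset.toFinset_card_le _).trans (card_roots' _)

theorem RR_le {n : ℕ} {b : ℕ → ℤ} (hb : ∀ j, 1 ≤ j → j ≤ n → b j ≠ 0) (i : ℕ) (hi : i ≤ n) :
    2 * (RR b i : ℤ) + |kk b i| + 1 ≤ |kk b (i + 1)| := by
  induction i with
  | zero =>
    have h0 : RR b 0 = 0 := rfl
    have k0 : kk b 0 = 0 := rfl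
    have k1 : kk b (0 + 1) = 1 := rfl
    rw [h0, k0, k1]
    norm_num
  | succ i ih =>
    have h1 := ih (by omega)
    have h2 : RR b (i + 1) = RR b i + ((b (i + 1)).natAbs - 1) * (kk b (i + 1)).natAbs :=
      Finset.sum_Icc_succ_top (by omega) _
    have h3 : (b (i + 1)).natAbs ≠ 0 := Int.natAbs_ne_zero.2 (hb (i + 1) (by omega) hi)
    have h4 : (((b (i + 1)).natAbs - 1 : ℕ) : ℤ) = |b (i + 1)| - 1 := by
      rw [Nat.cast_sub (by omega), Int.natCast_natAbs, Nat.cast_one]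
    have h5 : kk b (i + 1 + 1) = kk b i + 2 * b (i + 1) * kk b (i + 1) := rfl
    have h6 : |2 * b (i + 1) * kk b (i + 1)| - |kk b i| ≤ |kk b (i + 1 + 1)| := by
      rw [h5]
      have h7 := abs_sub_abs_le_abs_sub (2 * b (i + 1) * kk b (i + 1)) (-kk b i)
      rw [abs_neg, sub_neg_eq_add] at h7
      rwa [add_comm (kk b i)]
    rw [abs_mul, abs_mul, abs_two] at h6
    rw [h2, Nat.cast_add, Nat.cast_mul, h4, Int.natCast_natAbs]
    linarith

end Pool.Agent.TBK
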