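import Pool.Agent.TBK.DegL

/-!
# TBK/DegM: a second bound for the degree of `w`, and the comparison with the determinant
-/

set_option autoImplicit false

namespace Pool.Agent.TBK

open Pool.Agent.DFJ Polynomial

section two

variable {F : Type*} [Field F]

theorem al_gg [CharP F 2] {ζ : F} (hζ : ζ ≠ 0) (b : ℤ) :
    al b.natAbs (gg ζ) ^ 2 * gg ζ ^ 2 = gg (ζ ^ (2 * b)) := by
  have h2 := two_zero (F := F)
  have h1 := PP_two hζ b.natAbs
  have h3 : PP b.natAbs (gg ζ ^ 2 + 2) = al b.natAbs (gg ζ) ^ 2 := by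
    rw [← PP_sq]
    congr 1
    linear_combination 2 * h2
  rw [h3, gg_natAbs] at h1
  rw [h1, gg_sq, ← zpow_natCast (ζ ^ b) 2, ← zpow_mul]
  congr 2
  push_cast
  ring

end two

theorem deg_le_two {n : ℕ} {b : ℕ → ℤ} {w : ℂ} (h : Cl n b w)
    (hL : LL b n w = 1 ∨ LL b n w = -1) :
    (minpoly ℤ w).natDegree ≤ 2 * (kk b n).natAbs := by
  classical
  obtain ⟨m, rfl⟩ : ∃ m, n = m + 1 := ⟨n - 1, by have := h.pos; omega⟩
  have hm : 1 ≤ m := by
    have := h.even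
    by_contra h0
    have : m = 0 := by omega
    subst this
    exact absurd h.even (by decide)
  have hbm : ∀ j, 1 ≤ j → j ≤ m → b j ≠ 0 := fun j h1 h2 => h.ne j h1 (by omega)
  obtain ⟨h1, h2⟩ := Fp_monic hbm
  have h3 := RR_le hbm m le_rfl
  have h4 : (kk b (m + 1)).natAbs ≠ 0 := Int.natAbs_ne_zero.2 (kk_ne h.ne (by omega) (by omega))
  have h5 : (kk b m).natAbs ≠ 0 := Int.natAbs_ne_zero.2 (kk_ne h.ne hm (by omega))
  obtain ⟨p, hp⟩ : ∃ p, (kk b (m + 1)).natAbs = p + 1 := ⟨(kk b (m + 1)).natAbs - 1, by omega⟩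
  obtain ⟨q, hq⟩ : ∃ q, (kk b m).natAbs = q + 1 := ⟨(kk b m).natAbs - 1, by omega⟩
  obtain ⟨h6, h7⟩ := te_monic p
  obtain ⟨h8, h9⟩ := te_monic q
  rw [← hp] at h6 h7
  rw [← hq] at h8 h9
  have hA : (te (kk b (m + 1)).natAbs (X : ℤ[X]) ^ 2).Monic := h6.pow 2
  have hAd : (te (kk b (m + 1)).natAbs (X : ℤ[X]) ^ 2).natDegree = 2 * (kk b (m + 1)).natAbs := by
    rw [h6.natDegree_pow, h7]
  have hB : (Fp b m ^ 2 * te (kk b m).natAbs (X : ℤ[X])).Monic := (h1.pow 2).mul h8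
  have hBd : (Fp b m ^ 2 * te (kk b m).natAbs (X : ℤ[X])).natDegree =
      2 * RR b m + (kk b m).natAbs := by
    rw [(h1.pow 2).natDegree_mul h8, h1.natDegree_pow, h2, h9]
  have hlt : (Fp b m ^ 2 * te (kk b m).natAbs (X : ℤ[X])).natDegree <
      (te (kk b (m + 1)).natAbs (X : ℤ[X]) ^ 2).natDegree := by
    rw [hAd, hBd]
    rw [Int.abs_eq_natAbs, Int.abs_eq_natAbs] at h3
    omega
  set G : ℤ[X] := te (kk b (m + 1)).natAbs (X : ℤ[X]) ^ 2 -
    Fp b m ^ 2 * te (kk b m).natAbs (X : ℤ[X]) with hG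
  have hGm : G.Monic := hA.sub_of_left (degree_lt_degree hlt)
  have hGd : G.natDegree = 2 * (kk b (m + 1)).natAbs := by
    rw [hG, natDegree_sub_eq_left_of_natDegree_lt hlt, hAd]
  set ι : ℤ →+* AlgebraicClosure (ZMod 2) := Int.castRingHom (AlgebraicClosure (ZMod 2)) with hι
  have hfm : (G.map ι).Monic := hGm.map _
  have hfd : (G.map ι).natDegree = 2 * (kk b (m + 1)).natAbs := by
    rw [hGm.natDegree_map, hGd]
  refine (deg_bound h hL (S := ((G.map ι).roots.toFinset : Set _)) (Finset.finite_toSet _)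
    fun z hz hW hLz => ?_).trans ?_
  · rw [Finset.mem_coe, Multiset.mem_toFinset, mem_roots hfm.ne_zero, IsRoot.def, eval_map]
    have e1 := LL_Fp b (m + 1) z
    obtain ⟨η, hη, rfl⟩ := exists_gg z
    have hte : ∀ k : ℤ, eval₂RingHom ι (gg η) (te k.natAbs (X : ℤ[X])) = gg (η ^ k) := by
      intro k
      rw [map_te]
      have e3 : eval₂RingHom ι (gg η) X = gg η := eval₂_X _ _
      rw [e3, te_gg hη]
    have e2 : eval₂RingHom ι (gg η) (Fp b (m + 1)) = eval₂RingHom ι (gg η) (Fp b m) *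
        al (b (m + 1)).natAbs (gg (η ^ kk b (m + 1))) := by
      unfold Fp
      rw [Finset.prod_Icc_succ_top (by omega), map_mul, map_al, hte]
    have e4 : al (b (m + 1)).natAbs (gg (η ^ kk b (m + 1))) ^ 2 *
        gg (η ^ kk b (m + 1)) ^ 2 = gg (η ^ kk b m) := by
      rw [al_gg (zpow_ne_zero _ hη), ← zpow_mul]
      rw [(chain_two hη b (m + 1 + 1)).1, gg_eq_zero (zpow_ne_zero _ hη)] at hW
      have e5 : kk b (m + 1 + 1) = kk b m + 2 * b (m + 1) * kk b (m + 1) := rfl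
      have e6 : kk b (m + 1) * (2 * b (m + 1)) = kk b (m + 1 + 1) - kk b m := by
        rw [e5]; ring
      rw [e6, zpow_sub₀ hη, hW, one_div, gg_inv]
    rw [hLz, e2] at e1
    have e7 : eval₂ ι (gg η) G = eval₂RingHom ι (gg η) (te (kk b (m + 1)).natAbs (X : ℤ[X])) ^ 2 -
        eval₂RingHom ι (gg η) (Fp b m) ^ 2 *
          eval₂RingHom ι (gg η) (te (kk b m).natAbs (X : ℤ[X])) := by
      rw [← map_pow, ← map_pow, ← map_mul, ← map_sub]
      rfl
    rw [e7, hte, hte, ← e4]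
    linear_combination gg (η ^ kk b (m + 1)) ^ 2 * e1
  · rw [Set.ncard_coe_finset, ← hfd]
    exact (Multiset.toFinset_card_le _).trans (card_roots' _)

/-- Comparison with the determinant. -/
theorem min_le {n : ℕ} (hn : 1 ≤ n) {b : ℕ → ℤ} (hb : ∀ j, 1 ≤ j → j ≤ n → b j ≠ 0) {D : ℕ}
    (h1 : D ≤ RR b n) (h2 : D ≤ 2 * (kk b n).natAbs) :
    5 * (D : ℤ) ≤ 2 * (|kk b (n + 1)| - 1) := by
  obtain ⟨m, rfl⟩ : ∃ m, n = m + 1 := ⟨n - 1, by omega⟩
  have hbm : ∀ j, 1 ≤ j → j ≤ m → b j ≠ 0 := fun j h1 h2 => hb j h1 (by omega)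
  have h3 := RR_le hbm m le_rfl
  have h4 : RR b (m + 1) = RR b m + ((b (m + 1)).natAbs - 1) * (kk b (m + 1)).natAbs :=
    Finset.sum_Icc_succ_top (by omega) _
  have h5 : (b (m + 1)).natAbs ≠ 0 := Int.natAbs_ne_zero.2 (hb (m + 1) (by omega) le_rfl)
  have h6 : kk b (m + 1 + 1) = kk b m + 2 * b (m + 1) * kk b (m + 1) := rfl
  have h7 : |2 * b (m + 1) * kk b (m + 1)| - |kk b m| ≤ |kk b (m + 1 + 1)| := by
    rw [h6]
    have h7 := abs_sub_abs_le_abs_sub (2 * b (m + 1) * kk b (m + 1)) (-kk b m)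
    rw [abs_neg, sub_neg_eq_add] at h7
    rwa [add_comm (kk b m)]
  rw [abs_mul, abs_mul, abs_two] at h7
  have h8 : (((b (m + 1)).natAbs - 1 : ℕ) : ℤ) = |b (m + 1)| - 1 := by
    rw [Nat.cast_sub (by omega), Int.natCast_natAbs, Nat.cast_one]
  have h9 : (D : ℤ) ≤ RR b m + (|b (m + 1)| - 1) * |kk b (m + 1)| := by
    rw [h4] at h1
    have : ((D : ℕ) : ℤ) ≤ ((RR b m + ((b (m + 1)).natAbs - 1) * (kk b (m + 1)).natAbs : ℕ) : ℤ) :=
      by exact_mod_cast h1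
    rwa [Nat.cast_add, Nat.cast_mul, h8, Int.natCast_natAbs] at this
  have h10 : (D : ℤ) ≤ 2 * |kk b (m + 1)| := by
    have : ((D : ℕ) : ℤ) ≤ ((2 * (kk b (m + 1)).natAbs : ℕ) : ℤ) := by exact_mod_cast h2
    rwa [Nat.cast_mul, Int.natCast_natAbs, Nat.cast_ofNat] at this
  have h11 : 1 ≤ |b (m + 1)| := Int.one_le_abs (hb (m + 1) (by omega) le_rfl)
  have h12 : 0 ≤ |kk b m| := abs_nonneg _
  have h13 : (0 : ℤ) ≤ RR b m := Int.natCast_nonneg _
  generalize |kk b (m + 1 + 1)| = N at *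
  generalize |kk b (m + 1)| = k at *
  generalize |kk b m| = l at *
  generalize |b (m + 1)| = β at *
  rcases (by omega : β = 1 ∨ β = 2 ∨ 3 ≤ β) with rfl | rfl | h14
  · linarith
  · linarith
  · have h15 : 3 * k ≤ β * k := by
      apply mul_le_mul_of_nonneg_right h14
      linarith
    nlinarith

end Pool.Agent.TBK
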