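import Pool.Agent.DFJ.TorShape
import Pool.Agent.TBK.Cheb2

/-!
# TBK/DetOm: the determinant of `(g^n - 1) / (g - 1)`

`det_omc` of DFJ/TorShape is the case `tr g ≠ 2`. If `tr g = 2`, then `N = mx g - 1` has trace
`0` and determinant `0` (`det_sub_one`), so `N * N = 0`
(`Nil2.sandwich` with `M = 1`), and `(1 + N)^i = 1 + i N`, so for `n = k ≥ 0`
`omc g k = ∑_{i<k} (mx g)^i = k + (∑ i) N`, whose determinant is `k²` (`det_fin_two` and the trace
and determinant of `N`). For `n = -(k+1)`: `om_negSucc`, `det (-A) = det A` for 2 x 2 matrices,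
`mx_det`. Right hand side: `PP_at_two`.
-/

set_option autoImplicit false

namespace Pool.Agent.TBK

open Pool.Agent.DFJ Matrix

theorem det_lin_nil {N : Matrix (Fin 2) (Fin 2) ℂ} (hN : Nil2 N) (a c : ℂ) :
    (a • (1 : Matrix (Fin 2) (Fin 2) ℂ) + c • N).det = a ^ 2 := by
  have h1 := hN.det0
  have h2 := hN.tr0
  rw [det_fin_two] at h1
  rw [trace_fin_two] at h2
  rw [det_fin_two]
  simp only [Matrix.add_apply, Matrix.smul_apply, smul_eq_mul, one_apply_eq]
  rw [one_apply_ne (by decide), one_apply_ne (by decide)]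
  linear_combination c ^ 2 * h1 + a * c * h2

theorem pow_nil {N : Matrix (Fin 2) (Fin 2) ℂ} (hN : N * N = 0) (i : ℕ) :
    (1 + N) ^ i = (1 : Matrix (Fin 2) (Fin 2) ℂ) + (i : ℂ) • N := by
  induction i with
  | zero => simp
  | succ i ih =>
    rw [pow_succ, ih, mul_add, mul_one, add_mul, one_mul, smul_mul_assoc, hN, smul_zero, add_zero]
    push_cast
    rw [add_smul, one_smul, add_assoc]

theorem sum_nil {N : Matrix (Fin 2) (Fin 2) ℂ} (hN : N * N = 0) (k : ℕ) :
    ∃ c : ℂ, ∑ i ∈ Finset.range k, (1 + N) ^ i =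
      (k : ℂ) • (1 : Matrix (Fin 2) (Fin 2) ℂ) + c • N := by
  induction k with
  | zero => exact ⟨0, by simp⟩
  | succ k ih =>
    obtain ⟨c, hc⟩ := ih
    refine ⟨c + k, ?_⟩
    rw [Finset.sum_range_succ, hc, pow_nil hN]
    push_cast
    rw [add_smul, one_smul, add_smul]
    abel

theorem det_omc' (g : SLC) (n : ℤ) : (omc g n).det = PP n.natAbs (tr g) := by
  by_cases hg : tr g = 2
  · have hN : Nil2 (mx g - 1) := by
      refine ⟨?_, by rw [det_sub_one, hg, sub_self]⟩
      rw [trace_sub]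
      have h1 : (mx g).trace = 2 := hg
      rw [h1, trace_one]
      norm_num
    have hNN : (mx g - 1) * (mx g - 1) = 0 := by
      have h1 := hN.sandwich 1
      rw [mul_one, one_mul, hN.tr0, zero_smul] at h1
      exact h1
    have hs : ∀ k : ℕ, (∑ i ∈ Finset.range k, (mxh g) ^ i).det = (k : ℂ) ^ 2 := by
      intro k
      obtain ⟨c, hc⟩ := sum_nil hNN k
      have h1 : mxh g = 1 + (mx g - 1) := by
        rw [add_sub_cancel]; rfl
      rw [h1, hc, det_lin_nil hN]
    rw [hg, PP_at_two]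
    cases n with
    | ofNat k => exact hs k
    | negSucc k =>
      have h1 : omc g (Int.negSucc k) =
        -(mxh (g ^ Int.negSucc k) * ∑ i ∈ Finset.range (k + 1), mxh g ^ i) := rfl
      rw [h1, det_neg, det_mul, hs]
      have h2 : (mxh (g ^ Int.negSucc k)).det = 1 := mx_det _
      rw [h2, Int.natAbs_negSucc]
      simp
  · exact det_omc hg n

end Pool.Agent.TBK
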