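import Pool.Agent.TBK.DegB
import Pool.Agent.TBK.Two
import Pool.Agent.TBK.KK

/-!
# TBK/OrdD: a lower bound for the degree of `w` from the order of `2` modulo the determinant
-/

set_option autoImplicit false

namespace Pool.Agent.TBK

open Pool.Agent.DFJ Polynomial

section two

variable {F : Type*} [Field F]

theorem gg_eq {x y : F} (hx : x ≠ 0) (hy : y ≠ 0) (h : gg x = gg y) : x = y ∨ x * y = 1 := by
  unfold gg at h
  have h1 : (x - y) * (x * y - 1) = 0 := by
    have h2 : (x + x⁻¹) * (x * y) = (y + y⁻¹) * (x * y) := by rw [h]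
    field_simp at h2
    linear_combination h2
  rcases mul_eq_zero.1 h1 with h2 | h2
  · exact Or.inl (sub_eq_zero.1 h2)
  · exact Or.inr (sub_eq_zero.1 h2)

theorem gg_pow_two [CharP F 2] (y : F) (e : ℕ) : gg y ^ 2 ^ e = gg (y ^ 2 ^ e) := by
  induction e with
  | zero => simp
  | succ e ih => rw [pow_succ, pow_mul, ih, gg_sq, ← pow_mul]

end two

/-- the roots modulo two of the minimal polynomial -/
theorem root_two {n : ℕ} {b : ℕ → ℤ} {w : ℂ} (h : Cl n b w) :
    ∃ f : (AlgebraicClosure (ZMod 2))[X], f ≠ 0 ∧ f.natDegree = (minpoly ℤ w).natDegree ∧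
      (∃ z, f.IsRoot z) ∧ (∀ z, f.IsRoot z → z ≠ 0 ∧ Wc b z (n + 1) = 0 ∧ f.IsRoot (z ^ 2)) := by
  have hint := h.integral
  have hmon := minpoly.monic hint
  obtain ⟨w', hw'⟩ := h.inv
  obtain ⟨U, hU⟩ := exists_poly w'
  have hwU : w * aeval w U = 1 := by
    have h1 := congrArg (fun x : Zw w => (x : ℂ)) hw'
    have h2 : ((wR w * w' : Zw w) : ℂ) = w * (w' : ℂ) := rfl
    have h3 : (w' : ℂ) = aeval w U := by rw [← hU, coe_aeval]
    rw [← h3, ← h2]
    exact h1
  have hdvd : ∀ G : ℤ[X], aeval w G = 0 → minpoly ℤ w ∣ G := fun G hG =>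
    minpoly.isIntegrallyClosed_dvd hint hG
  have hpos : 0 < (minpoly ℤ w).natDegree := minpoly.natDegree_pos hint
  generalize minpoly ℤ w = f at *
  set K := AlgebraicClosure (ZMod 2)
  set ι : ℤ →+* K := Int.castRingHom K with hι
  have hfm : (f.map ι).Monic := hmon.map _
  have hfd : (f.map ι).natDegree = f.natDegree := hmon.natDegree_map _
  have key : ∀ z, (f.map ι).IsRoot z → ∀ G : ℤ[X], aeval w G = 0 → eval₂ ι z G = 0 := by
    intro z hz G hG
    obtain ⟨H, rfl⟩ := hdvd G hG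
    rw [eval₂_mul]
    have h1 : eval₂ ι z f = 0 := by rw [← eval_map]; exact hz
    rw [h1, zero_mul]
  have hWX : ∀ z : K, eval₂ ι z (Wc b (X : ℤ[X]) (n + 1)) = Wc b z (n + 1) := by
    intro z
    have h3 := W_map (eval₂RingHom ι z) b X (n + 1)
    have e : eval₂RingHom ι z X = z := eval₂_X _ _
    rw [e] at h3
    exact h3.symm
  refine ⟨f.map ι, hfm.ne_zero, hfd, ?_, fun z hz => ⟨?_, ?_, ?_⟩⟩
  · apply IsAlgClosed.exists_root
    intro h0
    have := natDegree_eq_zero_iff_degree_le_zero.2 h0.le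
    omega
  · intro h0
    have h3 := key z hz (X * U - 1) (by rw [map_sub, map_mul, aeval_X, hwU, map_one, sub_self])
    rw [eval₂_sub, eval₂_mul, eval₂_X, h0, zero_mul, eval₂_one, zero_sub, neg_eq_zero] at h3
    exact one_ne_zero h3
  · have h3 := key z hz (Wc b X (n + 1)) (by rw [aeval_W]; exact h.close)
    rwa [hWX] at h3
  · have h3 : f.map ι = (f.map (Int.castRingHom (ZMod 2))).map (algebraMap (ZMod 2) K) := by
      rw [map_map]
      congr 1
    rw [IsRoot.def, h3, eval_map] at hz ⊢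
    have h4 : eval₂ (algebraMap (ZMod 2) K) (z ^ 2) (f.map (Int.castRingHom (ZMod 2))) =
        (eval₂ (algebraMap (ZMod 2) K) z (f.map (Int.castRingHom (ZMod 2)))) ^ 2 := by
      have h5 : (expand (ZMod 2) 2 (f.map (Int.castRingHom (ZMod 2)))) =
          (f.map (Int.castRingHom (ZMod 2))) ^ 2 := by
        rw [ZMod.expand_card]
      rw [← eval₂_pow, ← h5, expand_eq_comp_X_pow, eval₂_comp, eval₂_pow, eval₂_X]
    rw [h4, hz]
    ring

theorem ord_deg {n : ℕ} {b : ℕ → ℤ} {w : ℂ} (h : Cl n b w) :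
    ∃ e : ℕ, 1 ≤ e ∧ e ≤ (minpoly ℤ w).natDegree ∧
      ¬ (kk b (n + 1)).natAbs.Coprime (4 ^ e - 1) := by
  have hodd : Odd (kk b (n + 1)).natAbs := by
    rw [Int.natAbs_odd, ← Int.not_even_iff_odd, kk_parity, Nat.not_even_iff_odd]
    exact h.even.add_one
  obtain ⟨f, hf0, hfd, ⟨z, hz⟩, hall⟩ := root_two h
  obtain ⟨η, hη, rfl⟩ := exists_gg z
  obtain ⟨hz0, hW, -⟩ := hall _ hz
  rw [(chain_two hη b (n + 1)).1, gg_eq_zero (zpow_ne_zero _ hη)] at hW
  generalize (kk b (n + 1)) = N at *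
  set p := N.natAbs with hpd
  have hηp : η ^ p = 1 := by
    rcases Int.natAbs_eq N with h3 | h3
    · rw [← hpd] at h3
      rw [h3, zpow_natCast] at hW
      exact hW
    · rw [← hpd] at h3
      rw [h3, zpow_neg, zpow_natCast, inv_eq_one] at hW
      exact hW
  have hη1 : η ≠ 1 := by
    rintro rfl
    exact hz0 gg_one
  have hdvd : orderOf η ∣ p := orderOf_dvd_of_pow_eq_one hηp
  have hne : orderOf η ≠ 1 := fun h3 => hη1 (orderOf_eq_one_iff.1 h3)
  have hoo : Odd (orderOf η) := hodd.of_dvd_nat hdvd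
  have hfrob : ∀ e : ℕ, f.IsRoot (gg (η ^ 2 ^ e)) := by
    intro e
    induction e with
    | zero => simpa using hz
    | succ e ih =>
      have h3 := (hall _ ih).2.2
      rwa [gg_sq, ← pow_mul, ← pow_succ] at h3
  classical
  -- two of the roots coincide
  obtain ⟨i, j, hij, hj, hg⟩ : ∃ i j : ℕ, i < j ∧ j ≤ (minpoly ℤ w).natDegree ∧
      gg (η ^ 2 ^ i) = gg (η ^ 2 ^ j) := by
    by_contra hcon
    have hinj : Set.InjOn (fun u : ℕ => gg (η ^ 2 ^ u))
        (Finset.range ((minpoly ℤ w).natDegree + 1) : Set ℕ) := by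
      intro u hu v hv huv
      simp only [Finset.coe_range, Set.mem_Iio] at hu hv
      by_contra hne'
      rcases Nat.lt_or_gt_of_ne hne' with h3 | h3
      · exact hcon ⟨u, v, h3, by omega, huv⟩
      · exact hcon ⟨v, u, h3, by omega, huv.symm⟩
    have hcard : ((Finset.range ((minpoly ℤ w).natDegree + 1)).image
        fun u : ℕ => gg (η ^ 2 ^ u)).card ≤ f.natDegree := by
      refine le_trans (Finset.card_le_card ?_)
        ((Multiset.toFinset_card_le _).trans (card_roots' f))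
      intro y hy
      obtain ⟨u, -, rfl⟩ := Finset.mem_image.1 hy
      rw [Multiset.mem_toFinset, mem_roots hf0]
      exact hfrob u
    rw [Finset.card_image_of_injOn hinj, Finset.card_range, hfd] at hcard
    omega
  refine ⟨j - i, by omega, by omega, fun hco => ?_⟩
  have hcop : (orderOf η).Coprime (2 ^ i) := by
    apply Nat.Coprime.pow_right
    exact hoo.coprime_two_right
  have key : orderOf η ∣ 4 ^ (j - i) - 1 := by
    have e4 : 4 ^ (j - i) - 1 = (2 ^ (j - i) + 1) * (2 ^ (j - i) - 1) := by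
      have : (4 : ℕ) ^ (j - i) = 2 ^ (j - i) * 2 ^ (j - i) := by
        rw [← mul_pow]
        norm_num
      rw [this, ← Nat.sq_sub_sq]
      simp [pow_two]
    have e2 : 2 ^ j = 2 ^ i * 2 ^ (j - i) := by
      rw [← pow_add]
      congr 1
      omega
    have hpos : 1 ≤ 2 ^ (j - i) := Nat.one_le_two_pow
    rw [e4]
    rcases gg_eq (pow_ne_zero _ hη) (pow_ne_zero _ hη) hg with h4 | h4
    · apply Dvd.dvd.mul_left
      refine hcop.dvd_of_dvd_mul_left (m := 2 ^ i) ?_
      apply orderOf_dvd_of_pow_eq_one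
      have h5 : η ^ 2 ^ i * η ^ (2 ^ i * (2 ^ (j - i) - 1)) = η ^ 2 ^ i * 1 := by
        rw [← pow_add, mul_one, h4, e2]
        congr 1
        rw [Nat.mul_sub, mul_one]
        have : 2 ^ i ≤ 2 ^ i * 2 ^ (j - i) := Nat.le_mul_of_pos_right _ (by omega)
        omega
      exact mul_left_cancel₀ (pow_ne_zero _ hη) h5
    · apply Dvd.dvd.mul_right
      refine hcop.dvd_of_dvd_mul_left (m := 2 ^ i) ?_
      apply orderOf_dvd_of_pow_eq_one
      rw [← pow_add, e2] at h4
      rw [← h4]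
      congr 1
      ring
  have h6 : orderOf η ∣ 1 := by
    rw [← Nat.Coprime.gcd_eq_one hco]
    exact Nat.dvd_gcd hdvd key
  exact hne (Nat.dvd_one.1 h6)

end Pool.Agent.TBK
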