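import Pool.Agent.TBK.DefsD
import Pool.Agent.TBK.DegM
import Pool.Agent.TBK.OrdD
import Pool.Agent.TBK.Final

/-!
# TBK/Final2: representations whose trace field has large degree
-/

set_option autoImplicit false

namespace Pool.Agent.TBK

open Pool.Agent.DFJ LaurentPolynomial

theorem kk_dd (a : ℕ → ℤ) (i : ℕ) : ∃ e : ℤ, (e = 1 ∨ e = -1) ∧ kk (sg a) i = e * dd a i ∧
    kk (sg a) (i + 1) = (-1) ^ i * e * dd a (i + 1) := by
  induction i with
  | zero =>
    have k0 : kk (sg a) 0 = 0 := rfl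
    have k1 : kk (sg a) (0 + 1) = 1 := rfl
    have d0 : dd a 0 = 0 := rfl
    have d1 : dd a (0 + 1) = 1 := rfl
    exact ⟨1, Or.inl rfl, by rw [k0, d0]; rfl, by rw [k1, d1]; rfl⟩
  | succ i ih =>
    obtain ⟨e, he, h1, h2⟩ := ih
    have hs : ((-1 : ℤ)) ^ i = 1 ∨ ((-1 : ℤ)) ^ i = -1 := neg_one_pow_eq_or ℤ i
    refine ⟨(-1) ^ i * e, ?_, h2, ?_⟩
    · rcases hs with h | h <;> rcases he with h' | h' <;> rw [h, h'] <;> norm_num
    · have k2 : kk (sg a) (i + 1 + 1) = kk (sg a) i + 2 * sg a (i + 1) * kk (sg a) (i + 1) := rfl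
      have d2 : dd a (i + 1 + 1) = 2 * a (i + 1) * dd a (i + 1) - dd a i := rfl
      have hsq : ((-1 : ℤ)) ^ i * (-1) ^ i = 1 := by
        rcases hs with h | h <;> rw [h] <;> norm_num
      rw [k2, h1, h2, d2]
      unfold sg
      rw [pow_succ]
      linear_combination (-(e * dd a i)) * hsq

theorem natAbs_dd (a : ℕ → ℤ) (i : ℕ) : (kk (sg a) i).natAbs = (dd a i).natAbs := by
  obtain ⟨e, he, h1, -⟩ := kk_dd a i
  rw [h1, Int.natAbs_mul]
  rcases he with h | h <;> rw [h] <;> simp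

theorem deg_minpoly {x : ℂ} (hx : IsIntegral ℤ x) :
    (minpoly ℤ x).natDegree = (minpoly ℚ x).natDegree := by
  rw [minpoly.isIntegrallyClosed_eq_field_fractions' ℚ hx]
  exact ((minpoly.monic hx).natDegree_map _).symm

theorem Cl.deg_eq {n : ℕ} {b : ℕ → ℤ} {w : ℂ} (h : Cl n b w) :
    (minpoly ℤ w).natDegree = (minpoly ℚ (w ^ 2 + 2)).natDegree := by
  have hi : IsIntegral ℤ w := h.integral
  have hw : IsIntegral ℚ w := hi.tower_top
  have hs : IsIntegral ℚ (w ^ 2 + 2) :=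
    (hw.pow 2).add (isIntegral_algebraMap (R := ℚ) (x := (2 : ℚ)))
  rw [deg_minpoly hi, ← IntermediateField.adjoin.finrank hw,
    ← IntermediateField.adjoin.finrank hs]
  have hmem : ∀ (K : IntermediateField ℚ ℂ) (P : Polynomial ℤ) (y : ℂ), y ∈ K →
      Polynomial.aeval y P ∈ K := by
    intro K P y hy
    rw [Polynomial.aeval_eq_sum_range]
    refine sum_mem fun i _ => ?_
    rw [zsmul_eq_mul]
    exact mul_mem (intCast_mem K _) (pow_mem hy i)
  have e : IntermediateField.adjoin ℚ {w} = IntermediateField.adjoin ℚ {w ^ 2 + 2} := by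
    apply le_antisymm
    · rw [IntermediateField.adjoin_simple_le_iff]
      obtain ⟨P, hP⟩ := h.poly
      have h3 := hmem (IntermediateField.adjoin ℚ {w ^ 2 + 2}) P (w ^ 2 + 2)
        (IntermediateField.mem_adjoin_simple_self ℚ _)
      rwa [hP] at h3
    · rw [IntermediateField.adjoin_simple_le_iff]
      have h1 := IntermediateField.mem_adjoin_simple_self ℚ w
      have h2 : (2 : ℂ) ∈ IntermediateField.adjoin ℚ {w} := ofNat_mem _ 2
      exact add_mem (pow_mem h1 2) h2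
  rw [e]

variable {g : ℕ} {a : ℕ → ℤ}

/-- fourth part -/
theorem part_four (hg : 1 ≤ g) (ha : ∀ j, 1 ≤ j → j ≤ 2 * g → a j ≠ 0)
    {φ : TBGroup g a →* Multiplicative ℤ} (hφ : Function.Surjective φ)
    {α : TBGroup g a →* SLC} (hα : Good α) {D : ℕ}
    (hD : (minpoly ℚ (mx (α (PresentedGroup.of 0))).trace).natDegree = D)
    (hc : bd a g < D ∨ 2 * ((dd a (2 * g + 1)).natAbs - 1) < 5 * D ∨
      ∀ e, 1 ≤ e → e ≤ bd a g → (dd a (2 * g + 1)).natAbs.Coprime (4 ^ e - 1)) :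
    (∃! τ, IsTorsion φ α τ) ∧ ∀ τ, IsTorsion φ α τ →
      HasDegree τ (2 * (2 * g - 1)) ∧ (IsMonic τ ↔ (commutator (TBGroup g a)).FG) := by
  obtain ⟨h1, h2⟩ := part_one hg ha hφ hα
  refine ⟨h1, fun τ hτ => ⟨(h2 τ hτ).1, ?_⟩⟩
  refine monic_iff hg ha hφ hα hτ fun w hcl hs htr hL => ?_
  by_contra hcon
  have hex : ∃ j, 1 ≤ j ∧ j ≤ 2 * g ∧ (sg a j).natAbs ≠ 1 := by
    by_contra hno
    apply hcon
    intro j h5 h6
    by_contra h7
    exact hno ⟨j, h5, h6, by rwa [sg_natAbs]⟩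
  have hle := deg_le hcl (Or.inl hL) hex
  have hle2 := deg_le_two hcl (Or.inl hL)
  obtain ⟨e, he1, he2, he3⟩ := ord_deg hcl
  have hRR : RR (sg a) (2 * g) =
      ∑ j ∈ Finset.Icc 1 (2 * g), ((a j).natAbs - 1) * (dd a j).natAbs := by
    unfold RR
    exact Finset.sum_congr rfl fun j _ => by rw [sg_natAbs, natAbs_dd]
  rw [hcl.deg_eq, ← htr, hD] at hle hle2 he2
  have hmin := min_le (by omega) hcl.ne hle hle2
  have k2 : |kk (sg a) (2 * g + 1)| = |dd a (2 * g + 1)| := by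
    rw [Int.abs_eq_natAbs, Int.abs_eq_natAbs, natAbs_dd]
  have hDb : D ≤ bd a g := by
    rw [hRR] at hle
    rw [natAbs_dd] at hle2
    exact le_min hle hle2
  rw [natAbs_dd] at he3
  rcases hc with h | h | h
  · omega
  · rw [k2, Int.abs_eq_natAbs] at hmin
    omega
  · exact he3 (h e he1 (he2.trans hDb))

end Pool.Agent.TBK
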