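import Pool.Agent.DFJ.TorShape
import Pool.Agent.TBK.Defs

/-!
# TBK/PolM: matrices of polynomials

* `st_deg`, `st_top`, `st_zero`: the entries of `st U V W Y P Q` are, for `i, l`,
  `X * (U W P)_{il} - (V W P)_{il} + X * (Y Q)_{il}`, and `(U W P)_{il} = ∑ C (U W)_{ik} * P_{kl}`
  etc. (`Matrix.mul_apply`, `Fin.sum_univ_two`, `pc_apply`). Degrees: `natDegree_add_le`,
  `natDegree_sub_le`, `natDegree_C_mul_le`, `natDegree_X_mul_le`; `X * (C y * q) = C y * (X * q)`.
  Coefficients: `coeff_X_mul`, `coeff_C_mul`, `coeff_eq_zero_of_natDegree_lt`; the coefficient at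
  `j + 1` of `X * Q_{kl}` is zero because `natDegree (X * Q_{kl}) ≤ j`. Coefficient at `0`:
  `mul_coeff_zero`, `coeff_X_zero`.
* `st_EV`: `map_add, map_sub, map_mul` entrywise; `EV e X = T e` (`eval₂_X`), `EV e (C c) = C c`
  (`eval₂_C`).
* `det_poly`: `det_fin_two`, `natDegree_mul_le_of_le`, `coeff_mul_of_natDegree_le`,
  `mul_coeff_zero`.
* `EV_det`: `RingHom.map_det`.
-/

set_option autoImplicit false

namespace Pool.Agent.TBK

open Pool.Agent.DFJ LaurentPolynomial Matrix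

/-- evaluation at `T e` -/
noncomputable def EV (e : ℤ) : Polynomial ℂ →+* ℂ[T;T⁻¹] :=
  Polynomial.eval₂RingHom (C : ℂ →+* ℂ[T;T⁻¹]) (T e)

/-- 2 x 2 matrices of polynomials -/
abbrev PMat : Type := Matrix (Fin 2) (Fin 2) (Polynomial ℂ)

/-- constants -/
noncomputable def pc : Matrix (Fin 2) (Fin 2) ℂ →+* PMat :=
  (Polynomial.C : ℂ →+* Polynomial ℂ).mapMatrix

theorem pc_apply (M : Matrix (Fin 2) (Fin 2) ℂ) (i j : Fin 2) :
    pc M i j = Polynomial.C (M i j) := rfl

/-- one step of the recursion -/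
noncomputable def st (U V W Y : Matrix (Fin 2) (Fin 2) ℂ) (P Q : PMat) : PMat :=
  ((Polynomial.X : Polynomial ℂ) • pc U - pc V) * (pc W * P) +
    (Polynomial.X : Polynomial ℂ) • (pc Y * Q)

/-- the matrix of the coefficients at `j` -/
def cf (j : ℕ) (P : PMat) : Matrix (Fin 2) (Fin 2) ℂ := P.map fun p => p.coeff j

variable {U V W Y : Matrix (Fin 2) (Fin 2) ℂ} {P Q : PMat} {j : ℕ}

private theorem st_eq : st U V W Y P Q =
    (Polynomial.X : Polynomial ℂ) • (pc U * (pc W * P)) - pc V * (pc W * P) +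
      pc Y * ((Polynomial.X : Polynomial ℂ) • Q) := by
  unfold st
  rw [sub_mul, smul_mul_assoc, Matrix.mul_smul]

private theorem pc_mul_apply (M : Matrix (Fin 2) (Fin 2) ℂ) (R : PMat) (i l : Fin 2) :
    (pc M * R) i l = Polynomial.C (M i 0) * R 0 l + Polynomial.C (M i 1) * R 1 l := by
  rw [Matrix.mul_apply, Fin.sum_univ_two, pc_apply, pc_apply]

private theorem pc_mul_deg (M : Matrix (Fin 2) (Fin 2) ℂ) {R : PMat} {d : ℕ}
    (hR : ∀ i l, (R i l).natDegree ≤ d) (i l : Fin 2) : ((pc M * R) i l).natDegree ≤ d := by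
  rw [pc_mul_apply]
  refine Polynomial.natDegree_add_le_of_degree_le ?_ ?_
  · exact (Polynomial.natDegree_C_mul_le _ _).trans (hR 0 l)
  · exact (Polynomial.natDegree_C_mul_le _ _).trans (hR 1 l)

private theorem cf_pc_mul (M : Matrix (Fin 2) (Fin 2) ℂ) (R : PMat) (d : ℕ) :
    cf d (pc M * R) = M * cf d R := by
  ext i l
  show ((pc M * R) i l).coeff d = (M * cf d R) i l
  rw [pc_mul_apply, Matrix.mul_apply, Fin.sum_univ_two, Polynomial.coeff_add,
    Polynomial.coeff_C_mul, Polynomial.coeff_C_mul]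
  rfl

theorem st_deg (hP : ∀ i l, (P i l).natDegree ≤ j)
    (hQ : ∀ i l, (Polynomial.X * Q i l).natDegree ≤ j) (i l : Fin 2) :
    (st U V W Y P Q i l).natDegree ≤ j + 1 := by
  rw [st_eq]
  have hA := pc_mul_deg W hP
  have hU := pc_mul_deg U hA
  have hV := pc_mul_deg V hA
  have hQ' : ∀ i l, (((Polynomial.X : Polynomial ℂ) • Q) i l).natDegree ≤ j := fun i l => hQ i l
  have hY := pc_mul_deg Y hQ'
  show (Polynomial.X * (pc U * (pc W * P)) i l - (pc V * (pc W * P)) i l +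
      (pc Y * ((Polynomial.X : Polynomial ℂ) • Q)) i l).natDegree ≤ j + 1
  refine Polynomial.natDegree_add_le_of_degree_le ?_ ((hY i l).trans (Nat.le_succ _))
  refine (Polynomial.natDegree_sub_le _ _).trans (max_le ?_ ((hV i l).trans (Nat.le_succ _)))
  refine Polynomial.natDegree_mul_le.trans ?_
  rw [Polynomial.natDegree_X, add_comm]
  exact Nat.add_le_add_right (hU i l) 1

theorem st_top (hP : ∀ i l, (P i l).natDegree ≤ j)
    (hQ : ∀ i l, (Polynomial.X * Q i l).natDegree ≤ j) :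
    cf (j + 1) (st U V W Y P Q) = U * (W * cf j P) := by
  rw [st_eq, ← cf_pc_mul, ← cf_pc_mul]
  have hA := pc_mul_deg W hP
  have hV := pc_mul_deg V hA
  have hQ' : ∀ i l, (((Polynomial.X : Polynomial ℂ) • Q) i l).natDegree ≤ j := fun i l => hQ i l
  have hY := pc_mul_deg Y hQ'
  ext i l
  show (Polynomial.X * (pc U * (pc W * P)) i l - (pc V * (pc W * P)) i l +
      (pc Y * ((Polynomial.X : Polynomial ℂ) • Q)) i l).coeff (j + 1) =
      ((pc U * (pc W * P)) i l).coeff j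
  rw [Polynomial.coeff_add, Polynomial.coeff_sub, Polynomial.coeff_X_mul,
    Polynomial.coeff_eq_zero_of_natDegree_lt (Nat.lt_succ_of_le (hV i l)),
    Polynomial.coeff_eq_zero_of_natDegree_lt (Nat.lt_succ_of_le (hY i l)), sub_zero, add_zero]

theorem st_zero : cf 0 (st U V W Y P Q) = -(V * (W * cf 0 P)) := by
  rw [st_eq, ← cf_pc_mul, ← cf_pc_mul]
  have hX : cf 0 ((Polynomial.X : Polynomial ℂ) • Q) = 0 := by
    ext i l
    show (Polynomial.X * Q i l).coeff 0 = 0
    rw [Polynomial.mul_coeff_zero, Polynomial.coeff_X_zero, zero_mul]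
  have hY : cf 0 (pc Y * ((Polynomial.X : Polynomial ℂ) • Q)) = 0 := by
    rw [cf_pc_mul, hX, mul_zero]
  ext i l
  have hYl : ((pc Y * ((Polynomial.X : Polynomial ℂ) • Q)) i l).coeff 0 = 0 :=
    congrFun (congrFun hY i) l
  show (Polynomial.X * (pc U * (pc W * P)) i l - (pc V * (pc W * P)) i l +
      (pc Y * ((Polynomial.X : Polynomial ℂ) • Q)) i l).coeff 0 =
      -(((pc V * (pc W * P)) i l).coeff 0)
  rw [Polynomial.coeff_add, Polynomial.coeff_sub, Polynomial.mul_coeff_zero,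
    Polynomial.coeff_X_zero, zero_mul, hYl, zero_sub, add_zero]

private theorem EV_X (e : ℤ) : EV e Polynomial.X = T e := by
  show Polynomial.eval₂ _ _ _ = _
  rw [Polynomial.eval₂_X]

private theorem EV_C (e : ℤ) (c : ℂ) : EV e (Polynomial.C c) = C c := by
  show Polynomial.eval₂ _ _ _ = _
  rw [Polynomial.eval₂_C]

private theorem EV_pc (e : ℤ) (M : Matrix (Fin 2) (Fin 2) ℂ) : (EV e).mapMatrix (pc M) = emb M := by
  ext1 i l
  show EV e (Polynomial.C (M i l)) = C (M i l)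
  exact EV_C e _

private theorem EV_smul (e : ℤ) (p : Polynomial ℂ) (R : PMat) :
    (EV e).mapMatrix (p • R) = EV e p • (EV e).mapMatrix R := by
  ext1 i l
  show EV e (p * R i l) = EV e p * EV e (R i l)
  exact map_mul _ _ _

theorem st_EV (e : ℤ) : (EV e).mapMatrix (st U V W Y P Q) =
    ((T e : ℂ[T;T⁻¹]) • emb U - emb V) * (emb W * (EV e).mapMatrix P) +
      (T e : ℂ[T;T⁻¹]) • (emb Y * (EV e).mapMatrix Q) := by
  unfold st
  rw [map_add, map_mul, map_sub, map_mul, EV_smul, EV_smul, map_mul, EV_X]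
  simp only [EV_pc]

theorem det_poly (hP : ∀ i l, (P i l).natDegree ≤ j) : P.det.natDegree ≤ 2 * j ∧
    P.det.coeff (2 * j) = (cf j P).det ∧ P.det.coeff 0 = (cf 0 P).det := by
  have h2 : 2 * j = j + j := by ring
  rw [det_fin_two, det_fin_two, det_fin_two]
  refine ⟨?_, ?_, ?_⟩
  · rw [h2]
    refine (Polynomial.natDegree_sub_le _ _).trans (max_le ?_ ?_)
    · exact Polynomial.natDegree_mul_le_of_le (hP 0 0) (hP 1 1)
    · exact Polynomial.natDegree_mul_le_of_le (hP 0 1) (hP 1 0)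
  · rw [h2, Polynomial.coeff_sub, Polynomial.coeff_mul_add_eq_of_natDegree_le (hP 0 0) (hP 1 1),
      Polynomial.coeff_mul_add_eq_of_natDegree_le (hP 0 1) (hP 1 0)]
    rfl
  · rw [Polynomial.coeff_sub, Polynomial.mul_coeff_zero, Polynomial.mul_coeff_zero]
    rfl

theorem EV_det (e : ℤ) (P : PMat) : ((EV e).mapMatrix P).det = EV e P.det :=
  ((EV e).map_det P).symm

end Pool.Agent.TBK
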