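import Pool.Agent.TBK.FoxX
import Pool.Agent.TBK.PolM
import Pool.Agent.TBK.DetOm

/-!
# TBK/FoxP: the Fox derivatives are polynomials up to a power of `T`

* `om_Rh'`: as `om_Rh` in DFJ/TorMain (same proof).
* `PM_deg`, `PM_top`, `PM_zero`: induction on `j` with `st_deg`, `st_top`, `st_zero`; `PM 0 = 0`,
  `PM 1 = 1`; `det (-A) = det A`, `det_mul`, `mx_det`; `Finset.prod_Icc_succ_top`. The `U, V, Y` are
  matrices `mx _` (or `1`) of determinant one. In `PM_deg` prove both parts together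
  (the second for `j + 1` follows from the first: `natDegree_X_mul_le`, or `natDegree_mul_le`).
* `PM_EV`: two-step induction on `j` from `fox_zero, fox_one, fox_odd, fox_even`. By `chi_X`
  the twisted matrices are: `Rh (Xf a j) = emb (mx (rho (Xf a j)))`, same for powers and for
  `gb * Y * gb⁻¹` (`Rh_eq0`; `chi` of it is `1`: commutative target), `om (Rh) X n = emb (omc …)`
  (`om_Rh'`), `Rh gb = T e • emb (mx (rho gb))`, `Rh (X * gb⁻¹) = T (-e) • emb (mx (rho (X * gb⁻¹)))`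
  (`Rh_eq`). Case `j` even, `j = 2k` (`k ≥ 1`; for `j = 0` the last term vanishes, `PM 0 = 0`):
  `(j+2-1)/2 = k`, `(j+1-1)/2 = k`, `(j-1)/2 = k - 1`, and
  `(T e • U - V) (Ω (T(-ek) • P_{j+1})) + Y (T (-e(k-1)) • P_j) = T (-ek) • (st …)` because
  `T (-e(k-1)) = T (-ek) T e`. Case `j = 2k+1`: `(j+2-1)/2 = k+1`, `(j+1-1)/2 = k`, `(j-1)/2 = k`:
  `(1 - T(-e) • V) (Ω (T(-ek) • P_{j+1})) + Y (T(-ek) • P_j) = T(-e(k+1)) • (st …)` because
  `T(-e(k+1)) T e = T(-ek)`. (`smul_mul_assoc`, `mul_smul_comm`, `smul_smul`, `← T_add`.)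
* `fox_det`: `PM_EV` for `j = 2g+1` (`(2g+1-1)/2 = g`), determinant of a scalar multiple of a 2 x 2
  matrix: `det_smul`, `Fintype.card_fin`, `T_pow`; `EV_det`; `det_poly` with `j = 2g`
  (`2 * (2g) = 4g`); `PM_top`, `PM_zero`; `det_omc'`.
-/

set_option autoImplicit false

namespace Pool.Agent.TBK

open Pool.Agent.DFJ LaurentPolynomial Matrix

variable {g : ℕ} {a : ℕ → ℤ} (φ : TBGroup g a →* Multiplicative ℤ) (α : TBGroup g a →* SLC)

theorem om_Rh' {u : FreeGroup (Fin 2)} (h : chi φ u = 1) (k : ℤ) :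
    om (Rh φ α) u k = emb (omc (rho α u) k) := by
  have h1 : ∀ j : ℤ, Rh φ α (u ^ j) = (((emb : Matrix (Fin 2) (Fin 2) ℂ →* _).comp
      (mxh.comp (rho α)))) (u ^ j) := by
    intro j
    rw [Rh_eq0 φ α (by rw [map_zpow, h, _root_.one_zpow])]
    rfl
  rw [om_congr h1, omc, ← om_comp, ← map_om]

/-- the polynomial matrices -/
noncomputable def PM : ℕ → PMat
  | 0 => 0
  | 1 => 1
  | j + 2 =>
    if Even j then
      st (mx (rho α gb)) (mx (rho α (Xf a (j + 2)))) (omc (rho α (Xf a (j + 1))) (a (j + 1)))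
        (mx (rho α (gb * Xf a (j + 1) ^ a (j + 1) * gb⁻¹))) (PM (j + 1)) (PM j)
    else
      st 1 (mx (rho α (Xf a (j + 2) * gb⁻¹))) (omc (rho α (Xf a (j + 1))) (a (j + 1)))
        (mx (rho α (Xf a (j + 1) ^ a (j + 1)))) (PM (j + 1)) (PM j)

private theorem foxP_PM2 (j : ℕ) : PM α (j + 2) = if Even j then
      st (mx (rho α gb)) (mx (rho α (Xf a (j + 2)))) (omc (rho α (Xf a (j + 1))) (a (j + 1)))
        (mx (rho α (gb * Xf a (j + 1) ^ a (j + 1) * gb⁻¹))) (PM α (j + 1)) (PM α j)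
    else
      st 1 (mx (rho α (Xf a (j + 2) * gb⁻¹))) (omc (rho α (Xf a (j + 1))) (a (j + 1)))
        (mx (rho α (Xf a (j + 1) ^ a (j + 1)))) (PM α (j + 1)) (PM α j) := by
  rw [PM]

private theorem foxP_step (j : ℕ) : ∃ U V Y : Matrix (Fin 2) (Fin 2) ℂ, U.det = 1 ∧ V.det = 1 ∧
    PM α (j + 2) = st U V (omc (rho α (Xf a (j + 1))) (a (j + 1))) Y (PM α (j + 1)) (PM α j) := by
  rw [foxP_PM2]
  by_cases hj : Even j
  · rw [if_pos hj]
    exact ⟨_, _, _, mx_det _, mx_det _, rfl⟩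
  · rw [if_neg hj]
    exact ⟨_, _, _, det_one, mx_det _, rfl⟩

theorem PM_deg (j : ℕ) : (∀ i l, (PM α (j + 1) i l).natDegree ≤ j) ∧
    ∀ i l, (Polynomial.X * PM α j i l).natDegree ≤ j := by
  induction j with
  | zero =>
    constructor
    · intro i l
      have h : PM α (0 + 1) = 1 := by rw [PM]
      rw [h, Matrix.one_apply]
      split_ifs
      · simp
      · simp
    · intro i l
      have h : PM α 0 = 0 := by rw [PM]
      rw [h]
      simp
  | succ j ih =>
    constructor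
    · intro i l
      obtain ⟨U, V, Y, _, _, h⟩ := foxP_step α j
      rw [show j + 1 + 1 = j + 2 from rfl, h]
      exact st_deg ih.1 ih.2 i l
    · intro i l
      refine Polynomial.natDegree_mul_le.trans ?_
      have h1 := ih.1 i l
      have h2 : (Polynomial.X : Polynomial ℂ).natDegree ≤ 1 := Polynomial.natDegree_X_le
      omega

theorem PM_top (j : ℕ) : (cf j (PM α (j + 1))).det =
    ∏ i ∈ Finset.Icc 1 j, (omc (rho α (Xf a i)) (a i)).det := by
  induction j with
  | zero =>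
    have h : PM α (0 + 1) = 1 := by rw [PM]
    rw [h]
    have h2 : cf 0 (1 : PMat) = 1 := by
      ext i l
      rw [cf, Matrix.map_apply, Matrix.one_apply, Matrix.one_apply]
      split_ifs
      · simp
      · simp
    rw [h2, det_one]
    simp
  | succ j ih =>
    obtain ⟨U, V, Y, hU, _, h⟩ := foxP_step α j
    rw [show j + 1 + 1 = j + 2 from rfl, h, st_top (PM_deg α j).1 (PM_deg α j).2, det_mul, det_mul,
      hU, one_mul, ih, Finset.prod_Icc_succ_top (by omega), mul_comm]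

theorem PM_zero (j : ℕ) : (cf 0 (PM α (j + 1))).det =
    ∏ i ∈ Finset.Icc 1 j, (omc (rho α (Xf a i)) (a i)).det := by
  induction j with
  | zero => exact PM_top α 0
  | succ j ih =>
    obtain ⟨U, V, Y, _, hV, h⟩ := foxP_step α j
    have hn : ∀ M : Matrix (Fin 2) (Fin 2) ℂ, (-M).det = M.det := by
      intro M
      rw [det_neg]; simp
    rw [show j + 1 + 1 = j + 2 from rfl, h, st_zero, hn, det_mul, det_mul,
      hV, one_mul, ih, Finset.prod_Icc_succ_top (by omega), mul_comm]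

private theorem foxP_alg1 {c c' t : ℂ[T;T⁻¹]} {U V W Y P Q : Matrix (Fin 2) (Fin 2) ℂ[T;T⁻¹]}
    (h : c' • Q = (c * t) • Q) :
    (t • U - V) * (W * (c • P)) + Y * (c' • Q) = c • ((t • U - V) * (W * P) + t • (Y * Q)) := by
  rw [h, mul_smul_comm, mul_smul_comm, mul_smul_comm, smul_add, smul_smul]

private theorem foxP_alg2 {c c' t t' : ℂ[T;T⁻¹]} {V W Y P Q : Matrix (Fin 2) (Fin 2) ℂ[T;T⁻¹]}
    (h : c' = c * t) (h2 : t' * c' = c) :
    (1 - t' • V) * (W * (c' • P)) + Y * (c' • Q) = c • ((t • 1 - V) * (W * P) + t • (Y * Q)) := by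
  rw [mul_smul_comm, mul_smul_comm, mul_smul_comm, smul_add, smul_smul, ← h, sub_mul, sub_mul,
    one_mul, smul_mul_assoc, smul_mul_assoc, one_mul, smul_sub, smul_sub, smul_smul, smul_smul,
    ← h, mul_comm c' t', h2]

theorem PM_EV {d : Fin 2 → FreeGroup (Fin 2) → Matrix (Fin 2) (Fin 2) ℂ[T;T⁻¹]}
    (hd : FoxR (Rh φ α) d) (j : ℕ) : d 0 (Xf a j) =
      (T (-((chi φ gb).toAdd * (((j - 1) / 2 : ℕ) : ℤ))) : ℂ[T;T⁻¹]) •
        (EV (chi φ gb).toAdd).mapMatrix (PM α j) := by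
  induction j using Nat.twoStepInduction with
  | zero =>
    rw [fox_zero hd]
    have h : PM α 0 = 0 := by rw [PM]
    rw [h, map_zero, smul_zero]
  | one =>
    rw [fox_one hd]
    have h : PM α 1 = 1 := by rw [PM]
    rw [h, map_one]
    simp
  | more j ih0 ih1 =>
    rw [foxP_PM2]
    by_cases hj : Even j
    · rw [if_pos hj, st_EV, fox_odd hd a hj, ih0, ih1, om_Rh' φ α (chi_X φ _), Rh_eq φ α gb,
        Rh_eq0 φ α (chi_X φ _), Rh_eq0 φ α (u := gb * Xf a (j + 1) ^ a (j + 1) * gb⁻¹) (by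
          rw [map_mul, map_mul, map_zpow, chi_X, _root_.one_zpow, mul_one, map_inv,
            mul_inv_cancel])]
      obtain ⟨k, hk⟩ := hj
      have e1 : (j + 1 - 1) / 2 = k := by omega
      have e2 : (j + 2 - 1) / 2 = k := by omega
      rw [e1, e2]
      apply foxP_alg1
      rcases Nat.eq_zero_or_pos k with h0 | h0
      · have h : PM α j = 0 := by
          have : j = 0 := by omega
          rw [this, PM]
        rw [h, map_zero, smul_zero, smul_zero]
      · congr 1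
        rw [← T_add]
        congr 1
        have e3 : (((j - 1) / 2 : ℕ) : ℤ) = (k : ℤ) - 1 := by omega
        rw [e3]
        ring
    · rw [if_neg hj, st_EV, fox_even hd a hj, ih0, ih1, om_Rh' φ α (chi_X φ _),
        Rh_eq φ α (Xf a (j + 2) * gb⁻¹),
        Rh_eq0 φ α (u := Xf a (j + 1) ^ a (j + 1)) (by
          rw [map_zpow, chi_X, _root_.one_zpow]), map_one]
      rw [Nat.not_even_iff_odd] at hj
      obtain ⟨k, hk⟩ := hj
      have e0 : (j - 1) / 2 = k := by omega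
      have e1 : (j + 1 - 1) / 2 = k := by omega
      have e2 : (j + 2 - 1) / 2 = k + 1 := by omega
      have e4 : (chi φ (Xf a (j + 2) * gb⁻¹)).toAdd = -(chi φ gb).toAdd := by
        rw [map_mul, chi_X, one_mul, map_inv, toAdd_inv]
      rw [e0, e1, e2, e4]
      apply foxP_alg2
      · rw [← T_add]
        congr 1
        push_cast
        ring
      · rw [← T_add]
        congr 1
        push_cast
        ring

theorem fox_det {d : Fin 2 → FreeGroup (Fin 2) → Matrix (Fin 2) (Fin 2) ℂ[T;T⁻¹]}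
    (hd : FoxR (Rh φ α) d) : ∃ P : Polynomial ℂ,
      (d 0 (Xf a (2 * g + 1))).det =
        T (-(2 * (g : ℤ) * (chi φ gb).toAdd)) * EV (chi φ gb).toAdd P ∧
      P.natDegree ≤ 4 * g ∧
      P.coeff (4 * g) =
        ∏ j ∈ Finset.Icc 1 (2 * g), PP (a j).natAbs (tr (rho α (Xf a j))) ∧
      P.coeff 0 = ∏ j ∈ Finset.Icc 1 (2 * g), PP (a j).natAbs (tr (rho α (Xf a j))) := by
  obtain ⟨h1, h2, h3⟩ := det_poly (PM_deg α (2 * g)).1
  have e4 : 2 * (2 * g) = 4 * g := by ring
  have hprod : ∏ j ∈ Finset.Icc 1 (2 * g), (omc (rho α (Xf a j)) (a j)).det =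
      ∏ j ∈ Finset.Icc 1 (2 * g), PP (a j).natAbs (tr (rho α (Xf a j))) :=
    Finset.prod_congr rfl fun j _ => det_omc' _ _
  refine ⟨(PM α (2 * g + 1)).det, ?_, ?_, ?_, ?_⟩
  · rw [PM_EV φ α hd, det_smul, Fintype.card_fin, EV_det]
    have e1 : (2 * g + 1 - 1) / 2 = g := by omega
    rw [e1, sq, ← T_add]
    congr 2
    ring
  · rw [← e4]; exact h1
  · rw [← e4, h2, PM_top, hprod]
  · rw [h3, PM_zero, hprod]

end Pool.Agent.TBK
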