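import Pool.Agent.DFJ.TorMain
import Pool.Agent.TBK.Defs

/-!
# TBK/FoxX: Fox derivatives of the words `X_j`

`Xf a j = Xw x t a j` in the free group on `x = of 0`, `t = of 1` (`ga`, `gb` in DFJ/FoxRel).
* `fox_odd` (`j` even, `j + 1` odd): `X_{j+2} = t Y t⁻¹ X_j Y⁻¹`, `Y = X_{j+1}^a`. With
  `d u = d 0 u`, `d t = 0`, `d (t⁻¹) = 0`, `d (Y⁻¹) = - ρ(Y⁻¹) d Y` (`d_inv`), the product rule
  gives `d X_{j+2} = ρ(t) d Y + ρ(t Y t⁻¹) d X_j - ρ(t Y t⁻¹ X_j Y⁻¹) d Y`; `d Y = om ρ X_{j+1} a * d X_{j+1}`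
  (`d_zpow`).
* `fox_even` (`j` odd): `X_{j+2} = Y X_j t⁻¹ Y⁻¹ t`:
  `d X_{j+2} = d Y + ρ(Y) d X_j - ρ(Y X_j t⁻¹ Y⁻¹) d Y`, and `Y X_j t⁻¹ Y⁻¹ = X_{j+2} t⁻¹`.
* `chi_X`: the target of `chi φ` is commutative, so `chi φ X_{j+2} = chi φ X_j`; hence
  `chi φ X_j = 1` for even `j` and `= chi φ x` for odd `j`; and `chi φ X_{2g+1} = 1` (`chi_rel`).
* `chi_t`: as `chi_surj` in DFJ/TorMain: every `chi φ u` is a power of `chi φ t`.
-/

set_option autoImplicit false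

namespace Pool.Agent.TBK

open Pool.Agent.DFJ LaurentPolynomial Matrix

/-- the words in the free group -/
abbrev Xf (a : ℕ → ℤ) (j : ℕ) : FreeGroup (Fin 2) := Xw ga gb a j

section fox

variable {S : Type*} [Ring S] {ρ : FreeGroup (Fin 2) →* S} {d : Fin 2 → FreeGroup (Fin 2) → S}

theorem fox_zero (h : FoxR ρ d) (a : ℕ → ℤ) : d 0 (Xf a 0) = 0 := d_one (h.mul 0)

theorem fox_one (h : FoxR ρ d) (a : ℕ → ℤ) : d 0 (Xf a 1) = 1 := h.a0

theorem Xf_even (a : ℕ → ℤ) {j : ℕ} (hj : Even j) : Xf a (j + 2) =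
    gb * Xf a (j + 1) ^ a (j + 1) * gb⁻¹ * Xf a j * (Xf a (j + 1) ^ a (j + 1))⁻¹ := by
  change Xw ga gb a (j + 2) = _
  rw [Xw, if_pos hj]

theorem Xf_odd (a : ℕ → ℤ) {j : ℕ} (hj : ¬ Even j) : Xf a (j + 2) =
    Xf a (j + 1) ^ a (j + 1) * Xf a j * gb⁻¹ * (Xf a (j + 1) ^ a (j + 1))⁻¹ * gb := by
  change Xw ga gb a (j + 2) = _
  rw [Xw, if_neg hj]

theorem fox_odd (h : FoxR ρ d) (a : ℕ → ℤ) {j : ℕ} (hj : Even j) :
    d 0 (Xf a (j + 2)) =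
      (ρ gb - ρ (Xf a (j + 2))) * (om ρ (Xf a (j + 1)) (a (j + 1)) * d 0 (Xf a (j + 1))) +
        ρ (gb * Xf a (j + 1) ^ a (j + 1) * gb⁻¹) * d 0 (Xf a j) := by
  rw [← d_zpow (h.mul 0), Xf_even a hj]
  generalize Xf a (j + 1) ^ a (j + 1) = Y
  generalize Xf a j = X
  have hb : d 0 gb⁻¹ = 0 := by rw [d_inv (h.mul 0), h.b0, mul_zero, neg_zero]
  rw [h.mul, h.mul, h.mul, h.mul, h.b0, hb, d_inv (h.mul 0) Y, map_mul ρ _ Y⁻¹, mul_zero, add_zero,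
    zero_add, mul_neg, sub_mul, mul_assoc (ρ _) (ρ Y⁻¹) (d 0 Y)]
  abel

theorem fox_even (h : FoxR ρ d) (a : ℕ → ℤ) {j : ℕ} (hj : ¬ Even j) :
    d 0 (Xf a (j + 2)) =
      (1 - ρ (Xf a (j + 2) * gb⁻¹)) * (om ρ (Xf a (j + 1)) (a (j + 1)) * d 0 (Xf a (j + 1))) +
        ρ (Xf a (j + 1) ^ a (j + 1)) * d 0 (Xf a j) := by
  rw [← d_zpow (h.mul 0), Xf_odd a hj]
  generalize Xf a (j + 1) ^ a (j + 1) = Y
  generalize Xf a j = X
  have hb : d 0 gb⁻¹ = 0 := by rw [d_inv (h.mul 0), h.b0, mul_zero, neg_zero]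
  rw [mul_inv_cancel_right, h.mul, h.mul, h.mul, h.mul, h.b0, hb, d_inv (h.mul 0) Y,
    map_mul ρ _ Y⁻¹, mul_zero, mul_zero, add_zero, add_zero, mul_neg, sub_mul, one_mul,
    mul_assoc (ρ _) (ρ Y⁻¹) (d 0 Y)]
  abel

end fox

variable {g : ℕ} {a : ℕ → ℤ} (φ : TBGroup g a →* Multiplicative ℤ)

theorem chi_step (j : ℕ) : chi φ (Xf a (j + 2)) = chi φ (Xf a j) := by
  apply Multiplicative.toAdd.injective
  by_cases hj : Even j
  · rw [Xf_even a hj]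
    simp only [map_mul, map_inv, toAdd_mul, toAdd_inv]
    ring
  · rw [Xf_odd a hj]
    simp only [map_mul, map_inv, toAdd_mul, toAdd_inv]
    ring

theorem chi_odd (j : ℕ) : chi φ (Xf a (2 * j + 1)) = chi φ (Xf a 1) := by
  induction j with
  | zero => rfl
  | succ j ih =>
    rw [← ih]
    exact chi_step φ (2 * j + 1)

theorem chi_even (j : ℕ) : chi φ (Xf a (2 * j)) = 1 := by
  induction j with
  | zero =>
    change chi φ 1 = 1
    rw [map_one]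
  | succ j ih =>
    rw [← ih]
    exact chi_step φ (2 * j)

theorem chi_X (j : ℕ) : chi φ (Xf a j) = 1 := by
  have h1 : chi φ (Xf a 1) = 1 := by
    rw [← chi_odd φ g]
    exact chi_rel φ
  rcases Nat.even_or_odd' j with ⟨k, rfl | rfl⟩
  · exact chi_even φ k
  · rw [chi_odd φ k, h1]

theorem chi_t (hφ : Function.Surjective φ) :
    (chi φ gb).toAdd = 1 ∨ (chi φ gb).toAdd = -1 := by
  have hx : chi φ ga = 1 := chi_X φ 1
  have h1 : ∀ u, ∃ k : ℤ, chi φ u = chi φ gb ^ k := by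
    intro u
    induction u using FreeGroup.induction_on with
    | C1 => exact ⟨0, by rw [map_one, _root_.zpow_zero]⟩
    | of i =>
      fin_cases i
      · exact ⟨0, by rw [_root_.zpow_zero]; exact hx⟩
      · exact ⟨1, by rw [_root_.zpow_one]; rfl⟩
    | inv_of i hi =>
      obtain ⟨k, hk⟩ := hi
      exact ⟨-k, by rw [map_inv, hk, _root_.zpow_neg]⟩
    | mul u v hu hv =>
      obtain ⟨k, hk⟩ := hu
      obtain ⟨l, hl⟩ := hv
      exact ⟨k + l, by rw [map_mul, hk, hl, _root_.zpow_add]⟩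
  obtain ⟨g', hg⟩ := hφ (Multiplicative.ofAdd 1)
  obtain ⟨u, rfl⟩ := QuotientGroup.mk_surjective g'
  obtain ⟨k, hk⟩ := h1 u
  have h2 : chi φ u = Multiplicative.ofAdd 1 := hg
  rw [h2] at hk
  have h3 := congrArg Multiplicative.toAdd hk
  rw [toAdd_ofAdd, toAdd_zpow, smul_eq_mul] at h3
  exact Int.eq_one_or_neg_one_of_mul_eq_one' h3.symm |>.imp (fun h => h.2) (fun h => h.2)

end Pool.Agent.TBK
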