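import Pool.Agent.TBK.ChainL

/-!
# TBK/Grow: a chain that starts with `‖w‖ ≥ 2` never closes

One region (`grow_region`): center `c`, `v = (x_0, x_1)`, `x_{-1} = x_1 + c x_0`, and the sequence
`x_{m+1} = x_{m-1} - c x_m` (`m ∈ ℤ`), so that `act c b v = (x_{2b}, x_{2b+1})` and
`x_{2b+1} + c x_{2b} = x_{2b-1}`. Hypotheses `2 ≤ ‖c‖`, `‖x_0‖ ≤ ‖c‖`, `2 ≤ ‖x_1‖`,
`2 ≤ ‖x_{-1}‖`, `b ≠ 0`.

Case `b = k + 1 > 0`: prove by induction on `k`, for `(u, q) = act c (k+1) v`, that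
`‖c‖ ≤ ‖u‖`, `‖u‖ ≤ ‖q‖`, `2 ≤ ‖q + c u‖`.
Base (`act_one`): `u = x_0 - c x_1`, `q = x_1 - c u`, `q + c u = x_1`.
`‖u‖ ≥ ‖c‖‖x_1‖ - ‖x_0‖ ≥ ‖c‖‖x_1‖ - ‖c‖`; since `‖c‖, ‖x_1‖ ≥ 2` this is `≥ ‖c‖` and also
`≥ ‖x_1‖` (as `‖c‖‖x_1‖ ≥ ‖c‖ + ‖x_1‖` for numbers `≥ 2`); `‖q‖ ≥ ‖c‖‖u‖ - ‖x_1‖ ≥ 2‖u‖ - ‖u‖`.
Step: `(u', q') = act c 1 (u, q)`, `u' = u - c q`, `‖u'‖ ≥ 2‖q‖ - ‖u‖ ≥ ‖q‖ ≥ ‖u‖ ≥ ‖c‖`,
`q' = q - c u'`, `‖q'‖ ≥ 2‖u'‖ - ‖q‖ ≥ ‖u'‖`, `q' + c u' = q`, `‖q‖ ≥ ‖c‖ ≥ 2`.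
Case `b = -(k+1) < 0`: for `(u, q) = act c (-(k+1)) v` and `r = q + c u` prove
`‖c‖ ≤ ‖u‖`, `‖u‖ ≤ ‖r‖`, `2 ≤ ‖q‖`. Base (`act_neg_one`): `q = x_{-1}` (`= c x_0 + x_1`),
`u = x_0 + c x_{-1}`, `r = q + c u`: same estimates with `x_{-1}` in place of `x_1`. Step:
`(u', q') = act c (-1) (u, q)`: `q' = c u + q = r`, `u' = u + c r`, `r' = r + c u'`.
In both cases the conclusion follows (`‖q‖ ≥ ‖u‖ ≥ 2`, resp. `‖r‖ ≥ 2`).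

`grow`: by induction on `i`, with the invariants of `grow_all` (for `i = 0`: `W_1 = w`, `W_0 = 0`,
`Q_1 = w`, `Q_1 + W_1 W_0 = w`). The step is `grow_region` with `c = W_{i+1}`,
`v = (W_i, Q_{i+1})`, `act_succ`; note `Q_{i+2} + W_{i+2} W_{i+1} = q + c u`.
-/

set_option autoImplicit false

namespace Pool.Agent.TBK

open Pool.Agent.DFJ

private theorem norm_sub_mul_ge (x c q : ℂ) : ‖c‖ * ‖q‖ - ‖x‖ ≤ ‖x - c * q‖ := by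
  have h := norm_sub_norm_le (c * q) x
  rw [norm_mul] at h
  rw [← norm_neg (x - c * q), neg_sub]
  exact h

private theorem norm_add_mul_ge (x c q : ℂ) : ‖c‖ * ‖q‖ - ‖x‖ ≤ ‖x + c * q‖ := by
  have h := norm_sub_mul_ge x c (-q)
  rw [norm_neg] at h
  have e : x - c * -q = x + c * q := by ring
  rwa [e] at h

private theorem grow_pos {c x₀ x₁ : ℂ} (hc : 2 ≤ ‖c‖) (h0 : ‖x₀‖ ≤ ‖c‖) (h1 : 2 ≤ ‖x₁‖)
    (k : ℕ) :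
    ‖c‖ ≤ ‖(act c ((k : ℤ) + 1) (x₀, x₁)).1‖ ∧
      ‖(act c ((k : ℤ) + 1) (x₀, x₁)).1‖ ≤ ‖(act c ((k : ℤ) + 1) (x₀, x₁)).2‖ ∧
      2 ≤ ‖(act c ((k : ℤ) + 1) (x₀, x₁)).2 + c * (act c ((k : ℤ) + 1) (x₀, x₁)).1‖ := by
  induction k with
  | zero =>
    rw [show ((0 : ℕ) : ℤ) + 1 = 1 by norm_num, act_one]
    simp only []
    have e1 := norm_sub_mul_ge x₀ c x₁
    have e2 := norm_sub_mul_ge x₁ c (x₀ - c * x₁)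
    have e3 : x₁ - c * (x₀ - c * x₁) = -c * x₀ + (1 + c ^ 2) * x₁ := by ring
    have e4 : (-c * x₀ + (1 + c ^ 2) * x₁) + c * (x₀ - c * x₁) = x₁ := by ring
    rw [e3] at e2
    rw [e4]
    have e5 : ‖c‖ ≤ ‖x₀ - c * x₁‖ := by nlinarith
    have e6 : ‖x₁‖ ≤ ‖x₀ - c * x₁‖ := by nlinarith
    refine ⟨e5, ?_, h1⟩
    nlinarith [norm_nonneg (x₀ - c * x₁)]
  | succ k ih =>
    obtain ⟨i1, i2, i3⟩ := ih
    rw [show ((k + 1 : ℕ) : ℤ) + 1 = 1 + ((k : ℤ) + 1) by push_cast; ring, act_add]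
    set v := act c ((k : ℤ) + 1) (x₀, x₁) with hv
    rw [show act c 1 v = (v.1 - c * v.2, -c * v.1 + (1 + c ^ 2) * v.2) from act_one c v.1 v.2]
    simp only []
    have e1 := norm_sub_mul_ge v.1 c v.2
    have e2 := norm_sub_mul_ge v.2 c (v.1 - c * v.2)
    have e3 : v.2 - c * (v.1 - c * v.2) = -c * v.1 + (1 + c ^ 2) * v.2 := by ring
    have e4 : (-c * v.1 + (1 + c ^ 2) * v.2) + c * (v.1 - c * v.2) = v.2 := by ring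
    rw [e3] at e2
    rw [e4]
    have e5 : ‖v.2‖ ≤ ‖v.1 - c * v.2‖ := by nlinarith [norm_nonneg v.2]
    refine ⟨by linarith, ?_, by linarith⟩
    nlinarith [norm_nonneg (v.1 - c * v.2)]

private theorem grow_neg {c x₀ x₁ : ℂ} (hc : 2 ≤ ‖c‖) (h0 : ‖x₀‖ ≤ ‖c‖)
    (h2 : 2 ≤ ‖x₁ + c * x₀‖) (k : ℕ) :
    ‖c‖ ≤ ‖(act c (-((k : ℤ) + 1)) (x₀, x₁)).1‖ ∧
      ‖(act c (-((k : ℤ) + 1)) (x₀, x₁)).1‖ ≤ ‖(act c (-((k : ℤ) + 1)) (x₀, x₁)).2 +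
        c * (act c (-((k : ℤ) + 1)) (x₀, x₁)).1‖ ∧
      2 ≤ ‖(act c (-((k : ℤ) + 1)) (x₀, x₁)).2‖ := by
  induction k with
  | zero =>
    rw [show -(((0 : ℕ) : ℤ) + 1) = -1 by norm_num, act_neg_one]
    simp only []
    have e0 : c * x₀ + x₁ = x₁ + c * x₀ := by ring
    rw [e0]
    set y := x₁ + c * x₀ with hy
    have e1 := norm_add_mul_ge x₀ c y
    have e2 := norm_add_mul_ge y c (x₀ + c * y)
    have e3 : (1 + c ^ 2) * x₀ + c * x₁ = x₀ + c * y := by rw [hy]; ring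
    rw [e3]
    have e5 : ‖c‖ ≤ ‖x₀ + c * y‖ := by nlinarith
    have e6 : ‖y‖ ≤ ‖x₀ + c * y‖ := by nlinarith
    refine ⟨e5, ?_, h2⟩
    nlinarith [norm_nonneg (x₀ + c * y)]
  | succ k ih =>
    obtain ⟨i1, i2, i3⟩ := ih
    rw [show -(((k + 1 : ℕ) : ℤ) + 1) = -1 + -((k : ℤ) + 1) by push_cast; ring, act_add]
    set v := act c (-((k : ℤ) + 1)) (x₀, x₁) with hv
    rw [show act c (-1) v = ((1 + c ^ 2) * v.1 + c * v.2, c * v.1 + v.2) from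
      act_neg_one c v.1 v.2]
    simp only []
    have e0 : c * v.1 + v.2 = v.2 + c * v.1 := by ring
    rw [e0]
    set y := v.2 + c * v.1 with hy
    have e1 := norm_add_mul_ge v.1 c y
    have e2 := norm_add_mul_ge y c (v.1 + c * y)
    have e3 : (1 + c ^ 2) * v.1 + c * v.2 = v.1 + c * y := by rw [hy]; ring
    rw [e3]
    have e5 : ‖y‖ ≤ ‖v.1 + c * y‖ := by nlinarith [norm_nonneg y]
    refine ⟨by linarith, ?_, by linarith⟩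
    nlinarith [norm_nonneg (v.1 + c * y)]

theorem grow_region {c x₀ x₁ : ℂ} {b : ℤ} (hb : b ≠ 0) (hc : 2 ≤ ‖c‖) (h0 : ‖x₀‖ ≤ ‖c‖)
    (h1 : 2 ≤ ‖x₁‖) (h2 : 2 ≤ ‖x₁ + c * x₀‖) :
    ‖c‖ ≤ ‖(act c b (x₀, x₁)).1‖ ∧ 2 ≤ ‖(act c b (x₀, x₁)).2‖ ∧
      2 ≤ ‖(act c b (x₀, x₁)).2 + c * (act c b (x₀, x₁)).1‖ := by
  rcases lt_or_gt_of_ne hb with hb' | hb'
  · obtain ⟨k, hk⟩ : ∃ k : ℕ, b = -((k : ℤ) + 1) := ⟨(-b - 1).toNat, by omega⟩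
    obtain ⟨g1, g2, g3⟩ := grow_neg hc h0 h2 k
    rw [hk]
    exact ⟨g1, g3, by linarith⟩
  · obtain ⟨k, hk⟩ : ∃ k : ℕ, b = (k : ℤ) + 1 := ⟨(b - 1).toNat, by omega⟩
    obtain ⟨g1, g2, g3⟩ := grow_pos hc h0 h1 k
    rw [hk]
    exact ⟨g1, by linarith, g3⟩

theorem grow_all {n : ℕ} {b : ℕ → ℤ} (hb : ∀ j, 1 ≤ j → j ≤ n → b j ≠ 0) {w : ℂ}
    (hw : 2 ≤ ‖w‖) (i : ℕ) (hi : i ≤ n) :
    2 ≤ ‖Wc b w (i + 1)‖ ∧ ‖Wc b w i‖ ≤ ‖Wc b w (i + 1)‖ ∧ 2 ≤ ‖Qc b w i‖ ∧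
      2 ≤ ‖Qc b w i + Wc b w (i + 1) * Wc b w i‖ := by
  induction i with
  | zero =>
    rw [W_zero, Q_zero]
    rw [show Wc b w (0 + 1) = w from W_one b w]
    refine ⟨hw, by rw [norm_zero]; exact norm_nonneg _, hw, ?_⟩
    rw [mul_zero, add_zero]
    exact hw
  | succ i ih =>
    obtain ⟨i1, i2, i3, i4⟩ := ih (by omega)
    obtain ⟨g1, g2, g3⟩ := grow_region (hb (i + 1) (by omega) hi) i1 i2 i3 i4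
    rw [act_succ] at g1 g2 g3
    simp only [] at g1 g2 g3
    refine ⟨le_trans i1 g1, g1, g2, ?_⟩
    rw [mul_comm (Wc b w (i + 1 + 1))]
    exact g3

theorem Cl.norm_lt {n : ℕ} {b : ℕ → ℤ} (hb : ∀ j, 1 ≤ j → j ≤ n → b j ≠ 0) {z : ℂ}
    (hz : Wc b z (n + 1) = 0) : ‖z‖ < 2 := by
  by_contra h
  have h1 := (grow_all hb (not_lt.1 h) n le_rfl).1
  rw [hz, norm_zero] at h1
  norm_num at h1

end Pool.Agent.TBK
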