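import Pool.Agent.TBK.Final

set_option autoImplicit false

namespace Pool.Agent.TBK.RealPlace

open Pool.Agent.DFJ Pool.Agent.TBK LaurentPolynomial

/-- Two-bridge knots of genus `g`: `TBGroup g a` is the group of the boundary `K` of the linear
plumbing of `2g` annuli with `a_1, …, a_{2g} ≠ 0` full twists. Let `α` be a nonabelian
representation with parabolic meridians and torsion-free image (for instance a lift of the
holonomy), and suppose that the minimal polynomial of the trace of `α(x)` has a real root, for
instance that the trace field has a real place. Then the torsion of `α` exists and is unique, it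
has degree `2 (2g - 1)`, and it is monic if and only if the commutator subgroup of the knot group
is finitely generated (that is, `K` is fibered). -/
theorem result (g : ℕ) (hg : 1 ≤ g) (a : ℕ → ℤ) (ha : ∀ j, 1 ≤ j → j ≤ 2 * g → a j ≠ 0)
    (φ : TBGroup g a →* Multiplicative ℤ) (hφ : Function.Surjective φ)
    (α : TBGroup g a →* SLC) (hα : Good α)
    (hreal : ∃ r : ℝ,
      Polynomial.aeval r (minpoly ℚ (mx (α (PresentedGroup.of 0))).trace) = 0) :
    (∃! τ : ℂ[T;T⁻¹], IsTorsion φ α τ) ∧ ∀ τ : ℂ[T;T⁻¹], IsTorsion φ α τ →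
      HasDegree τ (2 * (2 * g - 1)) ∧ (IsMonic τ ↔ (commutator (TBGroup g a)).FG) := by
  obtain ⟨h1, h2⟩ := part_one hg ha hφ hα
  exact ⟨h1, fun τ hτ => ⟨(h2 τ hτ).1, (h2 τ hτ).2.2.2 hreal⟩⟩

end Pool.Agent.TBK.RealPlace
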