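import Pool.Agent.DFJ.Stall

/-!
# TBK/StallG: integrality from a finitely generated commutator subgroup

Same proof as in DFJ/Stall (`qh_form`, `tsub`, `comm_le`, `tmod`, `one_mem_tmod`, `conj_mem_tmod`,
`tmod_fg`, `int_of_fg`) for a general group `G` generated by `x, t` and a homomorphism
`f : G →* Equiv.Perm ℂ` with `f t = aff l 0`, `f x = aff 1 1`: `1 ∈ tmod` since
`x ∈ commutator G`, and conjugation by `t` multiplies translations by `l` (`f t = aff l 0`).
-/

set_option autoImplicit false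

namespace Pool.Agent.TBK

open Pool.Agent.DFJ
open scoped commutatorElement

section

variable {G : Type*} [Group G] (f : G →* Equiv.Perm ℂ)

private theorem sg_form {x t : G} (hgen : Subgroup.closure {x, t} = ⊤) {l : ℂˣ}
    (ht : f t = aff l 0) (hx : f x = aff 1 1) (g : G) : ∃ (u : ℂˣ) (c : ℂ), f g = aff u c := by
  have hg : g ∈ Subgroup.closure ({x, t} : Set G) := by
    rw [hgen]
    exact Subgroup.mem_top g
  induction hg using Subgroup.closure_induction with
  | mem y hy =>
    rcases hy with rfl | hy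
    · exact ⟨1, 1, hx⟩
    · rw [Set.mem_singleton_iff] at hy
      rw [hy]
      exact ⟨l, 0, ht⟩
  | one => exact ⟨1, 0, by rw [map_one, aff_one]⟩
  | mul x y _ _ hx hy =>
    obtain ⟨u, c, hu⟩ := hx
    obtain ⟨v, d, hv⟩ := hy
    exact ⟨u * v, u * d + c, by rw [map_mul, hu, hv, aff_mul]⟩
  | inv x _ hx =>
    obtain ⟨u, c, hu⟩ := hx
    exact ⟨u⁻¹, _, by rw [map_inv, hu, aff_inv]⟩

/-- elements acting by translations -/
private def sg_tsub : Subgroup G where
  carrier := {g | ∃ c : ℂ, f g = aff 1 c}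
  one_mem' := ⟨0, by rw [map_one, aff_one]⟩
  mul_mem' := by
    rintro x y ⟨c, hc⟩ ⟨d, hd⟩
    exact ⟨_, by rw [map_mul, hc, hd, aff_mul, one_mul]⟩
  inv_mem' := by
    rintro x ⟨c, hc⟩
    exact ⟨_, by rw [map_inv, hc, aff_inv, inv_one]⟩

private theorem sg_comm_le (hf : ∀ g, ∃ (u : ℂˣ) (c : ℂ), f g = aff u c) :
    commutator G ≤ sg_tsub f := by
  rw [commutator_def, Subgroup.commutator_le]
  intro g _ h _
  obtain ⟨u, c, hu⟩ := hf g
  obtain ⟨v, d, hv⟩ := hf h
  obtain ⟨w, c', hw⟩ := hf ⁅g, h⁆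
  have h1 : w = 1 := by
    have hw' := hw
    rw [commutatorElement_def, map_mul, map_mul, map_mul, map_inv, map_inv, hu, hv, aff_inv,
      aff_inv, aff_mul, aff_mul, aff_mul] at hw'
    rw [← (aff_inj hw').1, mul_comm u v, mul_inv_cancel_right, mul_inv_cancel]
  exact ⟨c', by rw [hw, h1]⟩

/-- the translations of the commutator subgroup -/
private def sg_tmod : AddSubgroup ℂ where
  carrier := {c | ∃ g ∈ commutator G, f g = aff 1 c}
  zero_mem' := ⟨1, one_mem _, by rw [map_one, aff_one]⟩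
  add_mem' := by
    rintro c d ⟨g, hg, hc⟩ ⟨h, hh, hd⟩
    refine ⟨g * h, mul_mem hg hh, ?_⟩
    rw [map_mul, hc, hd, aff_mul, one_mul, Units.val_one, one_mul, add_comm]
  neg_mem' := by
    rintro c ⟨g, hg, hc⟩
    refine ⟨g⁻¹, inv_mem hg, ?_⟩
    rw [map_inv, hc, aff_inv, inv_one, Units.val_one, one_mul]

private theorem sg_conj {t : G} {l : ℂˣ} (ht : f t = aff l 0) {c : ℂ} (hc : c ∈ sg_tmod f) :
    (l : ℂ) * c ∈ sg_tmod f ∧ ((l⁻¹ : ℂˣ) : ℂ) * c ∈ sg_tmod f := by
  obtain ⟨g, hg, hc⟩ := hc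
  constructor
  · refine ⟨t * g * t⁻¹, Subgroup.Normal.conj_mem inferInstance g hg _, ?_⟩
    rw [map_mul, map_mul, map_inv, hc, ht, aff_mul, aff_inv, aff_mul, mul_one, mul_inv_cancel]
    congr 1
    simp
  · refine ⟨t⁻¹ * g * (t⁻¹)⁻¹, Subgroup.Normal.conj_mem inferInstance g hg _, ?_⟩
    rw [map_mul, map_mul, inv_inv, map_inv, hc, ht, aff_inv, aff_mul, aff_mul, mul_one,
      inv_mul_cancel]
    congr 1
    simp

private theorem sg_fg (hf : ∀ g, ∃ (u : ℂˣ) (c : ℂ), f g = aff u c) (h : (commutator G).FG) :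
    (AddSubgroup.toIntSubmodule (sg_tmod f)).FG := by
  obtain ⟨S, hS⟩ := h
  classical
  refine ⟨S.image (fun g => f g 0), ?_⟩
  apply le_antisymm
  · rw [Submodule.span_le]
    intro c hc
    rw [Finset.coe_image] at hc
    obtain ⟨g, hg, rfl⟩ := hc
    have hg' : g ∈ commutator G := by
      rw [← hS]; exact Subgroup.subset_closure hg
    obtain ⟨c, hc⟩ := sg_comm_le f hf hg'
    refine ⟨g, hg', ?_⟩
    have : (fun g => f g 0) g = c := by
      change f g 0 = c
      rw [hc, aff_apply]; simp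
    rw [this, hc]
  · rintro c ⟨g, hg, hc⟩
    have key : ∀ g, g ∈ Subgroup.closure (S : Set G) → ∀ c, f g = aff 1 c →
        c ∈ Submodule.span ℤ ((S.image (fun g => f g 0) : Finset ℂ) : Set ℂ) := by
      intro g hg
      induction hg using Subgroup.closure_induction with
      | mem x hx =>
        intro c hc
        apply Submodule.subset_span
        rw [Finset.coe_image]
        refine ⟨x, hx, ?_⟩
        change f x 0 = c
        rw [hc, aff_apply]; simp
      | one =>
        intro c hc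
        rw [map_one, ← aff_one] at hc
        rw [← (aff_inj hc).2]
        exact zero_mem _
      | mul x y hx' hy' hx hy =>
        intro c hc
        rw [hS] at hx' hy'
        obtain ⟨c1, hc1⟩ := sg_comm_le f hf hx'
        obtain ⟨c2, hc2⟩ := sg_comm_le f hf hy'
        rw [map_mul, hc1, hc2, aff_mul] at hc
        rw [← (aff_inj hc).2, Units.val_one, one_mul]
        exact add_mem (hy c2 hc2) (hx c1 hc1)
      | inv x hx' hx =>
        intro c hc
        rw [hS] at hx'
        obtain ⟨c1, hc1⟩ := sg_comm_le f hf hx'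
        rw [map_inv, hc1, aff_inv] at hc
        rw [← (aff_inj hc).2, inv_one, Units.val_one, one_mul]
        exact neg_mem (hx c1 hc1)
    rw [← hS] at hg
    exact key g hg c hc

end

theorem int_of_fg' {G : Type*} [Group G] {x t : G} (hgen : Subgroup.closure {x, t} = ⊤)
    (f : G →* Equiv.Perm ℂ) {l : ℂˣ} (ht : f t = aff l 0) (hx : f x = aff 1 1)
    (hxc : x ∈ commutator G) (h : (commutator G).FG) :
    IsIntegral ℤ (l : ℂ) ∧ IsIntegral ℤ ((l⁻¹ : ℂˣ) : ℂ) := by
  have hf := sg_form f hgen ht hx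
  have hfg := sg_fg f hf h
  have hne : AddSubgroup.toIntSubmodule (sg_tmod f) ≠ ⊥ := by
    intro h0
    have h1 : (1 : ℂ) ∈ AddSubgroup.toIntSubmodule (sg_tmod f) := ⟨x, hxc, hx⟩
    rw [h0, Submodule.mem_bot] at h1
    exact one_ne_zero h1
  exact ⟨isIntegral_of_smul_mem_submodule _ hne hfg _ fun c hc => (sg_conj f ht hc).1,
    isIntegral_of_smul_mem_submodule _ hne hfg _ fun c hc => (sg_conj f ht hc).2⟩

end Pool.Agent.TBK
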